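import Mathlib

/-!
Packings of unit balls in Euclidean 3-space and sets of pairwise touching balls.
-/

namespace Pool.Agent.H38.Ball

/-- Euclidean 3-space. -/
abbrev E3 : Type := EuclideanSpace ℝ (Fin 3)

/-- The finite set `P` of centres is a packing of closed unit balls:
the closed unit balls centred at distinct points of `P` have disjoint interiors. -/
def IsUnitBallPacking (P : Finset E3) : Prop :=
  (P : Set E3).PairwiseDisjoint (fun c => interior (Metric.closedBall c (1 : ℝ)))

/-- The sets of `m` balls of `P` (given by their centres) that touch pairwise, two balls touching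
when their centres are at distance exactly `2`. -/
def touchingSets (m : ℕ) (P : Finset E3) : Set (Finset E3) :=
  {T | T ⊆ P ∧ T.card = m ∧ ∀ x ∈ T, ∀ y ∈ T, x ≠ y → dist x y = 2}

lemma isUnitBallPacking_iff (P : Finset E3) :
    IsUnitBallPacking P ↔ ∀ x ∈ P, ∀ y ∈ P, x ≠ y → 2 ≤ dist x y := by
  unfold IsUnitBallPacking
  constructor
  · intro h x hx y hy hxy
    have := h (by exact_mod_cast hx) (by exact_mod_cast hy) hxy
    simp only [Function.onFun] at this
    rw [interior_closedBall _ one_ne_zero, interior_closedBall _ one_ne_zero] at this
    by_contra hlt
    push Not at hlt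
    have hm : midpoint ℝ x y ∈ Metric.ball x 1 ∩ Metric.ball y 1 := by
      constructor
      · rw [Metric.mem_ball, dist_midpoint_left]
        simp only [Real.norm_ofNat]
        linarith
      · rw [Metric.mem_ball, dist_midpoint_right]
        simp only [Real.norm_ofNat]
        linarith
    exact (Set.disjoint_iff.mp this) hm
  · intro h x hx y hy hxy
    have h2 := h x (by exact_mod_cast hx) y (by exact_mod_cast hy) hxy
    simp only [Function.onFun]
    rw [interior_closedBall _ one_ne_zero, interior_closedBall _ one_ne_zero]
    apply Metric.ball_disjoint_ball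
    linarith

end Pool.Agent.H38.Ball
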