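import Mathlib
import Pool.Agent.H38.BallDefs

/-!
Packings of unit balls in Euclidean 3-space with many touching triplets and quadruples:
octahedral pieces of the face-centred cubic lattice with two opposite corners cut off.
-/

open Finset

namespace Pool.Agent.H38.Ball

lemma touchingSets_finite (m : ℕ) (P : Finset E3) : (touchingSets m P).Finite := by
  apply Set.Finite.subset (P.powerset.finite_toSet)
  intro T hT
  simpa using hT.1

lemma touchingSets_mono (m : ℕ) {P P' : Finset E3} (h : P ⊆ P') :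
    (touchingSets m P).ncard ≤ (touchingSets m P').ncard := by
  apply Set.ncard_le_ncard _ (touchingSets_finite m P')
  intro T hT
  exact ⟨hT.1.trans h, hT.2⟩

/-- one more ball far away -/
lemma exists_insert (P : Finset E3) (h : IsUnitBallPacking P) :
    ∃ P' : Finset E3, P ⊆ P' ∧ P'.card = P.card + 1 ∧ IsUnitBallPacking P' := by
  classical
  obtain ⟨R, hR⟩ : ∃ R : ℝ, ∀ x ∈ P, ‖x‖ ≤ R := by
    rcases P.eq_empty_or_nonempty with rfl | hne
    · exact ⟨0, by simp⟩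
    · exact ⟨P.sup' hne (fun x => ‖x‖), fun x hx => Finset.le_sup' (fun x => ‖x‖) hx⟩
  obtain ⟨z, hz⟩ : ∃ z : E3, ‖z‖ = |R| + 2 :=
    exists_norm_eq E3 (by positivity)
  have hfar : ∀ x ∈ P, 2 ≤ dist z x := by
    intro x hx
    have h1 := hR x hx
    have h2 : ‖z‖ - ‖x‖ ≤ ‖z - x‖ := norm_sub_norm_le z x
    rw [dist_eq_norm]
    have := le_abs_self R
    linarith
  have hz' : z ∉ P := by
    intro hzP
    have := hfar z hzP
    simp at this
    linarith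
  refine ⟨insert z P, Finset.subset_insert _ _, Finset.card_insert_of_notMem hz', ?_⟩
  rw [isUnitBallPacking_iff] at h ⊢
  intro x hx y hy hxy
  rw [Finset.mem_insert] at hx hy
  rcases hx with rfl | hx <;> rcases hy with rfl | hy
  · exact absurd rfl hxy
  · exact hfar y hy
  · rw [dist_comm]; exact hfar x hx
  · exact h x hx y hy hxy

lemma exists_extend (P : Finset E3) (h : IsUnitBallPacking P) (R : ℕ) :
    ∃ P' : Finset E3, P ⊆ P' ∧ P'.card = P.card + R ∧ IsUnitBallPacking P' := by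
  induction R with
  | zero => exact ⟨P, subset_rfl, rfl, h⟩
  | succ R ih =>
    obtain ⟨P', h1, h2, h3⟩ := ih
    obtain ⟨P'', h4, h5, h6⟩ := exists_insert P' h3
    exact ⟨P'', h1.trans h4, by rw [h5, h2]; ring, h6⟩

/-! ### The lattice -/

abbrev V : Type := ℤ × ℤ × ℤ

noncomputable def emb (p : V) : E3 := !₂[(p.1 : ℝ), (p.2.1 : ℝ), √2 * (p.2.2 : ℝ)]

def Q (p r : V) : ℤ := (p.1 - r.1) ^ 2 + (p.2.1 - r.2.1) ^ 2 + 2 * (p.2.2 - r.2.2) ^ 2

lemma dist_emb (p r : V) : dist (emb p) (emb r) = √(Q p r : ℝ) := by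
  rw [EuclideanSpace.dist_eq]
  congr 1
  simp only [emb, Fin.sum_univ_three, Real.dist_eq, sq_abs, Q]
  simp only [Matrix.cons_val_zero, Matrix.cons_val_one, Matrix.cons_val]
  push_cast
  have h2 : √2 ^ 2 = (2 : ℝ) := Real.sq_sqrt (by norm_num)
  linear_combination ((p.2.2 : ℝ) - r.2.2) ^ 2 * h2

lemma dist_emb_eq_two {p r : V} (h : Q p r = 4) : dist (emb p) (emb r) = 2 := by
  rw [dist_emb, h]
  have : ((4 : ℤ) : ℝ) = 2 ^ 2 := by norm_num
  rw [this]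
  exact Real.sqrt_sq (by norm_num)

lemma two_le_dist_emb {p r : V} (h : 4 ≤ Q p r) : 2 ≤ dist (emb p) (emb r) := by
  rw [dist_emb]
  apply Real.le_sqrt_of_sq_le
  have : ((4 : ℤ) : ℝ) ≤ (Q p r : ℝ) := by exact_mod_cast h
  norm_num at this ⊢
  linarith

lemma emb_injective : Function.Injective emb := by
  intro p r h
  have h0 : dist (emb p) (emb r) = 0 := by rw [h]; exact dist_self _
  rw [dist_emb, Real.sqrt_eq_zero'] at h0
  have h1 : Q p r ≤ 0 := by exact_mod_cast h0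
  unfold Q at h1
  have a1 : (p.1 - r.1) ^ 2 = 0 := by nlinarith [sq_nonneg (p.1 - r.1), sq_nonneg (p.2.1 - r.2.1), sq_nonneg (p.2.2 - r.2.2)]
  have a2 : (p.2.1 - r.2.1) ^ 2 = 0 := by nlinarith [sq_nonneg (p.1 - r.1), sq_nonneg (p.2.1 - r.2.1), sq_nonneg (p.2.2 - r.2.2)]
  have a3 : (p.2.2 - r.2.2) ^ 2 = 0 := by nlinarith [sq_nonneg (p.1 - r.1), sq_nonneg (p.2.1 - r.2.1), sq_nonneg (p.2.2 - r.2.2)]
  have b1 := pow_eq_zero_iff (two_ne_zero) |>.mp a1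
  have b2 := pow_eq_zero_iff (two_ne_zero) |>.mp a2
  have b3 := pow_eq_zero_iff (two_ne_zero) |>.mp a3
  ext <;> omega

/-- all coordinates have the same parity -/
def Par (p : V) : Prop := p.1 % 2 = p.2.2 % 2 ∧ p.2.1 % 2 = p.2.2 % 2

lemma four_le_Q {p r : V} (hp : Par p) (hr : Par r) (hne : p ≠ r) : 4 ≤ Q p r := by
  obtain ⟨p1, p2, p3⟩ := p
  obtain ⟨r1, r2, r3⟩ := r
  simp only [Par] at hp hr
  simp only [Q]
  simp only [ne_eq, Prod.mk.injEq, not_and] at hne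
  set x := p1 - r1 with hx
  set y := p2 - r2 with hy
  set z := p3 - r3 with hz
  rcases Int.emod_two_eq_zero_or_one z with h | h
  · obtain ⟨x', hx'⟩ : ∃ x', x = 2 * x' := ⟨x / 2, by omega⟩
    obtain ⟨y', hy'⟩ : ∃ y', y = 2 * y' := ⟨y / 2, by omega⟩
    obtain ⟨z', hz'⟩ : ∃ z', z = 2 * z' := ⟨z / 2, by omega⟩
    have : x' ≠ 0 ∨ y' ≠ 0 ∨ z' ≠ 0 := by
      by_contra hcon
      push Not at hcon
      obtain ⟨c1, c2, c3⟩ := hcon
      apply hne <;> omega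
    rw [hx', hy', hz']
    rcases this with h' | h' | h'
    · have : 1 ≤ x' ^ 2 := by
        have := sq_nonneg x'
        have h3 : x' ^ 2 ≠ 0 := pow_ne_zero _ h'
        omega
      nlinarith [sq_nonneg y', sq_nonneg z']
    · have : 1 ≤ y' ^ 2 := by
        have := sq_nonneg y'
        have h3 : y' ^ 2 ≠ 0 := pow_ne_zero _ h'
        omega
      nlinarith [sq_nonneg x', sq_nonneg z']
    · have : 1 ≤ z' ^ 2 := by
        have := sq_nonneg z'
        have h3 : z' ^ 2 ≠ 0 := pow_ne_zero _ h'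
        omega
      nlinarith [sq_nonneg x', sq_nonneg y']
  · have hx0 : x ≠ 0 := by omega
    have hy0 : y ≠ 0 := by omega
    have hz0 : z ≠ 0 := by omega
    have h1 : 1 ≤ x ^ 2 := by
      have := sq_nonneg x
      have h3 : x ^ 2 ≠ 0 := pow_ne_zero _ hx0
      omega
    have h2 : 1 ≤ y ^ 2 := by
      have := sq_nonneg y
      have h3 : y ^ 2 ≠ 0 := pow_ne_zero _ hy0
      omega
    have h3 : 1 ≤ z ^ 2 := by
      have := sq_nonneg z
      have h3 : z ^ 2 ≠ 0 := pow_ne_zero _ hz0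
      omega
    linarith

/-- sets of `m` pairwise touching points in an integral configuration -/
def cl (m : ℕ) (S : Finset V) : Finset (Finset V) :=
  S.powerset.filter (fun T => T.card = m ∧ ∀ x ∈ T, ∀ y ∈ T, x ≠ y → Q x y = 4)

lemma cl_le (m : ℕ) (S : Finset V) :
    (cl m S).card ≤ (touchingSets m (S.map ⟨emb, emb_injective⟩)).ncard := by
  classical
  have hinj : Function.Injective (fun T : Finset V => T.map ⟨emb, emb_injective⟩) :=
    Finset.map_injective _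
  rw [← Finset.card_image_of_injective _ hinj, ← Set.ncard_coe_finset]
  apply Set.ncard_le_ncard _ (touchingSets_finite _ _)
  intro T hT
  rw [Finset.mem_coe, Finset.mem_image] at hT
  obtain ⟨T0, hT0, rfl⟩ := hT
  unfold cl at hT0
  rw [Finset.mem_filter, Finset.mem_powerset] at hT0
  refine ⟨Finset.map_subset_map.mpr hT0.1, by rw [Finset.card_map]; exact hT0.2.1, ?_⟩
  intro x hx y hy hxy
  rw [Finset.mem_map] at hx hy
  obtain ⟨x0, hx0, rfl⟩ := hx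
  obtain ⟨y0, hy0, rfl⟩ := hy
  apply dist_emb_eq_two
  apply hT0.2.2 x0 hx0 y0 hy0
  rintro rfl
  exact hxy rfl

/-! ### The truncated octahedra -/

def sg (h : Bool) : ℤ := if h then 1 else -1

lemma sg_sq (h : Bool) : sg h ^ 2 = 1 := by cases h <;> simp [sg]

/-- the ball `(i, j)` of the square layer `l` above (`h = true`) or below (`h = false`) the
middle layer -/
def pt (h : Bool) (l i j : ℕ) : V := (2 * (i : ℤ) + l, 2 * (j : ℤ) + l, sg h * l)

def idx (K : ℕ) (d : Bool → ℕ) : Finset (Σ _ : Bool, Σ _ : ℕ, ℕ × ℕ) :=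
  (Finset.univ : Finset Bool).sigma fun h =>
    (Finset.Ico (if h then 0 else 1) (d h + 1)).sigma fun l =>
      range (K - l) ×ˢ range (K - l)

/-- The octahedron with `K` balls along each edge, cut to the layers `-d false, ..., d true`. -/
def oct (K : ℕ) (d : Bool → ℕ) : Finset V :=
  (idx K d).image fun x => pt x.1 x.2.1 x.2.2.1 x.2.2.2

lemma mem_oct {K : ℕ} {d : Bool → ℕ} {h : Bool} {l i j : ℕ} (hl : l ≤ d h) (hi : i < K - l)
    (hj : j < K - l) : pt h l i j ∈ oct K d := by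
  unfold oct
  rw [Finset.mem_image]
  cases h
  · rcases Nat.eq_zero_or_pos l with rfl | hl0
    · refine ⟨⟨true, 0, i, j⟩, ?_, ?_⟩
      · simp [idx, hi, hj]
        omega
      · simp [pt]
    · refine ⟨⟨false, l, i, j⟩, ?_, rfl⟩
      simp [idx, hi, hj]
      omega
  · refine ⟨⟨true, l, i, j⟩, ?_, rfl⟩
    simp [idx, hi, hj]
    omega

lemma card_oct (K : ℕ) (d : Bool → ℕ) :
    (oct K d).card = ∑ l ∈ range (d true + 1), (K - l) ^ 2 +
      ∑ l ∈ Ico 1 (d false + 1), (K - l) ^ 2 := by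
  unfold oct
  rw [Finset.card_image_of_injOn]
  · unfold idx
    rw [Finset.card_sigma]
    simp only [Fintype.sum_bool, Finset.card_sigma, Finset.card_product, Finset.card_range]
    simp [sq]
  · rintro ⟨h, l, i, j⟩ hx ⟨h', l', i', j'⟩ hx' heq
    simp only [pt, Prod.mk.injEq] at heq
    simp only [idx, Finset.coe_sigma, Set.mem_sigma_iff, Finset.coe_univ, Set.mem_univ, true_and,
      Finset.mem_coe, Finset.mem_Ico, Finset.mem_product, Finset.mem_range] at hx hx'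
    obtain ⟨e1, e2, e3⟩ := heq
    have hl : l = l' ∧ h = h' := by
      cases h <;> cases h' <;> simp [sg] at e3 hx hx' ⊢ <;> omega
    obtain ⟨rfl, rfl⟩ := hl
    have hi : i = i' := by omega
    have hj : j = j' := by omega
    subst hi hj
    rfl

lemma par_oct {K : ℕ} {d : Bool → ℕ} {p : V} (hp : p ∈ oct K d) : Par p := by
  unfold oct at hp
  rw [Finset.mem_image] at hp
  obtain ⟨⟨h, l, i, j⟩, -, rfl⟩ := hp
  cases h <;> simp [Par, pt, sg] <;> omega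

lemma packing_oct (K : ℕ) (d : Bool → ℕ) :
    IsUnitBallPacking ((oct K d).map ⟨emb, emb_injective⟩) := by
  rw [isUnitBallPacking_iff]
  intro x hx y hy hxy
  rw [Finset.mem_map] at hx hy
  obtain ⟨x0, hx0, rfl⟩ := hx
  obtain ⟨y0, hy0, rfl⟩ := hy
  apply two_le_dist_emb
  apply four_le_Q (par_oct hx0) (par_oct hy0)
  rintro rfl
  exact hxy rfl

/-! ### Triangles -/

def D1 : Fin 8 → ℕ := ![0, 0, 0, 0, 1, 1, 0, 0]
def D2 : Fin 8 → ℕ := ![0, 0, 0, 0, 0, 0, 1, 1]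
def A2 : Fin 8 → ℕ × ℕ × ℕ :=
  ![(0,0,0),(0,0,1),(0,0,0),(0,1,0),(1,1,0),(1,1,0),(1,0,1),(1,0,1)]
def A3 : Fin 8 → ℕ × ℕ × ℕ :=
  ![(0,1,0),(0,1,1),(0,0,1),(0,1,1),(0,1,0),(0,1,1),(0,0,1),(0,1,1)]

def triIdx (K : ℕ) (d : Bool → ℕ) : Finset (Σ _ : Bool, Σ _ : ℕ, Σ _ : Fin 8, ℕ × ℕ) :=
  (Finset.univ : Finset Bool).sigma fun h =>
    (range (d h)).sigma fun l =>
      (Finset.univ : Finset (Fin 8)).sigma fun c =>
        range (K - (l + 1) - D1 c) ×ˢ range (K - (l + 1) - D2 c)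

def triA (x : Σ _ : Bool, Σ _ : ℕ, Σ _ : Fin 8, ℕ × ℕ) : V :=
  pt x.1 (x.2.1 + 1) x.2.2.2.1 x.2.2.2.2
def triB (x : Σ _ : Bool, Σ _ : ℕ, Σ _ : Fin 8, ℕ × ℕ) : V :=
  pt x.1 (x.2.1 + (A2 x.2.2.1).1) (x.2.2.2.1 + (A2 x.2.2.1).2.1) (x.2.2.2.2 + (A2 x.2.2.1).2.2)
def triC (x : Σ _ : Bool, Σ _ : ℕ, Σ _ : Fin 8, ℕ × ℕ) : V :=
  pt x.1 (x.2.1 + (A3 x.2.2.1).1) (x.2.2.2.1 + (A3 x.2.2.1).2.1) (x.2.2.2.2 + (A3 x.2.2.1).2.2)

lemma Q_comm (p r : V) : Q p r = Q r p := by unfold Q; ring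

lemma Q_self (p : V) : Q p p = 0 := by unfold Q; ring

lemma cl_three_mem {S : Finset V} {A B C : V} (hA : A ∈ S) (hB : B ∈ S) (hC : C ∈ S)
    (h1 : Q A B = 4) (h2 : Q A C = 4) (h3 : Q B C = 4) : ({A, B, C} : Finset V) ∈ cl 3 S := by
  have n1 : A ≠ B := by rintro rfl; rw [Q_self] at h1; omega
  have n2 : A ≠ C := by rintro rfl; rw [Q_self] at h2; omega
  have n3 : B ≠ C := by rintro rfl; rw [Q_self] at h3; omega
  unfold cl
  rw [Finset.mem_filter, Finset.mem_powerset]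
  refine ⟨?_, ?_, ?_⟩
  · intro x hx
    simp only [Finset.mem_insert, Finset.mem_singleton] at hx
    rcases hx with rfl | rfl | rfl <;> assumption
  · exact Finset.card_eq_three.mpr ⟨A, B, C, n1, n2, n3, rfl⟩
  · intro x hx y hy hxy
    simp only [Finset.mem_insert, Finset.mem_singleton] at hx hy
    rcases hx with rfl | rfl | rfl <;> rcases hy with rfl | rfl | rfl <;>
      first
      | exact absurd rfl hxy
      | assumption
      | (rw [Q_comm]; assumption)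

lemma Q_pt (h : Bool) (l i j l' i' j' : ℕ) :
    Q (pt h l i j) (pt h l' i' j') =
      (2 * ((i : ℤ) - i') + (l - l')) ^ 2 + (2 * ((j : ℤ) - j') + (l - l')) ^ 2 +
        2 * ((l : ℤ) - l') ^ 2 := by
  unfold Q pt
  simp only
  have := sg_sq h
  linear_combination (2 * ((l : ℤ) - l') ^ 2) * this

lemma tri_mem {K : ℕ} {d : Bool → ℕ} {x : Σ _ : Bool, Σ _ : ℕ, Σ _ : Fin 8, ℕ × ℕ}
    (hx : x ∈ triIdx K d) : ({triA x, triB x, triC x} : Finset V) ∈ cl 3 (oct K d) := by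
  obtain ⟨h, l, c, i, j⟩ := x
  unfold triIdx at hx
  simp only [Finset.mem_sigma, Finset.mem_univ, true_and, Finset.mem_range,
    Finset.mem_product] at hx
  obtain ⟨hl, hi, hj⟩ := hx
  apply cl_three_mem
  · unfold triA
    apply mem_oct <;> simp only <;> omega
  · unfold triB
    fin_cases c <;> simp [A2, D1, D2] at hi hj ⊢ <;> apply mem_oct <;> omega
  · unfold triC
    fin_cases c <;> simp [A3, D1, D2] at hi hj ⊢ <;> apply mem_oct <;> omega
  · unfold triA triB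
    rw [Q_pt]
    fin_cases c <;> simp [A2]
  · unfold triA triC
    rw [Q_pt]
    fin_cases c <;> simp [A3]
  · unfold triB triC
    rw [Q_pt]
    fin_cases c <;> simp [A2, A3]

lemma sum_three {A B C : V} (h1 : A ≠ B) (h2 : A ≠ C) (h3 : B ≠ C) :
    ∑ p ∈ ({A, B, C} : Finset V), p = A + B + C := by
  rw [Finset.sum_insert, Finset.sum_insert, Finset.sum_singleton, add_assoc]
  · simpa using h3
  · simp [h1, h2]

lemma tri_sum {K : ℕ} {d : Bool → ℕ} {x : Σ _ : Bool, Σ _ : ℕ, Σ _ : Fin 8, ℕ × ℕ}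
    (hx : x ∈ triIdx K d) :
    ∑ p ∈ ({triA x, triB x, triC x} : Finset V), p = triA x + triB x + triC x := by
  have h := tri_mem hx
  unfold cl at h
  rw [Finset.mem_filter] at h
  have hc := h.2.1
  apply sum_three
  · rintro heq
    rw [heq] at hc
    have : ({triB x, triB x, triC x} : Finset V) = {triB x, triC x} := by simp
    rw [this] at hc
    have := Finset.card_le_two (a := triB x) (b := triC x)
    omega
  · rintro heq
    rw [heq] at hc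
    have : ({triC x, triB x, triC x} : Finset V) = {triB x, triC x} := by
      ext; simp
    rw [this] at hc
    have := Finset.card_le_two (a := triB x) (b := triC x)
    omega
  · rintro heq
    rw [heq] at hc
    have : ({triA x, triC x, triC x} : Finset V) = {triA x, triC x} := by simp
    rw [this] at hc
    have := Finset.card_le_two (a := triA x) (b := triC x)
    omega

def W1 : Fin 8 → ℤ := ![0, 0, -2, 2, 3, 3, -1, 1]
def W2 : Fin 8 → ℤ := ![-2, 2, 0, 0, -1, 1, 3, 3]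
def W3 : Fin 8 → ℤ := ![-2, -2, -2, -2, -1, -1, -1, -1]

lemma W_inj : ∀ c c' : Fin 8, W1 c % 3 = W1 c' % 3 → W2 c % 3 = W2 c' % 3 →
    W3 c % 3 = W3 c' % 3 → c = c' := by
  decide

lemma W3_bd (c : Fin 8) : -2 ≤ W3 c ∧ W3 c ≤ -1 := by
  fin_cases c <;> simp [W3]

lemma tri_sum_eq (x : Σ _ : Bool, Σ _ : ℕ, Σ _ : Fin 8, ℕ × ℕ) :
    triA x + triB x + triC x =
      (3 * (2 * (x.2.2.2.1 : ℤ) + x.2.1 + 1) + W1 x.2.2.1,
       3 * (2 * (x.2.2.2.2 : ℤ) + x.2.1 + 1) + W2 x.2.2.1,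
       sg x.1 * (3 * ((x.2.1 : ℤ) + 1) + W3 x.2.2.1)) := by
  obtain ⟨h, l, c, i, j⟩ := x
  unfold triA triB triC pt
  simp only [Prod.mk_add_mk, Prod.mk.injEq]
  fin_cases c <;> simp [A2, A3, W1, W2, W3] <;> refine ⟨?_, ?_, ?_⟩ <;> ring

lemma tri_inj (K : ℕ) (d : Bool → ℕ) :
    Set.InjOn (fun x => ({triA x, triB x, triC x} : Finset V)) (triIdx K d) := by
  intro x hx x' hx' heq
  have h1 := tri_sum hx
  have h2 := tri_sum hx'
  simp only at heq
  rw [heq, h2, tri_sum_eq, tri_sum_eq] at h1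
  obtain ⟨h, l, c, i, j⟩ := x
  obtain ⟨h', l', c', i', j'⟩ := x'
  simp only [Prod.mk.injEq] at h1
  obtain ⟨e1, e2, e3⟩ := h1
  have b1 := W3_bd c
  have b2 := W3_bd c'
  have hh : h = h' ∧ 3 * ((l : ℤ) + 1) + W3 c = 3 * ((l' : ℤ) + 1) + W3 c' := by
    cases h <;> cases h' <;> simp [sg] at e3 ⊢ <;> omega
  obtain ⟨rfl, e3'⟩ := hh
  have hc : c = c' := by
    apply W_inj <;> omega
  subst hc
  have hl : l = l' := by omega
  subst hl
  have hi : i = i' := by omega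
  have hj : j = j' := by omega
  subst hi hj
  rfl

lemma card_triIdx (K : ℕ) (d : Bool → ℕ) :
    (triIdx K d).card = ∑ h : Bool, ∑ l ∈ range (d h), ∑ c : Fin 8,
      (K - (l + 1) - D1 c) * (K - (l + 1) - D2 c) := by
  unfold triIdx
  simp only [Finset.card_sigma, Finset.card_product, Finset.card_range]

lemma tri_card_le (K : ℕ) (d : Bool → ℕ) :
    (triIdx K d).card ≤ (touchingSets 3 ((oct K d).map ⟨emb, emb_injective⟩)).ncard := by
  refine le_trans ?_ (cl_le 3 _)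
  apply Finset.card_le_card_of_injOn _ _ (tri_inj K d)
  intro x hx
  exact tri_mem hx

/-! ### Tetrahedra -/

def E1 : Fin 2 → ℕ := ![1, 0]
def E2 : Fin 2 → ℕ := ![0, 1]

def tetIdx (K : ℕ) (d : Bool → ℕ) : Finset (Σ _ : Bool, Σ _ : ℕ, Σ _ : Fin 2, ℕ × ℕ) :=
  (Finset.univ : Finset Bool).sigma fun h =>
    (range (d h)).sigma fun l =>
      (Finset.univ : Finset (Fin 2)).sigma fun c =>
        range (K - (l + 1) - E1 c) ×ˢ range (K - (l + 1) - E2 c)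

/-- the four vertices: two balls of the upper layer and the two balls below touching both -/
def tetP (x : Σ _ : Bool, Σ _ : ℕ, Σ _ : Fin 2, ℕ × ℕ) : Fin 4 → V :=
  ![pt x.1 (x.2.1 + 1) x.2.2.2.1 x.2.2.2.2,
    pt x.1 (x.2.1 + 1) (x.2.2.2.1 + E1 x.2.2.1) (x.2.2.2.2 + E2 x.2.2.1),
    pt x.1 x.2.1 (x.2.2.2.1 + E1 x.2.2.1) (x.2.2.2.2 + E2 x.2.2.1),
    pt x.1 x.2.1 (x.2.2.2.1 + 1) (x.2.2.2.2 + 1)]

lemma tetP_Q (x : Σ _ : Bool, Σ _ : ℕ, Σ _ : Fin 2, ℕ × ℕ) (a b : Fin 4) (hab : a ≠ b) :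
    Q (tetP x a) (tetP x b) = 4 := by
  obtain ⟨h, l, c, i, j⟩ := x
  unfold tetP
  fin_cases c <;> fin_cases a <;> fin_cases b <;> simp [E1, E2, Q_pt] at hab ⊢

lemma tetP_inj (x : Σ _ : Bool, Σ _ : ℕ, Σ _ : Fin 2, ℕ × ℕ) : Function.Injective (tetP x) := by
  intro a b hab
  by_contra hne
  have := tetP_Q x a b hne
  rw [hab, Q_self] at this
  omega

lemma tet_mem {K : ℕ} {d : Bool → ℕ} {x : Σ _ : Bool, Σ _ : ℕ, Σ _ : Fin 2, ℕ × ℕ}
    (hx : x ∈ tetIdx K d) :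
    (Finset.univ.map ⟨tetP x, tetP_inj x⟩ : Finset V) ∈ cl 4 (oct K d) := by
  unfold cl
  rw [Finset.mem_filter, Finset.mem_powerset]
  refine ⟨?_, ?_, ?_⟩
  · intro p hp
    rw [Finset.mem_map] at hp
    obtain ⟨a, -, rfl⟩ := hp
    obtain ⟨h, l, c, i, j⟩ := x
    unfold tetIdx at hx
    simp only [Finset.mem_sigma, Finset.mem_univ, true_and, Finset.mem_range,
      Finset.mem_product] at hx
    obtain ⟨hl, hi, hj⟩ := hx
    simp only [Function.Embedding.coeFn_mk]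
    unfold tetP
    fin_cases c <;> fin_cases a <;> simp [E1, E2] at hi hj ⊢ <;> apply mem_oct <;> omega
  · rw [Finset.card_map]; rfl
  · intro p hp r hr hpr
    rw [Finset.mem_map] at hp hr
    obtain ⟨a, -, rfl⟩ := hp
    obtain ⟨b, -, rfl⟩ := hr
    apply tetP_Q
    rintro rfl
    exact hpr rfl

lemma tet_sum_eq (x : Σ _ : Bool, Σ _ : ℕ, Σ _ : Fin 2, ℕ × ℕ) :
    ∑ p ∈ (Finset.univ.map ⟨tetP x, tetP_inj x⟩ : Finset V), p =
      (4 * (2 * (x.2.2.2.1 : ℤ) + x.2.1 + 1) + 4 * E1 x.2.2.1,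
       4 * (2 * (x.2.2.2.2 : ℤ) + x.2.1 + 1) + 4 * E2 x.2.2.1,
       sg x.1 * (4 * ((x.2.1 : ℤ) + 1) - 2)) := by
  obtain ⟨h, l, c, i, j⟩ := x
  rw [Finset.sum_map]
  simp only [Function.Embedding.coeFn_mk, Fin.sum_univ_four]
  unfold tetP pt
  fin_cases c <;> simp [E1, E2] <;> refine ⟨?_, ?_, ?_⟩ <;> ring

lemma tet_inj (K : ℕ) (d : Bool → ℕ) :
    Set.InjOn (fun x => (Finset.univ.map ⟨tetP x, tetP_inj x⟩ : Finset V)) (tetIdx K d) := by
  intro x hx x' hx' heq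
  have h1 := tet_sum_eq x
  have h2 := tet_sum_eq x'
  simp only at heq
  rw [heq, h2] at h1
  obtain ⟨h, l, c, i, j⟩ := x
  obtain ⟨h', l', c', i', j'⟩ := x'
  simp only [Prod.mk.injEq] at h1
  obtain ⟨e1, e2, e3⟩ := h1
  have hh : h = h' ∧ l = l' := by
    cases h <;> cases h' <;> simp [sg] at e3 ⊢ <;> omega
  obtain ⟨rfl, rfl⟩ := hh
  have hc : c = c' := by
    fin_cases c <;> fin_cases c' <;> simp [E1, E2] at e1 e2 ⊢ <;> omega
  subst hc
  have hi : i = i' := by omega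
  have hj : j = j' := by omega
  subst hi hj
  rfl

lemma card_tetIdx (K : ℕ) (d : Bool → ℕ) :
    (tetIdx K d).card = ∑ h : Bool, ∑ l ∈ range (d h), ∑ c : Fin 2,
      (K - (l + 1) - E1 c) * (K - (l + 1) - E2 c) := by
  unfold tetIdx
  simp only [Finset.card_sigma, Finset.card_product, Finset.card_range]

lemma tet_card_le (K : ℕ) (d : Bool → ℕ) :
    (tetIdx K d).card ≤ (touchingSets 4 ((oct K d).map ⟨emb, emb_injective⟩)).ncard := by
  refine le_trans ?_ (cl_le 4 _)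
  apply Finset.card_le_card_of_injOn _ _ (tet_inj K d)
  intro x hx
  exact tet_mem hx

/-! ### Closed forms -/

lemma sum_sq_form (k : ℕ) : ∀ b : ℕ, b ≤ k →
    (6 : ℤ) * ((∑ l ∈ range b, (k - l) ^ 2 : ℕ) : ℤ) =
      k * (k + 1) * (2 * k + 1) - (k - b) * (k - b + 1) * (2 * (k - b) + 1) := by
  intro b
  induction b with
  | zero => intro _; simp
  | succ b ih =>
    intro hb
    rw [Finset.sum_range_succ]
    push_cast [Nat.cast_sub (show b ≤ k by omega)]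
    have := ih (by omega)
    push_cast at this
    linear_combination this

lemma tri_inner (k l : ℕ) (hl : l < k) :
    ((∑ c : Fin 8, (k + 1 - (l + 1) - D1 c) * (k + 1 - (l + 1) - D2 c) : ℕ) : ℤ) =
      8 * ((k : ℤ) - l) ^ 2 - 4 * ((k : ℤ) - l) := by
  obtain ⟨m, rfl⟩ : ∃ m, k = l + 1 + m := ⟨k - (l + 1), by omega⟩
  have h0 : l + 1 + m + 1 - (l + 1) = m + 1 := by omega
  rw [h0]
  simp [Fin.sum_univ_eight, D1, D2]
  ring

lemma tet_inner (k l : ℕ) (hl : l < k) :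
    ((∑ c : Fin 2, (k + 1 - (l + 1) - E1 c) * (k + 1 - (l + 1) - E2 c) : ℕ) : ℤ) =
      2 * ((k : ℤ) - l) ^ 2 - 2 * ((k : ℤ) - l) := by
  obtain ⟨m, rfl⟩ : ∃ m, k = l + 1 + m := ⟨k - (l + 1), by omega⟩
  have h0 : l + 1 + m + 1 - (l + 1) = m + 1 := by omega
  rw [h0]
  simp [Fin.sum_univ_two, E1, E2]
  ring

lemma tri_form (k : ℕ) : ∀ b : ℕ, b ≤ k →
    (3 : ℤ) * ((∑ l ∈ range b, ∑ c : Fin 8,
      (k + 1 - (l + 1) - D1 c) * (k + 1 - (l + 1) - D2 c) : ℕ) : ℤ) =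
      2 * k * (k + 1) * (4 * k - 1) - 2 * (k - b) * (k - b + 1) * (4 * (k - b) - 1) := by
  intro b
  induction b with
  | zero => intro _; simp
  | succ b ih =>
    intro hb
    rw [Finset.sum_range_succ, Nat.cast_add, tri_inner k b (by omega), mul_add, ih (by omega)]
    push_cast
    ring

lemma tet_form (k : ℕ) : ∀ b : ℕ, b ≤ k →
    (3 : ℤ) * ((∑ l ∈ range b, ∑ c : Fin 2,
      (k + 1 - (l + 1) - E1 c) * (k + 1 - (l + 1) - E2 c) : ℕ) : ℤ) =
      2 * (k - 1) * k * (k + 1) - 2 * (k - b - 1) * (k - b) * (k - b + 1) := by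
  intro b
  induction b with
  | zero => intro _; simp
  | succ b ih =>
    intro hb
    rw [Finset.sum_range_succ, Nat.cast_add, tet_inner k b (by omega), mul_add, ih (by omega)]
    push_cast
    ring

lemma card_oct_form (k c₁ c₂ : ℕ) (h1 : c₁ ≤ k) (h2 : c₂ ≤ k) :
    (6 : ℤ) * ((oct (k + 1) (fun h => if h then k - c₁ else k - c₂)).card : ℤ) =
      6 * (k + 1) ^ 2 + 2 * k * (k + 1) * (2 * k + 1)
        - c₁ * (c₁ + 1) * (2 * c₁ + 1) - c₂ * (c₂ + 1) * (2 * c₂ + 1) := by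
  rw [card_oct]
  simp only [if_true, Bool.false_eq_true, if_false]
  rw [Finset.sum_range_succ' (fun l => (k + 1 - l) ^ 2), Finset.sum_Ico_eq_sum_range]
  have e1 : ∀ b, ∑ l ∈ range b, (k + 1 - (l + 1)) ^ 2 = ∑ l ∈ range b, (k - l) ^ 2 := by
    intro b
    apply Finset.sum_congr rfl
    intro l _
    congr 1
    omega
  have e2 : ∑ l ∈ range (k - c₂ + 1 - 1), (k + 1 - (1 + l)) ^ 2 =
      ∑ l ∈ range (k - c₂), (k - l) ^ 2 := by
    rw [Nat.add_sub_cancel]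
    apply Finset.sum_congr rfl
    intro l _
    congr 1
    omega
  rw [e1, e2]
  have f1 := sum_sq_form k (k - c₁) (by omega)
  have f2 := sum_sq_form k (k - c₂) (by omega)
  rw [Nat.cast_sub h1] at f1
  rw [Nat.cast_sub h2] at f2
  simp only [Nat.sub_zero]
  push_cast at f1 f2 ⊢
  linear_combination f1 + f2

lemma triplets_form (k c₁ c₂ : ℕ) (h1 : c₁ ≤ k) (h2 : c₂ ≤ k) :
    4 * (k : ℤ) * (k + 1) * (4 * k - 1)
        - 2 * c₁ * (c₁ + 1) * (4 * c₁ - 1) - 2 * c₂ * (c₂ + 1) * (4 * c₂ - 1) ≤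
      3 * ((touchingSets 3 ((oct (k + 1) (fun h => if h then k - c₁ else k - c₂)).map
        ⟨emb, emb_injective⟩)).ncard : ℤ) := by
  have h := tri_card_le (k + 1) (fun h => if h then k - c₁ else k - c₂)
  rw [card_triIdx, Fintype.sum_bool] at h
  simp only [if_true, Bool.false_eq_true, if_false] at h
  have f1 := tri_form k (k - c₁) (by omega)
  have f2 := tri_form k (k - c₂) (by omega)
  rw [Nat.cast_sub h1] at f1
  rw [Nat.cast_sub h2] at f2
  have h' : ((_ : ℕ) : ℤ) ≤ ((_ : ℕ) : ℤ) := Int.ofNat_le.mpr h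
  rw [Nat.cast_add] at h'
  have h3 := mul_le_mul_of_nonneg_left h' (show (0 : ℤ) ≤ 3 by norm_num)
  rw [mul_add, f1, f2] at h3
  refine le_trans (le_of_eq ?_) h3
  ring

lemma quadruples_form (k c₁ c₂ : ℕ) (h1 : c₁ ≤ k) (h2 : c₂ ≤ k) :
    4 * ((k : ℤ) - 1) * k * (k + 1)
        - 2 * (c₁ - 1) * c₁ * (c₁ + 1) - 2 * (c₂ - 1) * c₂ * (c₂ + 1) ≤
      3 * ((touchingSets 4 ((oct (k + 1) (fun h => if h then k - c₁ else k - c₂)).map
        ⟨emb, emb_injective⟩)).ncard : ℤ) := by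
  have h := tet_card_le (k + 1) (fun h => if h then k - c₁ else k - c₂)
  rw [card_tetIdx, Fintype.sum_bool] at h
  simp only [if_true, Bool.false_eq_true, if_false] at h
  have f1 := tet_form k (k - c₁) (by omega)
  have f2 := tet_form k (k - c₂) (by omega)
  rw [Nat.cast_sub h1] at f1
  rw [Nat.cast_sub h2] at f2
  have h' : ((_ : ℕ) : ℤ) ≤ ((_ : ℕ) : ℤ) := Int.ofNat_le.mpr h
  rw [Nat.cast_add] at h'
  have h3 := mul_le_mul_of_nonneg_left h' (show (0 : ℤ) ≤ 3 by norm_num)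
  rw [mul_add, f1, f2] at h3
  refine le_trans (le_of_eq ?_) h3
  ring

lemma numA (k x : ℕ) (hk : 1000 ≤ k) (hx : 6 * k ^ 2 < x ^ 3) : 25 * k ≤ x ^ 2 := by
  by_contra hcon
  push Not at hcon
  have a1 : (x ^ 2) ^ 3 ≤ (25 * k) ^ 3 := Nat.pow_le_pow_left hcon.le 3
  have a2 : (6 * k ^ 2) ^ 2 ≤ (x ^ 3) ^ 2 := Nat.pow_le_pow_left hx.le 2
  have a3 : (x ^ 3) ^ 2 = (x ^ 2) ^ 3 := by ring
  have e1 : (6 * k ^ 2) ^ 2 = 36 * (k * k ^ 3) := by ring
  have e2 : (25 * k) ^ 3 = 15625 * k ^ 3 := by ring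
  rw [e1, a3] at a2
  rw [e2] at a1
  have a4 : 36 * (k * k ^ 3) ≤ 15625 * k ^ 3 := a2.trans a1
  have a5 : 1000 * k ^ 3 ≤ k * k ^ 3 := Nat.mul_le_mul_right _ hk
  have a6 : 0 < k ^ 3 := by positivity
  omega

lemma numB (c d : ℕ) (hc : 150 ≤ c) (h : d ^ 3 < 3 * (c + 1) ^ 2) : 12 * (d + 1) ^ 2 ≤ c ^ 2 := by
  by_contra hcon
  push Not at hcon
  have h1 : 40 ≤ d := by
    by_contra h40
    push Not at h40
    have : (d + 1) ^ 2 ≤ 40 ^ 2 := Nat.pow_le_pow_left (by omega) 2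
    have h2 : 150 ^ 2 ≤ c ^ 2 := Nat.pow_le_pow_left hc 2
    omega
  have e1 : (c + 1) ^ 2 = c ^ 2 + 2 * c + 1 := by ring
  have e2 : (d + 1) ^ 2 = d ^ 2 + 2 * d + 1 := by ring
  have e3 : d ^ 3 = d * d ^ 2 := by ring
  have h3 : 150 * c ≤ c ^ 2 := by rw [sq]; exact Nat.mul_le_mul_right _ hc
  have h4 : 40 * d ≤ d ^ 2 := by rw [sq]; exact Nat.mul_le_mul_right _ h1
  have h5 : 40 * d ^ 2 ≤ d * d ^ 2 := Nat.mul_le_mul_right _ h1
  rw [e1, e3] at h
  rw [e2] at hcon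
  omega

/-- The choice of the cut corners. -/
lemma exists_cuts (k : ℕ) (hk : 1000 ≤ k) : ∃ c₁ c₂ g : ℕ, c₁ ≤ k ∧ c₂ ≤ k ∧
    c₁ * (c₁ + 1) * (2 * c₁ + 1) + c₂ * (c₂ + 1) * (2 * c₂ + 1) = 12 * k ^ 2 + 12 * k + 6 + g ∧
    36 * k + 12 + 2 * g < 3 * (c₁ * (c₁ + 1)) + 3 * (c₂ * (c₂ + 1)) := by
  obtain ⟨F, hF⟩ : ∃ F : ℕ → ℕ, F = fun c => c * (c + 1) * (2 * c + 1) := ⟨_, rfl⟩
  have hFv : ∀ c, F c = 2 * c ^ 3 + 3 * c ^ 2 + c := by
    intro c; rw [hF]; ring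
  have hFs : ∀ c, F (c + 1) = F c + 6 * (c + 1) ^ 2 := by
    intro c; rw [hF]; ring
  obtain ⟨M, hM⟩ : ∃ M, M = 12 * k ^ 2 + 12 * k + 6 := ⟨_, rfl⟩
  have hk2 : 1000 * k ≤ k ^ 2 := by rw [sq]; exact Nat.mul_le_mul_right _ hk
  have hk3 : 1000 * k ^ 2 ≤ k ^ 3 := by
    have : k ^ 3 = k * k ^ 2 := by ring
    rw [this]; exact Nat.mul_le_mul_right _ hk
  have hex1 : ∃ c, M < F (c + 1) := by
    refine ⟨k, ?_⟩
    have := hFs k
    have := hFv k
    omega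
  classical
  obtain ⟨c₁, h1, h2, h1k⟩ : ∃ c₁, M < F (c₁ + 1) ∧ F c₁ ≤ M ∧ c₁ ≤ k := by
    refine ⟨Nat.find hex1, Nat.find_spec hex1, ?_, ?_⟩
    · rcases Nat.eq_zero_or_pos (Nat.find hex1) with h0 | h0
      · rw [h0, hFv]; omega
      · obtain ⟨c', hc'⟩ : ∃ c', Nat.find hex1 = c' + 1 := ⟨Nat.find hex1 - 1, by omega⟩
        have := Nat.find_min hex1 (m := c') (by omega)
        rw [hc']
        omega
    · apply Nat.find_min'
      have := hFs k
      have := hFv k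
      omega
  obtain ⟨R, hR⟩ : ∃ R, M = F c₁ + R := ⟨_, (Nat.add_sub_cancel' h2).symm⟩
  have hRlt : R < 6 * (c₁ + 1) ^ 2 := by
    have := hFs c₁
    omega
  have hex2 : ∃ c, R ≤ F c := by
    refine ⟨R, ?_⟩
    rw [hFv]
    omega
  obtain ⟨c₂, h3, hg3⟩ : ∃ c₂, R ≤ F c₂ ∧
      ((c₂ = 0 ∧ R = 0) ∨ ∃ c', c₂ = c' + 1 ∧ F c' < R) := by
    refine ⟨Nat.find hex2, Nat.find_spec hex2, ?_⟩
    rcases Nat.eq_zero_or_pos (Nat.find hex2) with h0 | h0
    · left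
      have := Nat.find_spec hex2
      rw [h0, hFv] at this
      exact ⟨h0, by simpa using this⟩
    · right
      obtain ⟨c', hc'⟩ : ∃ c', Nat.find hex2 = c' + 1 := ⟨Nat.find hex2 - 1, by omega⟩
      have := Nat.find_min hex2 (m := c') (by omega)
      exact ⟨c', hc', by omega⟩
  -- bounds on `c₁`
  have hx3 : 6 * k ^ 2 < (c₁ + 2) ^ 3 := by
    have e : F (c₁ + 1) ≤ 2 * (c₁ + 2) ^ 3 := by
      rw [hF]
      ring_nf
      omega
    omega
  have hx2 : 25 * k ≤ (c₁ + 2) ^ 2 := numA k _ hk hx3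
  have hc1big : 150 ≤ c₁ := by
    by_contra hcon
    push Not at hcon
    have : (c₁ + 2) ^ 2 ≤ 151 ^ 2 := Nat.pow_le_pow_left (by omega) 2
    omega
  -- `c₂` is much smaller than `c₁`
  have hsmall : 12 * c₂ ^ 2 ≤ c₁ ^ 2 := by
    rcases hg3 with ⟨h0, -⟩ | ⟨c', hc', hlt⟩
    · rw [h0]; simp
    · rw [hc']
      apply numB _ _ hc1big
      rw [hFv] at hlt
      omega
  have hc21 : c₂ ≤ c₁ := by
    by_contra hcon
    push Not at hcon
    have : (c₁ + 1) ^ 2 ≤ c₂ ^ 2 := Nat.pow_le_pow_left (by omega) 2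
    have e1 : (c₁ + 1) ^ 2 = c₁ ^ 2 + 2 * c₁ + 1 := by ring
    omega
  have hg : ∃ g, F c₂ = R + g ∧ g ≤ 6 * c₂ ^ 2 := by
    refine ⟨F c₂ - R, by omega, ?_⟩
    rcases hg3 with ⟨h0, hR0⟩ | ⟨c', hc', hlt⟩
    · rw [h0, hR0, hFv]; simp
    · have := hFs c'
      rw [hc']
      omega
  obtain ⟨g, hg1, hg2⟩ := hg
  refine ⟨c₁, c₂, g, h1k, by omega, ?_, ?_⟩
  · have e1 : c₁ * (c₁ + 1) * (2 * c₁ + 1) = F c₁ := by rw [hF]
    have e2 : c₂ * (c₂ + 1) * (2 * c₂ + 1) = F c₂ := by rw [hF]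
    rw [e1, e2, ← hM]
    omega
  · have e1 : c₁ * (c₁ + 1) = c₁ ^ 2 + c₁ := by ring
    have e3 : (c₁ + 2) ^ 2 = c₁ ^ 2 + 4 * c₁ + 4 := by ring
    have h5 : 150 * c₁ ≤ c₁ ^ 2 := by rw [sq]; exact Nat.mul_le_mul_right _ hc1big
    rw [e1]
    omega

/-- For every `k ≥ 1000` there is a packing of `(2k³+k)/3` unit balls with more touching triplets
and more touching quadruples than the face-centred cubic octahedron with `k` balls per edge. -/
theorem main (k : ℕ) (hk : 1000 ≤ k) : ∃ P : Finset E3, IsUnitBallPacking P ∧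
    3 * (P.card : ℤ) = 2 * (k : ℤ) ^ 3 + k ∧
    4 * ((k : ℤ) - 1) * k * (4 * k - 5) < 3 * ((touchingSets 3 P).ncard : ℤ) ∧
    4 * ((k : ℤ) - 2) * (k - 1) * k < 3 * ((touchingSets 4 P).ncard : ℤ) := by
  obtain ⟨c₁, c₂, g, h1, h2, h3, h4⟩ := exists_cuts k hk
  have hcard := card_oct_form k c₁ c₂ h1 h2
  have htri := triplets_form k c₁ c₂ h1 h2
  have hquad := quadruples_form k c₁ c₂ h1 h2
  have hpack := packing_oct (k + 1) (fun h => if h then k - c₁ else k - c₂)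
  have hcm : ((oct (k + 1) (fun h => if h then k - c₁ else k - c₂)).map
      ⟨emb, emb_injective⟩).card = (oct (k + 1) (fun h => if h then k - c₁ else k - c₂)).card :=
    Finset.card_map _
  obtain ⟨P₀, hP₀⟩ : ∃ P₀, P₀ = (oct (k + 1) (fun h => if h then k - c₁ else k - c₂)).map
      ⟨emb, emb_injective⟩ := ⟨_, rfl⟩
  rw [← hcm, ← hP₀] at hcard
  rw [← hP₀] at htri hquad hpack
  have h3' : (c₁ : ℤ) * (c₁ + 1) * (2 * c₁ + 1) + c₂ * (c₂ + 1) * (2 * c₂ + 1) =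
    12 * k ^ 2 + 12 * k + 6 + g := by exact_mod_cast h3
  have h4' : 36 * (k : ℤ) + 12 + 2 * g < 3 * (c₁ * (c₁ + 1)) + 3 * (c₂ * (c₂ + 1)) := by
    exact_mod_cast h4
  -- the number of balls to add
  have hn : 6 * (P₀.card : ℤ) + g = 2 * (2 * (k : ℤ) ^ 3 + k) := by
    linear_combination hcard - h3'
  obtain ⟨R, hR⟩ : ∃ R : ℕ, g = 6 * R := by
    have hdvd : (6 : ℤ) ∣ g := by
      have e : (g : ℤ) = 2 * (2 * (k : ℤ) ^ 3 + k) - 6 * (P₀.card : ℤ) := by linear_combination hn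
      have hd3 : (3 : ℤ) ∣ 2 * (k : ℤ) ^ 3 + k := by
        have h0 : (k : ℤ) % 3 = 0 ∨ (k : ℤ) % 3 = 1 ∨ (k : ℤ) % 3 = 2 := by omega
        rcases h0 with h0 | h0 | h0
        · obtain ⟨m, hm⟩ : ∃ m : ℤ, (k : ℤ) = 3 * m := ⟨(k : ℤ) / 3, by omega⟩
          rw [hm]; exact ⟨18 * m ^ 3 + m, by ring⟩
        · obtain ⟨m, hm⟩ : ∃ m : ℤ, (k : ℤ) = 3 * m + 1 := ⟨(k : ℤ) / 3, by omega⟩
          rw [hm]; exact ⟨18 * m ^ 3 + 18 * m ^ 2 + 7 * m + 1, by ring⟩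
        · obtain ⟨m, hm⟩ : ∃ m : ℤ, (k : ℤ) = 3 * m + 2 := ⟨(k : ℤ) / 3, by omega⟩
          rw [hm]; exact ⟨18 * m ^ 3 + 36 * m ^ 2 + 25 * m + 6, by ring⟩
      obtain ⟨m, hm⟩ := hd3
      exact ⟨m - P₀.card, by rw [e, hm]; ring⟩
    have hdvd' : 6 ∣ g := by exact_mod_cast hdvd
    exact hdvd'
  obtain ⟨P, hsub, hPc, hPp⟩ := exists_extend P₀ hpack R
  have hR' : (g : ℤ) = 6 * R := by exact_mod_cast hR
  have hPc' : (P.card : ℤ) = P₀.card + R := by exact_mod_cast hPc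
  have hm3 : ((touchingSets 3 P₀).ncard : ℤ) ≤ (touchingSets 3 P).ncard := by
    exact_mod_cast touchingSets_mono 3 hsub
  have hm4 : ((touchingSets 4 P₀).ncard : ℤ) ≤ (touchingSets 4 P).ncard := by
    exact_mod_cast touchingSets_mono 4 hsub
  refine ⟨P, hPp, ?_, ?_, ?_⟩
  · rw [hPc']
    linarith
  · have h5 : 4 * ((k : ℤ) - 1) * k * (4 * k - 5) <
        4 * (k : ℤ) * (k + 1) * (4 * k - 1)
        - 2 * c₁ * (c₁ + 1) * (4 * c₁ - 1) - 2 * c₂ * (c₂ + 1) * (4 * c₂ - 1) := by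
      have e1 : 4 * (k : ℤ) * (k + 1) * (4 * k - 1)
        - 2 * c₁ * (c₁ + 1) * (4 * c₁ - 1) - 2 * c₂ * (c₂ + 1) * (4 * c₂ - 1) -
          4 * ((k : ℤ) - 1) * k * (4 * k - 5) =
          2 * (3 * ((c₁ : ℤ) * (c₁ + 1)) + 3 * (c₂ * (c₂ + 1)) - (36 * (k : ℤ) + 12 + 2 * g)) := by
        linear_combination (-4) * h3'
      linarith
    linarith
  · have h5 : 4 * ((k : ℤ) - 2) * (k - 1) * k <
        4 * ((k : ℤ) - 1) * k * (k + 1)
        - 2 * (c₁ - 1) * c₁ * (c₁ + 1) - 2 * (c₂ - 1) * c₂ * (c₂ + 1) := by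
      have e1 : 4 * ((k : ℤ) - 1) * k * (k + 1)
        - 2 * (c₁ - 1) * c₁ * (c₁ + 1) - 2 * (c₂ - 1) * c₂ * (c₂ + 1) -
          4 * ((k : ℤ) - 2) * (k - 1) * k =
          3 * ((c₁ : ℤ) * (c₁ + 1)) + 3 * (c₂ * (c₂ + 1)) - 24 * (k : ℤ) - 6 - g := by
        linear_combination (-1) * h3'
      have hk0 : (0 : ℤ) ≤ k := by positivity
      have hg0 : (0 : ℤ) ≤ g := by positivity
      linarith
    linarith

end Pool.Agent.H38.Ball
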