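import Mathlib

/-!
Cyclic arrangements without adjacent conflicting elements (a form of Dirac's theorem).
-/

open Finset

namespace Pool.Agent.H38.Cyc

variable {X : Type*}

open Classical in
/-- indicator of a relation -/
noncomputable def ind (R : X → X → Prop) (x y : X) : ℕ := if R x y then 1 else 0

lemma ind_pos {R : X → X → Prop} {x y : X} (h : R x y) : ind R x y = 1 := by simp [ind, h]

lemma ind_neg {R : X → X → Prop} {x y : X} (h : ¬ R x y) : ind R x y = 0 := by simp [ind, h]

/-- number of consecutive pairs of the list in relation `R` -/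
noncomputable def lin (R : X → X → Prop) : List X → ℕ
  | [] => 0
  | [_] => 0
  | x :: y :: l => ind R x y + lin R (y :: l)

open Classical in
/-- number of cyclically consecutive pairs of the list in relation `R` -/
noncomputable def cyc (R : X → X → Prop) (l : List X) : ℕ :=
  if h : l ≠ [] then lin R l + ind R (l.getLast h) (l.head h) else 0

lemma cyc_of_ne (R : X → X → Prop) (l : List X) (h : l ≠ []) :
    cyc R l = lin R l + ind R (l.getLast h) (l.head h) := by
  unfold cyc
  rw [dif_pos h]

variable (R : X → X → Prop)

lemma lin_append (A B : List X) (hA : A ≠ []) (hB : B ≠ []) :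
    lin R (A ++ B) = lin R A + ind R (A.getLast hA) (B.head hB) + lin R B := by
  induction A with
  | nil => exact absurd rfl hA
  | cons a A ih =>
    cases A with
    | nil =>
      obtain ⟨b, B', rfl⟩ := List.exists_cons_of_ne_nil hB
      simp [lin]
    | cons a' A' =>
      have := ih (by simp)
      simp only [List.cons_append, lin] at this ⊢
      rw [this]
      simp only [List.getLast_cons_cons]
      ring

lemma ind_symm (hs : Std.Symm R) (a b : X) : ind R a b = ind R b a := by
  by_cases h : R a b
  · rw [ind_pos h, ind_pos (hs.symm _ _ h)]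
  · rw [ind_neg h, ind_neg (fun h' => h (hs.symm _ _ h'))]

lemma lin_reverse (hs : Std.Symm R) (A : List X) : lin R A.reverse = lin R A := by
  induction A with
  | nil => simp
  | cons a A ih =>
    cases A with
    | nil => simp
    | cons a' A' =>
      rw [List.reverse_cons, lin_append R _ _ (by simp) (by simp), ih]
      simp only [List.getLast_reverse, List.head_cons, lin]
      rw [ind_symm R hs]
      ring

lemma cyc_append (A B : List X) (hA : A ≠ []) (hB : B ≠ []) :
    cyc R (A ++ B) = lin R A + ind R (A.getLast hA) (B.head hB) + lin R B +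
      ind R (B.getLast hB) (A.head hA) := by
  have hne : A ++ B ≠ [] := by simp [hA]
  rw [cyc_of_ne R _ hne, lin_append R A B hA hB, List.getLast_append_of_ne_nil _ hB,
    List.head_append_of_ne_nil hA]

lemma cyc_rotate (A B : List X) : cyc R (A ++ B) = cyc R (B ++ A) := by
  by_cases hA : A = []
  · simp [hA]
  by_cases hB : B = []
  · simp [hB]
  rw [cyc_append R A B hA hB, cyc_append R B A hB hA]
  ring

lemma cyc_reverse_append (hs : Std.Symm R) (A B : List X) (hA : A ≠ []) (hB : B ≠ []) :
    cyc R (A.reverse ++ B) = lin R A + ind R (A.head hA) (B.head hB) + lin R B +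
      ind R (B.getLast hB) (A.getLast hA) := by
  rw [cyc_append R _ B (by simpa using hA) hB, lin_reverse R hs]
  simp only [List.getLast_reverse, List.head_reverse]

lemma exists_split_of_lin_pos (l : List X) (h : 0 < lin R l) :
    ∃ A B : List X, ∃ (hA : A ≠ []) (hB : B ≠ []), l = A ++ B ∧ R (A.getLast hA) (B.head hB) := by
  induction l with
  | nil => simp [lin] at h
  | cons a l ih =>
    cases l with
    | nil => simp [lin] at h
    | cons b l =>
      by_cases hab : R a b
      · exact ⟨[a], b :: l, by simp, by simp, by simp, by simpa using hab⟩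
      · simp only [lin, ind_neg hab, zero_add] at h
        obtain ⟨A, B, hA, hB, hl, hR⟩ := ih h
        refine ⟨a :: A, B, by simp, hB, by rw [hl]; simp, ?_⟩
        rwa [List.getLast_cons hA]

/-- rotate so that a bad pair becomes the closing pair -/
lemma exists_rotate (l : List X) (h : 0 < cyc R l) :
    ∃ l₁ : List X, l₁.Perm l ∧
      (∀ S : X → X → Prop, cyc S l₁ = cyc S l) ∧
      ∃ h1 : l₁ ≠ [], R (l₁.getLast h1) (l₁.head h1) := by
  have hne : l ≠ [] := by
    rintro rfl
    simp [cyc] at h
  by_cases hc : R (l.getLast hne) (l.head hne)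
  · exact ⟨l, List.Perm.refl _, fun S => rfl, hne, hc⟩
  · rw [cyc_of_ne R l hne, ind_neg hc, add_zero] at h
    obtain ⟨A, B, hA, hB, hl, hR⟩ := exists_split_of_lin_pos R l h
    refine ⟨B ++ A, ?_, ?_, by simp [hA], ?_⟩
    · rw [hl]; exact List.perm_append_comm
    · intro S
      rw [hl, cyc_rotate]
    · rw [List.getLast_append_of_ne_nil _ hA, List.head_append_of_ne_nil hB]
      exact hR

open Classical in
/-- the number of elements in conflict with `x` -/
noncomputable def deg [Fintype X] (x : X) : ℕ := (univ.filter (fun y => R x y)).card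

/-- the counting step -/
lemma exists_cut [Fintype X] (l : List X) (hl : l.Nodup) (hne : l ≠ [])
    (hc : deg R (l.head hne) + deg R (l.getLast hne) + 1 < l.length) :
    ∃ A B : List X, ∃ (hA : A ≠ []) (hB : B ≠ []), l = A ++ B ∧
      ¬ R (A.head hA) (B.head hB) ∧ ¬ R (B.getLast hB) (A.getLast hA) := by
  classical
  obtain ⟨m, hm⟩ : ∃ m, l.length = m + 1 := ⟨l.length - 1, by omega⟩
  have hget : Function.Injective l.get := List.nodup_iff_injective_get.mp hl
  set p1 : Fin m → X := fun j => l.get ⟨j + 1, by omega⟩ with hp1
  set p2 : Fin m → X := fun j => l.get ⟨j, by omega⟩ with hp2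
  have i1 : Function.Injective p1 := by
    intro j j' h
    have := hget h
    simp only [Fin.mk.injEq] at this
    exact Fin.ext (by omega)
  have i2 : Function.Injective p2 := by
    intro j j' h
    have := hget h
    simp only [Fin.mk.injEq] at this
    exact Fin.ext (by omega)
  set J1 : Finset (Fin m) := univ.filter (fun j => R (l.head hne) (p1 j)) with hJ1
  set J2 : Finset (Fin m) := univ.filter (fun j => R (l.getLast hne) (p2 j)) with hJ2
  have h1 : J1.card ≤ deg R (l.head hne) := by
    unfold deg
    apply Finset.card_le_card_of_injOn p1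
    · intro j hj
      simp only [hJ1, Finset.coe_filter, Finset.mem_univ, true_and, Set.mem_ofPred_eq] at hj ⊢
      exact hj
    · exact i1.injOn
  have h2 : J2.card ≤ deg R (l.getLast hne) := by
    unfold deg
    apply Finset.card_le_card_of_injOn p2
    · intro j hj
      simp only [hJ2, Finset.coe_filter, Finset.mem_univ, true_and, Set.mem_ofPred_eq] at hj ⊢
      exact hj
    · exact i2.injOn
  have h3 : (J1 ∪ J2).card < (univ : Finset (Fin m)).card := by
    have := Finset.card_union_le J1 J2
    rw [Finset.card_univ, Fintype.card_fin]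
    omega
  obtain ⟨j, -, hj⟩ := Finset.exists_mem_notMem_of_card_lt_card h3
  simp only [Finset.mem_union, not_or, hJ1, hJ2, Finset.mem_filter, Finset.mem_univ,
    true_and] at hj
  have hA : l.take (j + 1) ≠ [] := by
    simp [hne]
  have hB : l.drop (j + 1) ≠ [] := by
    intro h
    have := congrArg List.length h
    simp only [List.length_drop, List.length_nil] at this
    omega
  refine ⟨l.take (j + 1), l.drop (j + 1), hA, hB, (List.take_append_drop _ _).symm, ?_, ?_⟩
  · have e1 : (l.take (j + 1)).head hA = l.head hne := by
      rw [List.head_take]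
    have e2 : (l.drop (j + 1)).head hB = p1 j := by
      rw [List.head_drop]
      rfl
    rw [e1, e2]
    exact hj.1
  · have e1 : (l.drop (j + 1)).getLast hB = l.getLast hne := by
      rw [List.getLast_drop]
    have e2 : (l.take (j + 1)).getLast hA = p2 j := by
      rw [List.getLast_eq_getElem]
      simp only [hp2, List.length_take, List.getElem_take, List.get_eq_getElem]
      congr 1
      omega
    rw [e1, e2]
    exact hj.2

theorem exists_cyc [Fintype X] (hs : Std.Symm R) (c : X → ℕ)
    (hc : ∀ x, deg R x ≤ c x) (l : List X) (hl : l.Nodup)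
    (hv : cyc (fun a b => R a b ∧ l.length ≤ c a + c b + 1) l = 0) :
    ∃ l' : List X, l'.Perm l ∧ cyc R l' = 0 := by
  induction hk : cyc R l using Nat.strong_induction_on generalizing l with
  | _ k ih =>
    rcases Nat.eq_zero_or_pos k with hk0 | hk0
    · exact ⟨l, List.Perm.refl _, by rw [hk, hk0]⟩
    · obtain ⟨l₁, hp, hcyc, hne, hbad⟩ := exists_rotate R l (by omega)
      have hlen : l₁.length = l.length := hp.length_eq
      have hnd : l₁.Nodup := hp.nodup_iff.mpr hl
      obtain ⟨S, hS⟩ : ∃ S : X → X → Prop, S = (fun a b => R a b ∧ l.length ≤ c a + c b + 1) :=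
        ⟨_, rfl⟩
      rw [← hS] at hv
      have hv1 : cyc S l₁ = 0 := by
        rw [hcyc]; exact hv
      have hsum : c (l₁.getLast hne) + c (l₁.head hne) + 1 < l.length := by
        by_contra hcon
        push Not at hcon
        rw [cyc_of_ne S l₁ hne] at hv1
        have : S (l₁.getLast hne) (l₁.head hne) := by
          rw [hS]; exact ⟨hbad, hcon⟩
        rw [ind_pos this] at hv1
        omega
      obtain ⟨A, B, hA, hB, hAB, hn1, hn2⟩ := exists_cut R l₁ hnd hne (by
        have h1 := hc (l₁.getLast hne)
        have h2 := hc (l₁.head hne)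
        omega)
      have hR1 : cyc R l₁ = lin R A + ind R (A.getLast hA) (B.head hB) + lin R B + 1 := by
        have e1 : l₁.getLast hne = B.getLast hB := by
          simp only [hAB]
          rw [List.getLast_append_of_ne_nil _ hB]
        have e2 : l₁.head hne = A.head hA := by
          simp only [hAB]
          rw [List.head_append_of_ne_nil hA]
        rw [e1, e2] at hbad
        rw [hAB, cyc_append R A B hA hB, ind_pos hbad]
      have hR2 : cyc R (A.reverse ++ B) = lin R A + lin R B := by
        rw [cyc_reverse_append R hs A B hA hB, ind_neg hn1, ind_neg hn2]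
        ring
      have hsym' : Std.Symm S := by
        refine ⟨?_⟩
        rw [hS]
        rintro a b ⟨h1, h2⟩
        exact ⟨hs.symm _ _ h1, by omega⟩
      have hv2 : cyc S (A.reverse ++ B) = 0 := by
        rw [hAB, cyc_append _ A B hA hB] at hv1
        rw [cyc_reverse_append _ hsym' A B hA hB, ind_neg (R := S) (fun h => hn1 (by
          rw [hS] at h; exact h.1)), ind_neg (R := S) (fun h => hn2 (by rw [hS] at h; exact h.1))]
        omega
      have hperm : (A.reverse ++ B).Perm l := by
        refine List.Perm.trans ?_ hp
        rw [hAB]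
        exact List.Perm.append_right _ (List.reverse_perm A)
      have hlen2 : (A.reverse ++ B).length = l.length := hperm.length_eq
      obtain ⟨l', h1, h2⟩ := ih (cyc R (A.reverse ++ B)) (by
        rw [hR2, ← hk, ← hcyc R, hR1]
        omega) (A.reverse ++ B) (hperm.nodup_iff.mpr hl) (by rw [hlen2, ← hS]; exact hv2) rfl
      exact ⟨l', h1.trans hperm, h2⟩

lemma lin_zero_getElem (l : List X) (h : lin R l = 0) (i : ℕ) (hi : i + 1 < l.length) :
    ¬ R (l[i]'(by omega)) (l[i + 1]) := by
  induction l generalizing i with
  | nil => simp at hi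
  | cons a l ih =>
    cases l with
    | nil => simp at hi
    | cons b l =>
      simp only [lin, Nat.add_eq_zero_iff] at h
      cases i with
      | zero =>
        intro hR
        simp only [List.getElem_cons_zero, List.getElem_cons_succ] at hR
        rw [ind_pos hR] at h
        omega
      | succ i =>
        have := ih h.2 i (by simpa using hi)
        simpa using this

/-- A list without cyclically consecutive conflicts, rotated to start at a prescribed element. -/
lemma exists_start (l : List X) (h : cyc R l = 0) (x : X) (hx : x ∈ l) :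
    ∃ l' : List X, (x :: l').Perm l ∧ lin R (x :: l') = 0 := by
  obtain ⟨A, B, rfl⟩ := List.append_of_mem hx
  refine ⟨B ++ A, ?_, ?_⟩
  · rw [← List.cons_append]
    exact List.perm_append_comm
  · rw [cyc_rotate, List.cons_append] at h
    rw [cyc_of_ne R _ (by simp)] at h
    omega

end Pool.Agent.H38.Cyc
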