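import Mathlib

/-!
L(2,1)-labelings, the labeling number, the Mycielski graph and its iterates.
-/

namespace Pool.Agent.H38.Myc

universe u

/-- `f` is an `L(2,1)`-labeling of `G`: labels of adjacent vertices differ by at least `2`, and
labels of vertices at distance exactly `2` differ by at least `1`. -/
def IsL21 {V : Type u} (G : SimpleGraph V) (f : V → ℕ) : Prop :=
  (∀ x y, G.Adj x y → 2 ≤ |(f x : ℤ) - f y|) ∧
  (∀ x y, G.dist x y = 2 → 1 ≤ |(f x : ℤ) - f y|)

/-- The `L(2,1)`-labeling number: the least `k` such that `G` has an `L(2,1)`-labeling with all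
labels in `{0, 1, ..., k}`. -/
noncomputable def lambda21 {V : Type u} (G : SimpleGraph V) : ℕ :=
  sInf {k : ℕ | ∃ f : V → ℕ, IsL21 G f ∧ ∀ x, f x ≤ k}

/-- The vertices of the Mycielski graph of a graph with vertex set `V`: `some (Sum.inl v)` is the
original vertex `v`, `some (Sum.inr v)` is its copy `v'`, and `none` is the extra vertex `w`. -/
abbrev MycVert (V : Type u) : Type u := Option (V ⊕ V)

/-- Adjacency in the Mycielski graph. -/
def mycAdj {V : Type u} (G : SimpleGraph V) : MycVert V → MycVert V → Prop
  | some (Sum.inl x), some (Sum.inl y) => G.Adj x y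
  | some (Sum.inl x), some (Sum.inr y) => G.Adj x y
  | some (Sum.inr x), some (Sum.inl y) => G.Adj x y
  | some (Sum.inr _), some (Sum.inr _) => False
  | some (Sum.inr _), none => True
  | none, some (Sum.inr _) => True
  | some (Sum.inl _), none => False
  | none, some (Sum.inl _) => False
  | none, none => False

/-- The Mycielski graph `M(G)`: it contains `G` on the original vertices, the copy `v'` is adjacent
to every neighbour of `v` in `G` and to `w`; there are no other edges. -/
def mycielski {V : Type u} (G : SimpleGraph V) : SimpleGraph (MycVert V) where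
  Adj := mycAdj G
  symm := by
    refine ⟨?_⟩
    rintro (_ | (x | x)) (_ | (y | y)) h <;> simp_all [mycAdj, SimpleGraph.adj_comm]
  loopless := by
    refine ⟨?_⟩
    rintro (_ | (x | x)) h <;> simp_all [mycAdj]

/-- The vertices of the `t`-th iterated Mycielski graph. -/
def IterVert (V : Type u) : ℕ → Type u
  | 0 => V
  | t + 1 => MycVert (IterVert V t)

/-- The iterated Mycielski graph `M^t(G)` (with `M^0(G) = G`). -/
def iterMyc {V : Type u} (G : SimpleGraph V) : (t : ℕ) → SimpleGraph (IterVert V t)
  | 0 => G
  | t + 1 => mycielski (iterMyc G t)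

end Pool.Agent.H38.Myc
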