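import Mathlib
import Pool.Agent.H38.MycDefs

/-!
The step from a graph to its Mycielski graph.
-/

open Finset

namespace Pool.Agent.H38.Myc

universe u

variable {V : Type u}

lemma dist_eq_two_iff (G : SimpleGraph V) (x y : V) :
    G.dist x y = 2 ↔ x ≠ y ∧ ¬ G.Adj x y ∧ ∃ z, G.Adj x z ∧ G.Adj y z := by
  have h : G.dist x y = 2 ↔ G.edist x y = 2 := by
    constructor
    · intro h
      have hr : G.Reachable x y := SimpleGraph.Reachable.of_dist_ne_zero (by omega)
      rw [← hr.coe_dist_eq_edist, h]
      rfl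
    · intro h
      have hr : G.Reachable x y := by
        rw [← SimpleGraph.edist_ne_top_iff_reachable, h]
        exact ENat.natCast_ne_top 2
      have := hr.coe_dist_eq_edist
      rw [h] at this
      exact_mod_cast this
  rw [h, SimpleGraph.edist_eq_two_iff]
  simp only [Set.Nonempty, SimpleGraph.mem_commonNeighbors]

/-- A convenient form of the labeling condition. -/
def Lab (G : SimpleGraph V) (f : V → ℕ) : Prop :=
  (∀ x y, G.Adj x y → f x + 2 ≤ f y ∨ f y + 2 ≤ f x) ∧
  (∀ x y z, x ≠ y → G.Adj x z → G.Adj y z → f x ≠ f y)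

lemma isL21_iff (G : SimpleGraph V) (f : V → ℕ) : IsL21 G f ↔ Lab G f := by
  have key : ∀ a b : ℕ, (2 ≤ |(a : ℤ) - b| ↔ (a + 2 ≤ b ∨ b + 2 ≤ a)) := by
    intro a b
    rw [le_abs]
    omega
  have key1 : ∀ a b : ℕ, (1 ≤ |(a : ℤ) - b| ↔ a ≠ b) := by
    intro a b
    rw [le_abs]
    omega
  unfold IsL21 Lab
  constructor
  · rintro ⟨h1, h2⟩
    refine ⟨fun x y h => (key _ _).mp (h1 x y h), fun x y z hne hx hy => ?_⟩
    by_cases hadj : G.Adj x y
    · have := (key _ _).mp (h1 x y hadj)
      omega
    · exact (key1 _ _).mp (h2 x y ((dist_eq_two_iff G x y).mpr ⟨hne, hadj, z, hx, hy⟩))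
  · rintro ⟨h1, h2⟩
    refine ⟨fun x y h => (key _ _).mpr (h1 x y h), fun x y h => ?_⟩
    obtain ⟨hne, -, z, hx, hy⟩ := (dist_eq_two_iff G x y).mp h
    exact (key1 _ _).mpr (h2 x y z hne hx hy)

/-- `G` has a labeling with labels at most `k`. -/
def Has (G : SimpleGraph V) (k : ℕ) : Prop := ∃ f : V → ℕ, Lab G f ∧ ∀ x, f x ≤ k

lemma lambda21_le {G : SimpleGraph V} {k : ℕ} (h : Has G k) : lambda21 G ≤ k := by
  obtain ⟨f, h1, h2⟩ := h
  exact Nat.sInf_le ⟨f, (isL21_iff G f).mpr h1, h2⟩

lemma Has.mono {G : SimpleGraph V} {k l : ℕ} (h : Has G k) (hkl : k ≤ l) : Has G l := by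
  obtain ⟨f, h1, h2⟩ := h
  exact ⟨f, h1, fun x => (h2 x).trans hkl⟩

/-- Sanity check: for a finite graph the labeling number is attained. -/
lemma lambda21_attained [Finite V] (G : SimpleGraph V) :
    ∃ f : V → ℕ, IsL21 G f ∧ ∀ x, f x ≤ lambda21 G := by
  have hne : {k : ℕ | ∃ f : V → ℕ, IsL21 G f ∧ ∀ x, f x ≤ k}.Nonempty := by
    have e := Finite.equivFin V
    refine ⟨2 * Nat.card V, fun x => 2 * (e x : ℕ), ?_, fun x => ?_⟩
    · rw [isL21_iff]
      constructor
      · intro x y hxy
        have h1 : e x ≠ e y := fun h => hxy.ne (e.injective h)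
        have h2 : (e x : ℕ) ≠ (e y : ℕ) := fun h => h1 (Fin.ext h)
        simp only
        omega
      · intro x y z hne _ _ h
        have h2 : (e x : ℕ) = (e y : ℕ) := by simpa using h
        exact hne (e.injective (Fin.ext h2))
    · have := (e x).2
      simp only
      omega
  exact Nat.sInf_mem hne

/-- How to check a labeling of a Mycielski graph with `w` labelled `0`. -/
lemma lab_mycielski (G : SimpleGraph V) (f g : V → ℕ)
    (hf0 : ∀ x, 1 ≤ f x) (hg0 : ∀ x, 2 ≤ g x)
    (hg : Function.Injective g)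
    (h1 : ∀ x y, G.Adj x y → f x + 2 ≤ f y ∨ f y + 2 ≤ f x)
    (h2 : ∀ x y z, x ≠ y → G.Adj x z → G.Adj y z → f x ≠ f y)
    (h3 : ∀ x y, G.Adj x y → f x + 2 ≤ g y ∨ g y + 2 ≤ f x)
    (h4 : ∀ x y z, G.Adj x z → G.Adj y z → f x ≠ g y) :
    Lab (mycielski G) (fun v => match v with
      | none => 0
      | some (Sum.inl x) => f x
      | some (Sum.inr x) => g x) := by
  constructor
  · rintro (_ | (x | x)) (_ | (y | y)) hxy
    · exact absurd hxy (by simp [mycielski, mycAdj])
    · exact absurd hxy (by simp [mycielski, mycAdj])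
    · left; simpa using hg0 y
    · exact absurd hxy (by simp [mycielski, mycAdj])
    · exact h1 x y hxy
    · exact h3 x y hxy
    · right; simpa using hg0 x
    · have hyx : G.Adj x y := hxy
      have := h3 y x hyx.symm
      simp only
      omega
    · exact absurd hxy (by simp [mycielski, mycAdj])
  · rintro (_ | (x | x)) (_ | (y | y)) z hne hxz hyz
    · exact absurd rfl hne
    · have := hf0 y
      simp only
      omega
    · have := hg0 y
      simp only
      omega
    · have := hf0 x
      simp only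
      omega
    · simp only
      have hne' : x ≠ y := fun h => hne (by rw [h])
      rcases z with _ | (z | z)
      · exact absurd hxz (by simp [mycielski, mycAdj])
      · exact h2 x y z hne' hxz hyz
      · exact h2 x y z hne' hxz hyz
    · simp only
      rcases z with _ | (z | z)
      · exact absurd hxz (by simp [mycielski, mycAdj])
      · exact h4 x y z hxz hyz
      · exact absurd hyz (by simp [mycielski, mycAdj])
    · have := hg0 x
      simp only
      omega
    · simp only
      rcases z with _ | (z | z)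
      · exact absurd hyz (by simp [mycielski, mycAdj])
      · exact (h4 y x z hyz hxz).symm
      · exact absurd hxz (by simp [mycielski, mycAdj])
    · simp only
      have hne' : x ≠ y := fun h => hne (by rw [h])
      exact fun h => hne' (hg h)

/-- `λ(M(H)) ≤ λ(H) + |H| + 1`. -/
lemma has_step [Finite V] [Nonempty V] {G : SimpleGraph V} {k : ℕ} (h : Has G k) :
    Has (mycielski G) (k + Nat.card V + 1) := by
  classical
  obtain ⟨f, ⟨h1, h2⟩, h3⟩ := h
  have := Fintype.ofFinite V
  obtain ⟨v₀, hv₀⟩ : ∃ v₀, ∀ x, f x ≤ f v₀ := Finite.exists_max f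
  have hpos : 0 < Nat.card V := Nat.card_pos
  obtain ⟨e, he⟩ : ∃ e : V ≃ Fin (Nat.card V), e v₀ = ⟨0, hpos⟩ := by
    have e := Finite.equivFin V
    exact ⟨e.trans (Equiv.swap (e v₀) ⟨0, hpos⟩), by simp⟩
  refine ⟨_, lab_mycielski G (fun x => f x + 1) (fun x => f v₀ + 2 + (e x : ℕ)) ?_ ?_ ?_ ?_ ?_ ?_ ?_,
    ?_⟩
  · intro x; omega
  · intro x; omega
  · intro x y hxy
    simp only [Nat.add_left_cancel_iff] at hxy
    exact e.injective (Fin.ext hxy)
  · intro x y hxy
    have := h1 x y hxy
    omega
  · intro x y z hne hx hy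
    have := h2 x y z hne hx hy
    omega
  · intro x y hxy
    have hx := hv₀ x
    by_cases hey : (e y : ℕ) = 0
    · have hy : y = v₀ := by
        apply e.injective
        rw [he]
        exact Fin.ext hey
      subst hy
      have := h1 x y hxy
      omega
    · omega
  · intro x y z _ _
    have hx := hv₀ x
    omega
  · have hk := h3 v₀
    rintro (_ | (x | x))
    · simp
    · simp only
      have := h3 x
      omega
    · simp only
      have := (e x).2
      omega

lemma card_iter [Finite V] (t : ℕ) :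
    Finite (IterVert V t) ∧ Nat.card (IterVert V t) + 1 = 2 ^ t * (Nat.card V + 1) := by
  induction t with
  | zero => exact ⟨‹_›, by simp [IterVert]⟩
  | succ t ih =>
    obtain ⟨hf, hc⟩ := ih
    constructor
    · unfold IterVert
      infer_instance
    · have : Nat.card (IterVert V (t + 1)) = 2 * Nat.card (IterVert V t) + 1 := by
        have := Fintype.ofFinite (IterVert V t)
        show Nat.card (Option (IterVert V t ⊕ IterVert V t)) = _
        rw [Nat.card_eq_fintype_card, Nat.card_eq_fintype_card, Fintype.card_option,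
          Fintype.card_sum]
        ring
      rw [this, pow_succ]
      linarith

lemma nonempty_iter [Nonempty V] (t : ℕ) : Nonempty (IterVert V t) := by
  induction t with
  | zero => exact ‹_›
  | succ t ih => exact ⟨(none : Option _)⟩

/-- Reduction to the case `t = 1`. -/
lemma has_iter [Finite V] [Nonempty V] (G : SimpleGraph V) (D : ℕ)
    (h : Has (mycielski G) (Nat.card V + 1 + D)) (t : ℕ) (ht : 1 ≤ t) :
    Has (iterMyc G t) ((2 ^ t - 1) * (Nat.card V + 1) + D) := by
  induction t, ht using Nat.le_induction with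
  | base =>
    show Has (mycielski G) _
    simpa using h
  | succ t ht ih =>
    obtain ⟨hf, hc⟩ := card_iter (V := V) t
    have hne := nonempty_iter (V := V) t
    have := has_step ih
    have h2 : (2 ^ t - 1) * (Nat.card V + 1) + D + Nat.card (IterVert V t) + 1 =
        (2 ^ (t + 1) - 1) * (Nat.card V + 1) + D := by
      have h3 : 1 ≤ 2 ^ t := Nat.one_le_two_pow
      obtain ⟨m, hm⟩ : ∃ m, 2 ^ t = m + 1 := ⟨2 ^ t - 1, by omega⟩
      have h4 : 2 ^ (t + 1) - 1 = 2 * m + 1 := by rw [pow_succ]; omega
      rw [h4]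
      rw [hm] at hc ⊢
      rw [Nat.add_sub_cancel]
      nlinarith
    rw [h2] at this
    exact this

end Pool.Agent.H38.Myc
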