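import Mathlib
import Pool.Agent.H38.MycStep
import Pool.Agent.H38.CycArr

/-!
The bound for the first Mycielski graph.
-/

open Finset

namespace Pool.Agent.H38.Myc

open Pool.Agent.H38.Cyc

universe u

variable {V : Type u}

/-! ### maximum degree one -/

section one

variable [Fintype V] [DecidableEq V]

lemma one_aux (G : SimpleGraph V) (hG : ∀ x y z, G.Adj x y → G.Adj x z → y = z) :
    ∀ (k : ℕ) (S : Finset V), S.card = k → (∀ x ∈ S, ∀ y, G.Adj x y → y ∈ S) →
    ∃ f g : V → ℕ, (∀ x ∈ S, 1 ≤ f x ∧ f x ≤ S.card + 2 ∧ 2 ≤ g x ∧ g x ≤ S.card + 1) ∧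
      Set.InjOn g S ∧
      (∀ x ∈ S, ∀ y ∈ S, G.Adj x y →
        (f x + 2 ≤ f y ∨ f y + 2 ≤ f x) ∧ (f x + 2 ≤ g y ∨ g y + 2 ≤ f x)) ∧
      (∀ x ∈ S, f x ≠ g x) := by
  classical
  intro k
  induction k using Nat.strong_induction_on with
  | _ k ih =>
    intro S hS hcl
    rcases S.eq_empty_or_nonempty with rfl | ⟨x, hx⟩
    · exact ⟨fun _ => 0, fun _ => 0, by simp, by simp, by simp, by simp⟩
    by_cases hnb : ∃ y, G.Adj x y
    · obtain ⟨y, hxy⟩ := hnb
      have hy : y ∈ S := hcl x hx y hxy
      have hne : x ≠ y := hxy.ne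
      set T : Finset V := (S.erase x).erase y with hT
      have hyx : y ∈ S.erase x := Finset.mem_erase.mpr ⟨hne.symm, hy⟩
      have hTc : T.card + 2 = S.card := by
        rw [hT, Finset.card_erase_of_mem hyx, Finset.card_erase_of_mem hx]
        have : 0 < (S.erase x).card := Finset.card_pos.mpr ⟨y, hyx⟩
        rw [Finset.card_erase_of_mem hx] at this
        omega
      have hTmem : ∀ z, z ∈ S → z = x ∨ z = y ∨ z ∈ T := by
        intro z hz
        simp only [hT, Finset.mem_erase]
        tauto
      have hTne : ∀ z ∈ T, z ≠ x ∧ z ≠ y := by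
        intro z hz
        simp only [hT, Finset.mem_erase] at hz
        tauto
      have hTS : ∀ z ∈ T, z ∈ S := by
        intro z hz
        simp only [hT, Finset.mem_erase] at hz
        tauto
      obtain ⟨f, g, h1, h2, h3, h4⟩ := ih T.card (by omega) T rfl (by
        intro z hz z' hzz'
        have hz'S := hcl z (hTS z hz) z' hzz'
        rcases hTmem z' hz'S with h | h | h
        · subst h
          exact absurd (hG z' z y hzz'.symm hxy) (hTne z hz).2
        · subst h
          exact absurd (hG z' z x hzz'.symm hxy.symm) (hTne z hz).1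
        · exact h)
      refine ⟨fun z => if z = x then T.card + 1 else if z = y then T.card + 4 else f z,
        fun z => if z = x then T.card + 2 else if z = y then T.card + 3 else g z, ?_, ?_, ?_, ?_⟩
      · intro z hz
        rcases hTmem z hz with h | h | h
        · subst h
          simp only [if_true]
          omega
        · subst h
          simp only [if_neg hne.symm, if_true]
          omega
        · have := hTne z h
          have := h1 z h
          simp only [if_neg (hTne z h).1, if_neg (hTne z h).2]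
          omega
      · intro z hz z' hz' heq
        simp only at heq
        rcases hTmem z hz with h | h | h <;> rcases hTmem z' hz' with h' | h' | h'
        · rw [h, h']
        · subst h h'
          simp only [if_true, if_neg hne.symm] at heq
          omega
        · subst h
          have := h1 z' h'
          simp only [if_true, if_neg (hTne z' h').1, if_neg (hTne z' h').2] at heq
          omega
        · subst h h'
          simp only [if_true, if_neg hne.symm] at heq
          omega
        · rw [h, h']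
        · subst h
          have := h1 z' h'
          simp only [if_true, if_neg hne.symm, if_neg (hTne z' h').1,
            if_neg (hTne z' h').2] at heq
          omega
        · subst h'
          have := h1 z h
          simp only [if_true, if_neg (hTne z h).1, if_neg (hTne z h).2] at heq
          omega
        · subst h'
          have := h1 z h
          simp only [if_true, if_neg hne.symm, if_neg (hTne z h).1,
            if_neg (hTne z h).2] at heq
          omega
        · simp only [if_neg (hTne z h).1, if_neg (hTne z h).2, if_neg (hTne z' h').1,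
            if_neg (hTne z' h').2] at heq
          exact h2 h h' heq
      · intro z hz z' hz' hadj
        rcases hTmem z hz with h | h | h
        · subst h
          have : z' = y := hG _ _ _ hadj hxy
          subst this
          simp only [if_true, if_neg hne.symm]
          omega
        · subst h
          have : z' = x := hG _ _ _ hadj hxy.symm
          subst this
          simp only [if_true, if_neg hne.symm]
          omega
        · rcases hTmem z' hz' with h' | h' | h'
          · subst h'
            exact absurd (hG _ _ _ hadj.symm hxy) (hTne z h).2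
          · subst h'
            exact absurd (hG _ _ _ hadj.symm hxy.symm) (hTne z h).1
          · simp only [if_neg (hTne z h).1, if_neg (hTne z h).2, if_neg (hTne z' h').1,
              if_neg (hTne z' h').2]
            exact h3 z h z' h' hadj
      · intro z hz
        rcases hTmem z hz with h | h | h
        · subst h
          simp only [if_true]
          omega
        · subst h
          simp only [if_true, if_neg hne.symm]
          omega
        · simp only [if_neg (hTne z h).1, if_neg (hTne z h).2]
          exact h4 z h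
    · push Not at hnb
      set T : Finset V := S.erase x with hT
      have hTc : T.card + 1 = S.card := by
        rw [hT, Finset.card_erase_of_mem hx]
        have : 0 < S.card := Finset.card_pos.mpr ⟨x, hx⟩
        omega
      have hTmem : ∀ z, z ∈ S → z = x ∨ z ∈ T := by
        intro z hz
        simp only [hT, Finset.mem_erase]
        tauto
      have hTne : ∀ z ∈ T, z ≠ x := by
        intro z hz
        simp only [hT, Finset.mem_erase] at hz
        tauto
      have hTS : ∀ z ∈ T, z ∈ S := by
        intro z hz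
        simp only [hT, Finset.mem_erase] at hz
        tauto
      obtain ⟨f, g, h1, h2, h3, h4⟩ := ih T.card (by omega) T rfl (by
        intro z hz z' hzz'
        have hz'S := hcl z (hTS z hz) z' hzz'
        rcases hTmem z' hz'S with h | h
        · subst h
          exact absurd hzz'.symm (hnb z)
        · exact h)
      refine ⟨fun z => if z = x then T.card + 1 else f z,
        fun z => if z = x then T.card + 2 else g z, ?_, ?_, ?_, ?_⟩
      · intro z hz
        rcases hTmem z hz with h | h
        · subst h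
          simp only [if_true]
          omega
        · have := h1 z h
          simp only [if_neg (hTne z h)]
          omega
      · intro z hz z' hz' heq
        simp only at heq
        rcases hTmem z hz with h | h <;> rcases hTmem z' hz' with h' | h'
        · rw [h, h']
        · subst h
          have := h1 z' h'
          simp only [if_true, if_neg (hTne z' h')] at heq
          omega
        · subst h'
          have := h1 z h
          simp only [if_true, if_neg (hTne z h)] at heq
          omega
        · simp only [if_neg (hTne z h), if_neg (hTne z' h')] at heq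
          exact h2 h h' heq
      · intro z hz z' hz' hadj
        rcases hTmem z hz with h | h
        · subst h
          exact absurd hadj (hnb z')
        · rcases hTmem z' hz' with h' | h'
          · subst h'
            exact absurd hadj.symm (hnb z)
          · simp only [if_neg (hTne z h), if_neg (hTne z' h')]
            exact h3 z h z' h' hadj
      · intro z hz
        rcases hTmem z hz with h | h
        · subst h
          simp only [if_true]
          omega
        · simp only [if_neg (hTne z h)]
          exact h4 z h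

lemma base_one (G : SimpleGraph V) (hG : ∀ x y z, G.Adj x y → G.Adj x z → y = z) :
    Has (mycielski G) (Fintype.card V + 2) := by
  obtain ⟨f, g, h1, h2, h3, h4⟩ := one_aux G hG _ univ rfl (by simp)
  refine ⟨_, lab_mycielski G f g (fun x => (h1 x (mem_univ x)).1)
    (fun x => (h1 x (mem_univ x)).2.2.1) ?_ ?_ ?_ ?_ ?_, ?_⟩
  · intro x y hxy
    exact h2 (by simp) (by simp) hxy
  · intro x y hxy
    exact (h3 x (mem_univ x) y (mem_univ y) hxy).1
  · intro x y z hne hx hy
    exact absurd (hG z x y hx.symm hy.symm) hne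
  · intro x y hxy
    exact (h3 x (mem_univ x) y (mem_univ y) hxy).2
  · intro x y z hx hy
    have := hG z x y hx.symm hy.symm
    subst this
    exact h4 x (mem_univ x)
  · rintro (_ | (x | x))
    · simp
    · have := h1 x (mem_univ x)
      rw [Finset.card_univ] at this
      simp only
      omega
    · have := h1 x (mem_univ x)
      rw [Finset.card_univ] at this
      simp only
      omega

end one

/-! ### at most four vertices -/

def o4 : Fin 4 → ℕ := ![1, 4, 6, 9]
def c4 : Fin 4 → ℕ := ![2, 3, 7, 8]

lemma base_four (G : SimpleGraph V) (e : V → Fin 4) (he : Function.Injective e) (k : ℕ)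
    (hk : ∀ x, o4 (e x) ≤ k ∧ c4 (e x) ≤ k) : Has (mycielski G) k := by
  have t1 : ∀ a b : Fin 4, a ≠ b → (o4 a + 2 ≤ o4 b ∨ o4 b + 2 ≤ o4 a) ∧
      (o4 a + 2 ≤ c4 b ∨ c4 b + 2 ≤ o4 a) := by decide
  have t2 : ∀ a b : Fin 4, o4 a ≠ c4 b := by decide
  have t3 : ∀ a : Fin 4, 1 ≤ o4 a ∧ 2 ≤ c4 a := by decide
  have t4 : Function.Injective c4 := by decide
  have t5 : Function.Injective o4 := by decide
  have hne : ∀ x y, G.Adj x y → e x ≠ e y := fun x y h h' => h.ne (he h')
  refine ⟨_, lab_mycielski G (fun x => o4 (e x)) (fun x => c4 (e x)) (fun x => (t3 _).1)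
    (fun x => (t3 _).2) (t4.comp he) ?_ ?_ ?_ ?_, ?_⟩
  · intro x y hxy
    exact (t1 _ _ (hne x y hxy)).1
  · intro x y z hxy _ _ h
    exact hxy (he (t5 h))
  · intro x y hxy
    exact (t1 _ _ (hne x y hxy)).2
  · intro x y z _ _
    exact t2 _ _
  · rintro (_ | (x | x))
    · simp
    · exact (hk x).1
    · exact (hk x).2

/-! ### the general arrangement -/

/-- conflict relation between classes -/
def Rel {X : Type*} (G : SimpleGraph V) (κ₁ κ₂ : V → X) (a b : X) : Prop :=
  ∃ u v, G.Adj u v ∧ ((κ₁ u = a ∧ κ₁ v = b) ∨ (κ₁ u = a ∧ κ₂ v = b) ∨ (κ₂ u = a ∧ κ₁ v = b))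

lemma rel_symm {X : Type*} (G : SimpleGraph V) (κ₁ κ₂ : V → X) : Std.Symm (Rel G κ₁ κ₂) := by
  refine ⟨?_⟩
  rintro a b ⟨u, v, huv, h⟩
  refine ⟨v, u, huv.symm, ?_⟩
  tauto

lemma has_of_list {X : Type*} [DecidableEq X] (G : SimpleGraph V) (κ₁ κ₂ : V → X)
    (hκ₁ : Function.Injective κ₁) (hκ₂ : Function.Injective κ₂)
    (hb : ∀ x y, κ₁ x = κ₂ y → ¬ G.Adj x y ∧ ∀ z, ¬ (G.Adj x z ∧ G.Adj y z))
    (x₀ : X) (l : List X) (hall : ∀ x, x ∈ x₀ :: l)
    (hlin : lin (Rel G κ₁ κ₂) (x₀ :: l) = 0) (h0 : ∀ y, κ₂ y ≠ x₀) :
    Has (mycielski G) (x₀ :: l).length := by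
  obtain ⟨L, hL⟩ : ∃ L, L = x₀ :: l := ⟨_, rfl⟩
  have hhead : ∀ y, κ₂ y ≠ x₀ := h0
  have hidx0 : L.idxOf x₀ = 0 := by rw [hL]; simp
  rw [← hL] at hall hlin ⊢
  have hlt : ∀ x, L.idxOf x < L.length := fun x => List.idxOf_lt_length_iff.mpr (hall x)
  have hget : ∀ x, L[L.idxOf x]'(hlt x) = x := fun x => List.getElem_idxOf (hlt x)
  have hinj : ∀ x y, L.idxOf x = L.idxOf y → x = y := by
    intro x y h
    have h1 := hget x
    have h2 := hget y
    rw [← h1, ← h2]
    congr 1
  have hapart : ∀ a b, Rel G κ₁ κ₂ a b → a ≠ b →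
      L.idxOf a + 2 ≤ L.idxOf b ∨ L.idxOf b + 2 ≤ L.idxOf a := by
    intro a b hR hne
    by_contra hcon
    push Not at hcon
    have hne' : L.idxOf a ≠ L.idxOf b := fun h => hne (hinj _ _ h)
    rcases Nat.lt_or_gt_of_ne hne' with h | h
    · have e : L.idxOf b = L.idxOf a + 1 := by omega
      have := lin_zero_getElem (Rel G κ₁ κ₂) L hlin (L.idxOf a) (by rw [← e]; exact hlt b)
      apply this
      have e1 := hget a
      have e2 : L[L.idxOf a + 1]'(by rw [← e]; exact hlt b) = b := by
        have := hget b
        simp only [e] at this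
        exact this
      rw [e1, e2]
      exact hR
    · have e : L.idxOf a = L.idxOf b + 1 := by omega
      have := lin_zero_getElem (Rel G κ₁ κ₂) L hlin (L.idxOf b) (by rw [← e]; exact hlt a)
      apply this
      have e1 := hget b
      have e2 : L[L.idxOf b + 1]'(by rw [← e]; exact hlt a) = a := by
        have := hget a
        simp only [e] at this
        exact this
      rw [e1, e2]
      exact (rel_symm G κ₁ κ₂).symm _ _ hR
  refine ⟨_, lab_mycielski G (fun x => L.idxOf (κ₁ x) + 1) (fun x => L.idxOf (κ₂ x) + 1)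
    ?_ ?_ ?_ ?_ ?_ ?_ ?_, ?_⟩
  · intro x; omega
  · intro x
    have : L.idxOf (κ₂ x) ≠ L.idxOf x₀ := fun h => hhead x (hinj _ _ h)
    omega
  · intro x y hxy
    simp only [Nat.add_right_cancel_iff] at hxy
    exact hκ₂ (hinj _ _ hxy)
  · intro x y hxy
    have := hapart (κ₁ x) (κ₁ y) ⟨x, y, hxy, Or.inl ⟨rfl, rfl⟩⟩ (fun h => hxy.ne (hκ₁ h))
    omega
  · intro x y z hne _ _ h
    simp only [Nat.add_right_cancel_iff] at h
    exact hne (hκ₁ (hinj _ _ h))
  · intro x y hxy
    have := hapart (κ₁ x) (κ₂ y) ⟨x, y, hxy, Or.inr (Or.inl ⟨rfl, rfl⟩)⟩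
      (fun h => (hb x y h).1 hxy)
    omega
  · intro x y z hx hy h
    simp only [Nat.add_right_cancel_iff] at h
    exact (hb x y (hinj _ _ h)).2 z ⟨hx, hy⟩
  · rintro (_ | (x | x))
    · simp
    · have := hlt (κ₁ x)
      simp only
      omega
    · have := hlt (κ₂ x)
      simp only
      omega

section core

variable [Fintype V]

open Classical in
/-- neighbours -/
noncomputable def nb (G : SimpleGraph V) (v : V) : Finset V := univ.filter (fun y => G.Adj v y)

lemma mem_nb (G : SimpleGraph V) (v y : V) : y ∈ nb G v ↔ G.Adj v y := by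
  classical
  simp [nb]

open Classical in
/-- bound for the number of conflicts -/
noncomputable def cb {X : Type*} (D : ℕ) (κ₁ κ₂ : V → X) (a : X) : ℕ :=
  (if a ∈ Set.range κ₁ then 2 * D else 0) + (if a ∈ Set.range κ₂ then D else 0)

lemma deg_rel_le {X : Type*} [Fintype X] (G : SimpleGraph V) (D : ℕ)
    (hD : ∀ v, (nb G v).card ≤ D) (κ₁ κ₂ : V → X)
    (hκ₁ : Function.Injective κ₁) (hκ₂ : Function.Injective κ₂) (a : X) :
    deg (Rel G κ₁ κ₂) a ≤ cb D κ₁ κ₂ a := by
  classical
  unfold deg cb
  have h1 : ∃ P : Finset X, P.card ≤ (if a ∈ Set.range κ₁ then 2 * D else 0) ∧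
      ∀ u v, G.Adj u v → κ₁ u = a → κ₁ v ∈ P ∧ κ₂ v ∈ P := by
    by_cases ha : a ∈ Set.range κ₁
    · obtain ⟨u, rfl⟩ := ha
      refine ⟨(nb G u).image κ₁ ∪ (nb G u).image κ₂, ?_, ?_⟩
      · rw [if_pos ⟨u, rfl⟩]
        have := hD u
        have e1 := Finset.card_image_le (s := nb G u) (f := κ₁)
        have e2 := Finset.card_image_le (s := nb G u) (f := κ₂)
        have e3 := Finset.card_union_le ((nb G u).image κ₁) ((nb G u).image κ₂)
        omega
      · intro u' v huv hu'
        have := hκ₁ hu'
        subst this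
        simp only [Finset.mem_union, Finset.mem_image]
        exact ⟨Or.inl ⟨v, (mem_nb G _ _).mpr huv, rfl⟩, Or.inr ⟨v, (mem_nb G _ _).mpr huv, rfl⟩⟩
    · refine ⟨∅, by simp, ?_⟩
      intro u v _ hu
      exact absurd ⟨u, hu⟩ ha
  have h2 : ∃ P : Finset X, P.card ≤ (if a ∈ Set.range κ₂ then D else 0) ∧
      ∀ u v, G.Adj u v → κ₂ u = a → κ₁ v ∈ P := by
    by_cases ha : a ∈ Set.range κ₂
    · obtain ⟨u, rfl⟩ := ha
      refine ⟨(nb G u).image κ₁, ?_, ?_⟩
      · rw [if_pos ⟨u, rfl⟩]
        have := hD u
        have e1 := Finset.card_image_le (s := nb G u) (f := κ₁)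
        omega
      · intro u' v huv hu'
        have := hκ₂ hu'
        subst this
        simp only [Finset.mem_image]
        exact ⟨v, (mem_nb G _ _).mpr huv, rfl⟩
    · refine ⟨∅, by simp, ?_⟩
      intro u v _ hu
      exact absurd ⟨u, hu⟩ ha
  obtain ⟨P1, hP1, hP1'⟩ := h1
  obtain ⟨P2, hP2, hP2'⟩ := h2
  have hsub : (univ.filter (fun y => Rel G κ₁ κ₂ a y)) ⊆ P1 ∪ P2 := by
    intro b hb
    simp only [Finset.mem_filter, Finset.mem_univ, true_and] at hb
    obtain ⟨u, v, huv, h | h | h⟩ := hb
    · rw [Finset.mem_union, ← h.2]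
      exact Or.inl (hP1' u v huv h.1).1
    · rw [Finset.mem_union, ← h.2]
      exact Or.inl (hP1' u v huv h.1).2
    · rw [Finset.mem_union, ← h.2]
      exact Or.inr (hP2' u v huv h.1)
  have := Finset.card_le_card hsub
  have := Finset.card_union_le P1 P2
  omega

lemma far_card [DecidableEq V] (G : SimpleGraph V) (D : ℕ) (hD : ∀ v, (nb G v).card ≤ D) (x : V) :
    ∃ P : Finset V, P.card ≤ D ^ 2 + 1 ∧
      ∀ y, y ∉ P → x ≠ y ∧ ¬ G.Adj x y ∧ ∀ z, ¬ (G.Adj x z ∧ G.Adj y z) := by
  refine ⟨insert x ((nb G x).biUnion (fun u => insert u ((nb G u).erase x))), ?_, ?_⟩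
  · refine (Finset.card_insert_le _ _).trans ?_
    have h1 : ((nb G x).biUnion (fun u => insert u ((nb G u).erase x))).card ≤
        (nb G x).card * D := by
      apply Finset.card_biUnion_le_card_mul
      intro u hu
      have hx : x ∈ nb G u := (mem_nb G _ _).mpr ((mem_nb G _ _).mp hu).symm
      refine (Finset.card_insert_le _ _).trans ?_
      have h2 := Finset.card_erase_add_one hx
      have := hD u
      omega
    have h3 : (nb G x).card * D ≤ D * D := Nat.mul_le_mul_right _ (hD x)
    rw [sq]
    omega
  · intro y hy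
    simp only [Finset.mem_insert, Finset.mem_biUnion, Finset.mem_erase, mem_nb, not_or,
      not_exists, not_and] at hy
    obtain ⟨h1, h2⟩ := hy
    refine ⟨fun h => h1 h.symm, ?_, ?_⟩
    · intro hxy
      exact (h2 y hxy).1 rfl
    · rintro z ⟨hxz, hyz⟩
      exact (h2 z hxz).2 h1 hyz.symm

lemma exists_matching [DecidableEq V] (G : SimpleGraph V) (D : ℕ) (hD : ∀ v, (nb G v).card ≤ D) :
    ∀ k : ℕ, k + (D ^ 2 + 1) ≤ Fintype.card V →
    ∃ (I : Finset V) (m : V → V), I.card = k ∧ Set.InjOn m I ∧
      ∀ x ∈ I, x ≠ m x ∧ ¬ G.Adj x (m x) ∧ ∀ z, ¬ (G.Adj x z ∧ G.Adj (m x) z) := by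
  intro k
  induction k with
  | zero => intro _; exact ⟨∅, id, by simp, by simp, by simp⟩
  | succ k ih =>
    intro hk
    obtain ⟨I, m, hI, hm, hfar⟩ := ih (by omega)
    obtain ⟨x, -, hx⟩ : ∃ x ∈ (univ : Finset V), x ∉ I :=
      Finset.exists_mem_notMem_of_card_lt_card (by rw [Finset.card_univ]; omega)
    obtain ⟨P, hP, hP'⟩ := far_card G D hD x
    obtain ⟨y, -, hy⟩ : ∃ y ∈ (univ : Finset V), y ∉ P ∪ I.image m := by
      apply Finset.exists_mem_notMem_of_card_lt_card
      have h1 := Finset.card_union_le P (I.image m)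
      have h2 := Finset.card_image_le (s := I) (f := m)
      rw [Finset.card_univ]
      omega
    simp only [Finset.mem_union, not_or] at hy
    refine ⟨insert x I, fun z => if z = x then y else m z, ?_, ?_, ?_⟩
    · rw [Finset.card_insert_of_notMem hx, hI]
    · intro a ha b hb hab
      simp only [Finset.coe_insert, Set.mem_insert_iff, Finset.mem_coe] at ha hb
      simp only at hab
      rcases ha with rfl | ha <;> rcases hb with rfl | hb
      · rfl
      · have hne : b ≠ a := fun h => hx (h ▸ hb)
        simp only [if_true, if_neg hne] at hab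
        exact absurd (Finset.mem_image.mpr ⟨b, hb, hab.symm⟩) hy.2
      · have hne : a ≠ b := fun h => hx (h ▸ ha)
        simp only [if_true, if_neg hne] at hab
        exact absurd (Finset.mem_image.mpr ⟨a, ha, hab⟩) hy.2
      · have hne : a ≠ x := fun h => hx (h ▸ ha)
        have hne' : b ≠ x := fun h => hx (h ▸ hb)
        simp only [if_neg hne, if_neg hne'] at hab
        exact hm ha hb hab
    · intro a ha
      simp only [Finset.mem_insert] at ha
      rcases ha with rfl | ha
      · simp only [if_true]
        exact hP' y hy.1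
      · have hne : a ≠ x := fun h => hx (h ▸ ha)
        simp only [if_neg hne]
        exact hfar a ha

lemma cyc_zero {X : Type*} (S : X → X → Prop) (l : List X) (h : ∀ a b, ¬ S a b) : cyc S l = 0 := by
  have hl : ∀ l : List X, lin S l = 0 := by
    intro l
    induction l with
    | nil => rfl
    | cons a l ih =>
      cases l with
      | nil => rfl
      | cons b l =>
        simp only [lin, ind_neg (h a b), zero_add]
        exact ih
  by_cases hne : l = []
  · subst hne; simp [cyc]
  · rw [cyc_of_ne S l hne, hl, ind_neg (h _ _)]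

/-- Dirac's theorem for cyclic arrangements. -/
lemma exists_cyc_of_sum {X : Type*} [Fintype X] (R : X → X → Prop) (hs : Std.Symm R) (c : X → ℕ)
    (hc : ∀ x, deg R x ≤ c x) (h : ∀ a b, R a b → c a + c b + 1 < Fintype.card X) :
    ∃ l : List X, l.Nodup ∧ l.length = Fintype.card X ∧ cyc R l = 0 := by
  classical
  obtain ⟨l', h1, h2⟩ := exists_cyc R hs c hc (univ : Finset X).toList (Finset.nodup_toList _) (by
    apply cyc_zero
    rintro a b ⟨hab, hl⟩
    have := h a b hab
    rw [Finset.length_toList, Finset.card_univ] at hl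
    omega)
  refine ⟨l', h1.nodup_iff.mpr (Finset.nodup_toList _), ?_, h2⟩
  rw [h1.length_eq, Finset.length_toList, Finset.card_univ]

lemma deg_mono {X : Type*} [Fintype X] (R S : X → X → Prop) (h : ∀ a b, S a b → R a b) (a : X) :
    deg S a ≤ deg R a := by
  classical
  unfold deg
  apply Finset.card_le_card
  intro b hb
  simp only [Finset.mem_filter, Finset.mem_univ, true_and] at hb ⊢
  exact h a b hb

lemma core [DecidableEq V] (G : SimpleGraph V) (D : ℕ) (hD : ∀ v, (nb G v).card ≤ D)
    (κ₁ : V → V ⊕ Fin (D ^ 2 + 1)) (hκ₁ : Function.Injective κ₁)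
    (hb : ∀ x y, κ₁ x = Sum.inl y → ¬ G.Adj x y ∧ ∀ z, ¬ (G.Adj x z ∧ G.Adj y z))
    (l : List (V ⊕ Fin (D ^ 2 + 1))) (hl : l.Nodup)
    (hlen : l.length = Fintype.card V + D ^ 2 + 1)
    (hv : cyc (fun a b => Rel G κ₁ Sum.inl a b ∧
      l.length ≤ cb D κ₁ Sum.inl a + cb D κ₁ Sum.inl b + 1) l = 0) :
    Has (mycielski G) (Fintype.card V + 1 + D ^ 2) := by
  have hκ₂ : Function.Injective (Sum.inl : V → V ⊕ Fin (D ^ 2 + 1)) := Sum.inl_injective
  obtain ⟨l', h1, h2⟩ := exists_cyc (Rel G κ₁ Sum.inl) (rel_symm G κ₁ Sum.inl)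
    (cb D κ₁ Sum.inl) (deg_rel_le G D hD κ₁ Sum.inl hκ₁ hκ₂) l hl hv
  have hnd' : l'.Nodup := h1.nodup_iff.mpr hl
  have hlen' : l'.length = Fintype.card (V ⊕ Fin (D ^ 2 + 1)) := by
    rw [h1.length_eq, hlen, Fintype.card_sum, Fintype.card_fin]
    ring
  have hall : ∀ x, x ∈ l' := by
    intro x
    have : l'.toFinset = univ := by
      rw [← Finset.card_eq_iff_eq_univ, List.toFinset_card_of_nodup hnd', hlen']
    have hx := Finset.mem_univ x
    rw [← this] at hx
    exact List.mem_toFinset.mp hx
  obtain ⟨l₂, h3, h4⟩ := exists_start _ l' h2 (Sum.inr ⟨0, by positivity⟩) (hall _)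
  have := has_of_list G κ₁ Sum.inl hκ₁ hκ₂ hb (Sum.inr ⟨0, by positivity⟩) l₂
    (fun x => h3.mem_iff.mpr (hall x)) h4 (by intro y; simp)
  rw [h3.length_eq, h1.length_eq, hlen] at this
  have e : Fintype.card V + D ^ 2 + 1 = Fintype.card V + 1 + D ^ 2 := by ring
  rwa [e] at this

/-- Existence of the merging map. -/
lemma exists_kappa [DecidableEq V] (G : SimpleGraph V) (D : ℕ) (hD : ∀ v, (nb G v).card ≤ D) :
    ∃ (κ₁ : V → V ⊕ Fin (D ^ 2 + 1)) (B : Finset V),
      Function.Injective κ₁ ∧
      (∀ x y, κ₁ x = Sum.inl y → ¬ G.Adj x y ∧ ∀ z, ¬ (G.Adj x z ∧ G.Adj y z)) ∧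
      B.card = Fintype.card V - (D ^ 2 + 1) ∧
      ∀ x y, κ₁ x = Sum.inl y → y ∈ B := by
  obtain ⟨I, m, hI, hm, hfar⟩ : ∃ (I : Finset V) (m : V → V),
      I.card = Fintype.card V - (D ^ 2 + 1) ∧ Set.InjOn m I ∧
      ∀ x ∈ I, x ≠ m x ∧ ¬ G.Adj x (m x) ∧ ∀ z, ¬ (G.Adj x z ∧ G.Adj (m x) z) := by
    rcases Nat.lt_or_ge (Fintype.card V) (D ^ 2 + 1) with h | h
    · exact ⟨∅, id, by simp; omega, by simp, by simp⟩
    · exact exists_matching G D hD _ (by omega)
  have hcomp : Fintype.card {x // x ∉ I} ≤ Fintype.card (Fin (D ^ 2 + 1)) := by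
    rw [Fintype.card_fin]
    have h1 : Fintype.card {x // x ∉ I} = Fintype.card V - I.card := by
      rw [Fintype.card_subtype_compl, Fintype.card_coe]
    omega
  obtain ⟨ι⟩ := Function.Embedding.nonempty_of_card_le hcomp
  refine ⟨fun x => if h : x ∈ I then Sum.inl (m x) else Sum.inr (ι ⟨x, h⟩), I.image m,
    ?_, ?_, ?_, ?_⟩
  · intro x y hxy
    by_cases hx : x ∈ I <;> by_cases hy : y ∈ I
    · simp only [dif_pos hx, dif_pos hy, Sum.inl.injEq] at hxy
      exact hm hx hy hxy
    · simp [dif_pos hx, dif_neg hy] at hxy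
    · simp [dif_neg hx, dif_pos hy] at hxy
    · simp only [dif_neg hx, dif_neg hy, Sum.inr.injEq] at hxy
      have := ι.injective hxy
      simpa using this
  · intro x y hxy
    by_cases hx : x ∈ I
    · simp only [dif_pos hx, Sum.inl.injEq] at hxy
      subst hxy
      exact (hfar x hx).2
    · simp [dif_neg hx] at hxy
  · rw [Finset.card_image_of_injOn hm, hI]
  · intro x y hxy
    by_cases hx : x ∈ I
    · simp only [dif_pos hx, Sum.inl.injEq] at hxy
      subst hxy
      exact Finset.mem_image_of_mem m hx
    · simp [dif_neg hx] at hxy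

lemma cb_le_three {X : Type*} (D : ℕ) (κ₁ κ₂ : V → X) (a : X) : cb D κ₁ κ₂ a ≤ 3 * D := by
  classical
  unfold cb
  split_ifs <;> omega

/-- The bound for the first Mycielski graph when the maximum degree is at least two. -/
lemma base_general [DecidableEq V] (G : SimpleGraph V) (D : ℕ) (hD : ∀ v, (nb G v).card ≤ D)
    (hD2 : 2 ≤ D) (hn : D + 1 ≤ Fintype.card V) :
    Has (mycielski G) (Fintype.card V + 1 + D ^ 2) := by
  classical
  obtain ⟨n, hnn⟩ : ∃ n, n = Fintype.card V := ⟨_, rfl⟩
  -- at most four vertices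
  by_cases h4 : D = 2 ∧ n ≤ 4
  · obtain ⟨rfl, h4⟩ := h4
    have e := Fintype.equivFin V
    have hlt : ∀ x, (e x : ℕ) < n := fun x => by rw [hnn]; exact (e x).2
    have tab : ∀ (n : Fin 5) (i : Fin 4), 3 ≤ (n : ℕ) → (i : ℕ) < n →
        o4 i ≤ n + 5 ∧ c4 i ≤ n + 5 := by decide
    have := base_four G (fun x => (⟨e x, by have := hlt x; omega⟩ : Fin 4))
      (by
        intro x y hxy
        simp only [Fin.mk.injEq] at hxy
        exact e.injective (Fin.ext hxy)) (n + 5)
      (fun x => tab ⟨n, by omega⟩ _ (by simp only; omega) (by simpa using hlt x))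
    have e2 : n + 5 = Fintype.card V + 1 + 2 ^ 2 := by omega
    rwa [e2] at this
  obtain ⟨κ₁, B, hinj, hb, hB, hBm⟩ := exists_kappa G D hD
  have hcard : Fintype.card (V ⊕ Fin (D ^ 2 + 1)) = n + D ^ 2 + 1 := by
    rw [Fintype.card_sum, Fintype.card_fin, hnn]
    ring
  obtain ⟨S, hS⟩ : ∃ S : (V ⊕ Fin (D ^ 2 + 1)) → (V ⊕ Fin (D ^ 2 + 1)) → Prop,
      S = (fun a b => Rel G κ₁ Sum.inl a b ∧
      n + D ^ 2 + 1 ≤ cb D κ₁ Sum.inl a + cb D κ₁ Sum.inl b + 1) := ⟨_, rfl⟩
  -- it is enough to find a good initial list
  suffices hsuff : ∃ l : List (V ⊕ Fin (D ^ 2 + 1)), l.Nodup ∧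
      l.length = Fintype.card (V ⊕ Fin (D ^ 2 + 1)) ∧ cyc S l = 0 by
    obtain ⟨l, h1, h2, h3⟩ := hsuff
    rw [hcard] at h2
    refine core G D hD κ₁ hinj hb l h1 (by rw [h2, hnn]) ?_
    rw [h2, ← hS]
    exact h3
  have hSs : Std.Symm S := by
    refine ⟨?_⟩
    rw [hS]
    rintro a b ⟨h1, h2⟩
    exact ⟨(rel_symm G κ₁ Sum.inl).symm _ _ h1, by omega⟩
  have hSR : ∀ a b, S a b → Rel G κ₁ Sum.inl a b := by
    rw [hS]; exact fun a b h => h.1
  have hSc : ∀ a b, S a b → n + D ^ 2 ≤ cb D κ₁ Sum.inl a + cb D κ₁ Sum.inl b := by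
    rw [hS]; exact fun a b h => by have := h.2; omega
  have hirr : ∀ a, ¬ Rel G κ₁ Sum.inl a a := by
    rintro a ⟨u, v, huv, h | h | h⟩
    · exact huv.ne (hinj (h.1.trans h.2.symm))
    · exact (hb u v (h.1.trans h.2.symm)).1 huv
    · exact (hb v u (h.2.trans h.1.symm)).1 huv.symm
  have hD' : D * D = D ^ 2 := (sq D).symm
  have hcb2 : ∀ s, cb D κ₁ Sum.inl (Sum.inr s) ≤ 2 * D := by
    intro s
    unfold cb
    have : (Sum.inr s : V ⊕ Fin (D ^ 2 + 1)) ∉ Set.range (Sum.inl : V → V ⊕ Fin (D ^ 2 + 1)) := by
      rintro ⟨x, hx⟩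
      simp at hx
    rw [if_neg this]
    split_ifs <;> omega
  have hcb1 : ∀ j, j ∉ B → cb D κ₁ Sum.inl (Sum.inl j) ≤ D := by
    intro j hj
    unfold cb
    have : (Sum.inl j : V ⊕ Fin (D ^ 2 + 1)) ∉ Set.range κ₁ := by
      rintro ⟨x, hx⟩
      exact hj (hBm x j hx)
    rw [if_neg this]
    split_ifs <;> omega
  by_cases hcase : n ≤ D ^ 2 + 1
  · -- no merging
    have hB0 : B = ∅ := by
      apply Finset.card_eq_zero.mp
      rw [hB]
      omega
    have hc : ∀ a, cb D κ₁ Sum.inl a ≤ 2 * D := by
      rintro (j | s)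
      · have := hcb1 j (by rw [hB0]; simp)
        omega
      · exact hcb2 s
    have hsmall : 4 * D < n + D ^ 2 := by
      rcases Nat.lt_or_ge D 3 with h3 | h3
      · have h2 : D = 2 := by omega
        subst h2
        omega
      · nlinarith
    refine ⟨(univ : Finset _).toList, Finset.nodup_toList _, by
      rw [Finset.length_toList, Finset.card_univ], ?_⟩
    apply cyc_zero
    intro a b hab
    have := hSc a b hab
    have := hc a
    have := hc b
    omega
  · by_cases hbig : 6 * D < n + D ^ 2
    · refine ⟨(univ : Finset _).toList, Finset.nodup_toList _, by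
        rw [Finset.length_toList, Finset.card_univ], ?_⟩
      apply cyc_zero
      intro a b hab
      have := hSc a b hab
      have := cb_le_three D κ₁ Sum.inl a
      have := cb_le_three D κ₁ Sum.inl b
      omega
    · -- `D = 2` and `6 ≤ n ≤ 8`
      have h2 : D = 2 := by
        by_contra hne
        have h3 : 3 ≤ D := by omega
        apply hbig
        nlinarith
      subst h2
      have hn6 : 6 ≤ n := by omega
      have hn8 : n ≤ 8 := by omega
      have hBc : B.card = n - 5 := by omega
      have hcB : ∀ a, 5 ≤ cb 2 κ₁ Sum.inl a → ∃ j ∈ B, a = Sum.inl j := by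
        rintro (j | s) ha
        · by_cases hj : j ∈ B
          · exact ⟨j, hj, rfl⟩
          · have := hcb1 j hj
            omega
        · have := hcb2 s
          omega
      have hc6 : ∀ a, cb 2 κ₁ Sum.inl a ≤ 6 := fun a => cb_le_three 2 κ₁ Sum.inl a
      -- conflicts that can not be repaired directly
      apply exists_cyc_of_sum S hSs (fun a => if 5 ≤ cb 2 κ₁ Sum.inl a then
        (if n = 6 then 6 else 3) else (if n = 6 then 1 else 0))
      · intro a
        have hsubB : (univ.filter (fun b : V ⊕ Fin (2 ^ 2 + 1) => ∃ j ∈ B, b = Sum.inl j)).card ≤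
            n - 5 := by
          rw [← hBc]
          have : (univ.filter (fun b : V ⊕ Fin (2 ^ 2 + 1) => ∃ j ∈ B, b = Sum.inl j)) ⊆
              B.image Sum.inl := by
            intro b hb
            simp only [Finset.mem_filter, Finset.mem_univ, true_and] at hb
            obtain ⟨j, hj, rfl⟩ := hb
            exact Finset.mem_image_of_mem _ hj
          exact (Finset.card_le_card this).trans Finset.card_image_le
        by_cases ha : 5 ≤ cb 2 κ₁ Sum.inl a
        · rw [if_pos ha]
          by_cases h6 : n = 6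
          · rw [if_pos h6]
            exact (deg_mono _ _ hSR a).trans
              ((deg_rel_le G 2 hD κ₁ Sum.inl hinj Sum.inl_injective a).trans (hc6 a))
          · rw [if_neg h6]
            have : deg S a ≤ n - 5 := by
              refine le_trans (Finset.card_le_card ?_) hsubB
              intro b hb
              simp only [Finset.mem_filter, Finset.mem_univ, true_and] at hb ⊢
              apply hcB
              have := hSc a b hb
              have := hc6 a
              omega
            omega
        · rw [if_neg ha]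
          have : deg S a ≤ if n = 6 then n - 5 else 0 := by
            by_cases h6 : n = 6
            · rw [if_pos h6]
              refine le_trans (Finset.card_le_card ?_) hsubB
              intro b hb
              simp only [Finset.mem_filter, Finset.mem_univ, true_and] at hb ⊢
              apply hcB
              have := hSc a b hb
              omega
            · rw [if_neg h6, Nat.le_zero]
              unfold deg
              rw [Finset.card_eq_zero, Finset.filter_eq_empty_iff]
              intro b _ hb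
              have := hSc a b hb
              have := hc6 b
              omega
          split_ifs at this ⊢ <;> omega
      · intro a b hab
        rw [hcard]
        have hsum := hSc a b hab
        by_cases h6 : n = 6
        · simp only [if_pos h6]
          by_cases ha : 5 ≤ cb 2 κ₁ Sum.inl a
          · by_cases hb5 : 5 ≤ cb 2 κ₁ Sum.inl b
            · exfalso
              obtain ⟨j, hj, rfl⟩ := hcB a ha
              obtain ⟨j', hj', rfl⟩ := hcB b hb5
              have h1 : B.card = 1 := by omega
              have : j = j' := (Finset.card_le_one.mp h1.le) j hj j' hj'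
              subst this
              exact hirr _ (hSR _ _ hab)
            · rw [if_pos ha, if_neg hb5]
              omega
          · rw [if_neg ha]
            split_ifs <;> omega
        · simp only [if_neg h6]
          split_ifs <;> omega

end core

end Pool.Agent.H38.Myc
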