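import Mathlib

/-!
Simple games, desirability, types of voters and trade robustness.
-/

open Finset

namespace Pool.Agent.H38.SG

/-- A simple game on the finite voter set `N`: a family `win` of coalitions (the winning ones) that
does not contain the empty coalition, contains the grand coalition, and is closed under
supersets. -/
structure SimpleGame (N : Type) [Fintype N] [DecidableEq N] where
  /-- the winning coalitions -/
  win : Set (Finset N)
  empty_notMem : (∅ : Finset N) ∉ win
  univ_mem : (Finset.univ : Finset N) ∈ win
  mono : ∀ S T : Finset N, S ∈ win → S ⊆ T → T ∈ win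

namespace SimpleGame

variable {N : Type} [Fintype N] [DecidableEq N] (G : SimpleGame N)

/-- `i ⪰ j`: for every `S ⊆ N \ {i, j}`, if `S ∪ {j}` is winning then `S ∪ {i}` is winning. -/
def Geq (i j : N) : Prop :=
  ∀ S : Finset N, i ∉ S → j ∉ S → insert j S ∈ G.win → insert i S ∈ G.win

/-- The game is complete if any two voters are comparable. -/
def Complete : Prop := ∀ i j : N, G.Geq i j ∨ G.Geq j i

lemma Geq.refl (i : N) : G.Geq i i := fun _ _ _ h => h

lemma Geq.trans {i j k : N} (h1 : G.Geq i j) (h2 : G.Geq j k) : G.Geq i k := by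
  intro S hi hk hS
  by_cases hik : i = k
  · subst hik; exact hS
  by_cases hij : i = j
  · subst hij; exact h2 S hi hk hS
  by_cases hjk : j = k
  · subst hjk; exact h1 S hi hk hS
  by_cases hj : j ∈ S
  · have e1 : insert k S = insert j (insert k (S.erase j)) := by
      ext x
      simp only [Finset.mem_insert, Finset.mem_erase]
      by_cases hx : x = j
      · subst hx; simp [hj]
      · simp [hx]
    rw [e1] at hS
    have h3 : insert i (insert k (S.erase j)) ∈ G.win := by
      apply h1 _ _ _ hS
      · simp [hi, hik]
      · simp [hjk]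
    have e2 : insert i (insert k (S.erase j)) = insert k (insert i (S.erase j)) :=
      Finset.insert_comm _ _ _
    rw [e2] at h3
    have h4 : insert j (insert i (S.erase j)) ∈ G.win := by
      apply h2 _ _ _ h3
      · simp [Ne.symm hij]
      · simp [Ne.symm hik, hk]
    have e3 : insert j (insert i (S.erase j)) = insert i S := by
      ext x
      simp only [Finset.mem_insert, Finset.mem_erase]
      by_cases hx : x = j
      · subst hx; simp [hj]
      · simp [hx]
    rw [e3] at h4
    exact h4
  · exact h1 S hi hj (h2 S hj hk hS)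

/-- Two voters are of the same type if `i ⪰ j` and `j ⪰ i`. -/
def typeSetoid : Setoid N where
  r i j := G.Geq i j ∧ G.Geq j i
  iseqv :=
    { refl := fun i => ⟨Geq.refl G i, Geq.refl G i⟩
      symm := fun h => ⟨h.2, h.1⟩
      trans := fun h1 h2 => ⟨Geq.trans G h1.1 h2.1, Geq.trans G h2.2 h1.2⟩ }

/-- The number of types of voters, i.e. the number of equivalence classes. -/
noncomputable def numTypes : ℕ := Nat.card (Quotient G.typeSetoid)

/-- `G` is `k`-trade robust: there are no `1 ≤ j ≤ k`, winning coalitions `X₁, ..., X_j` and losing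
coalitions `Y₁, ..., Y_j` such that every voter lies in exactly as many of the `X_i` as of the
`Y_i`. -/
def TradeRobust (k : ℕ) : Prop :=
  ¬ ∃ j : ℕ, 1 ≤ j ∧ j ≤ k ∧ ∃ X Y : Fin j → Finset N,
    (∀ i, X i ∈ G.win) ∧ (∀ i, Y i ∉ G.win) ∧
    ∀ v : N, (Finset.univ.filter (fun i => v ∈ X i)).card =
      (Finset.univ.filter (fun i => v ∈ Y i)).card

end SimpleGame

/-- `t` is unbounded if there is a sequence `(G_k)_{k ≥ 2}` of complete simple games, each with
exactly `t` types of voters, such that `G_k` is `k`-trade robust but not `(k+1)`-trade robust for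
every `k ≥ 2`. -/
def Unbounded (t : ℕ) : Prop :=
  ∃ (N : ℕ → Type) (_ : ∀ k, Fintype (N k)) (_ : ∀ k, DecidableEq (N k))
    (G : ∀ k, SimpleGame (N k)),
    ∀ k, 2 ≤ k → (G k).Complete ∧ (G k).numTypes = t ∧ (G k).TradeRobust k ∧
      ¬ (G k).TradeRobust (k + 1)

end Pool.Agent.H38.SG
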