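import Mathlib
import Pool.Agent.H38.SGDefs

/-!
From vectors of class counts to coalitions.
-/

open Finset

namespace Pool.Agent.H38.SG

variable {N R : Type} [Fintype N] [DecidableEq N] [DecidableEq R]

/-- the number of members of class `r` in the coalition `S` -/
def cnt (cls : N → R) (S : Finset N) (r : R) : ℕ := (S.filter (fun v => cls v = r)).card

/-- the size of the class `r` -/
def size (cls : N → R) (r : R) : ℕ := (univ.filter (fun v => cls v = r)).card

lemma cnt_le_size (cls : N → R) (S : Finset N) (r : R) : cnt cls S r ≤ size cls r :=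
  Finset.card_le_card (Finset.filter_subset_filter _ (Finset.subset_univ S))

/-- the number of `s < A` with `s ≡ e` mod `n` -/
def psi (n e A : ℕ) : ℕ := (A + (n - 1 - e)) / n

lemma psi_zero (n e : ℕ) (he : e < n) : psi n e 0 = 0 := by
  unfold psi
  exact Nat.div_eq_of_lt (by omega)

lemma psi_mono (n e A a : ℕ) : psi n e A ≤ psi n e (A + a) := by
  unfold psi
  exact Nat.div_le_div_right (by omega)

lemma psi_le (n e A a : ℕ) (hn : 0 < n) (ha : a ≤ n) : psi n e (A + a) ≤ psi n e A + 1 := by
  unfold psi
  calc (A + a + (n - 1 - e)) / n ≤ (A + (n - 1 - e) + n) / n := Nat.div_le_div_right (by omega)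
    _ = (A + (n - 1 - e)) / n + 1 := Nat.add_div_right _ hn

lemma sum_div (n A : ℕ) (hn : 0 < n) : ∑ e ∈ range n, (A + e) / n = A := by
  induction A with
  | zero =>
    apply Finset.sum_eq_zero
    intro e he
    rw [zero_add]
    exact Nat.div_eq_of_lt (Finset.mem_range.mp he)
  | succ A ih =>
    obtain ⟨n, rfl⟩ : ∃ k, n = k + 1 := ⟨n - 1, by omega⟩
    rw [Finset.sum_range_succ]
    rw [Finset.sum_range_succ'] at ih
    have h1 : ∀ e, (A + 1 + e) / (n + 1) = (A + (e + 1)) / (n + 1) := by
      intro e; congr 1; ring
    simp only [h1]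
    have h2 : (A + (n + 1)) / (n + 1) = A / (n + 1) + 1 := Nat.add_div_right _ hn
    rw [h2]
    simp only [add_zero] at ih
    omega

lemma sum_psi (n A : ℕ) (hn : 0 < n) : ∑ e ∈ range n, psi n e A = A := by
  rw [← Finset.sum_range_reflect]
  conv_rhs => rw [← sum_div n A hn]
  apply Finset.sum_congr rfl
  intro e he
  rw [Finset.mem_range] at he
  unfold psi
  congr 1
  omega

/-- an indexing of every class -/
lemma exists_index (cls : N → R) : ∃ e : N → ℕ, (∀ v, e v < size cls (cls v)) ∧
    ∀ v v', cls v = cls v' → e v = e v' → v = v' := by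
  classical
  have h : ∀ r : R, ∃ f : N → ℕ, (∀ v, cls v = r → f v < size cls r) ∧
      ∀ v v', cls v = r → cls v' = r → f v = f v' → v = v' := by
    intro r
    let s : Finset N := univ.filter (fun v => cls v = r)
    let ee := s.equivFin
    refine ⟨fun v => if hv : v ∈ s then (ee ⟨v, hv⟩ : ℕ) else 0, ?_, ?_⟩
    · intro v hv
      have hvs : v ∈ s := by simp [s, hv]
      simp only [dif_pos hvs]
      exact (ee ⟨v, hvs⟩).2
    · intro v v' hv hv' hee
      have hvs : v ∈ s := by simp [s, hv]
      have hvs' : v' ∈ s := by simp [s, hv']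
      simp only [dif_pos hvs, dif_pos hvs'] at hee
      have := ee.injective (Fin.ext hee)
      simpa using this
  choose f hf1 hf2 using h
  exact ⟨fun v => f (cls v) v, fun v => hf1 _ v rfl, fun v v' hc he => by
    simp only [hc] at he
    exact hf2 (cls v') v v' hc rfl he⟩

lemma sum_class (cls : N → R) (e : N → ℕ) (he : ∀ v, e v < size cls (cls v))
    (hinj : ∀ v v', cls v = cls v' → e v = e v' → v = v') (r : R) (g : ℕ → ℕ) :
    ∑ v ∈ univ.filter (fun v => cls v = r), g (e v) = ∑ k ∈ range (size cls r), g k := by
  have hinj' : Set.InjOn e (univ.filter (fun v => cls v = r) : Finset N) := by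
    intro v hv v' hv' h
    simp only [Finset.coe_filter, Finset.mem_univ, true_and, Set.mem_ofPred_eq] at hv hv'
    exact hinj v v' (hv.trans hv'.symm) h
  have himg : (univ.filter (fun v => cls v = r)).image e = range (size cls r) := by
    apply Finset.eq_of_subset_of_card_le
    · intro k hk
      rw [Finset.mem_image] at hk
      obtain ⟨v, hv, rfl⟩ := hk
      simp only [Finset.mem_filter, Finset.mem_univ, true_and] at hv
      rw [Finset.mem_range, ← hv]
      exact he v
    · rw [Finset.card_image_of_injOn hinj', Finset.card_range]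
      rfl
  rw [← himg, Finset.sum_image hinj']

/-- Vectors of class counts are realised by coalitions such that the number of coalitions containing
a voter only depends on the sum of the vectors. -/
theorem exists_assign (cls : N → R) : ∃ Ψ : N → ℕ → ℕ, ∀ (j : ℕ) (w : Fin j → R → ℕ),
    (∀ i r, w i r ≤ size cls r) →
    ∃ X : Fin j → Finset N, (∀ i r, cnt cls (X i) r = w i r) ∧
      ∀ v, (univ.filter (fun i => v ∈ X i)).card = Ψ v (∑ i, w i (cls v)) := by
  obtain ⟨e, he, hinj⟩ := exists_index cls
  refine ⟨fun v A => psi (size cls (cls v)) (e v) A, ?_⟩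
  intro j
  induction j with
  | zero =>
    intro w _
    refine ⟨fun i => i.elim0, fun i => i.elim0, fun v => ?_⟩
    simp [psi_zero _ _ (he v)]
  | succ j ih =>
    intro w hw
    obtain ⟨X, hX1, hX2⟩ := ih (fun i => w i.castSucc) (fun i r => hw _ r)
    let P : R → ℕ := fun r => ∑ i : Fin j, w i.castSucc r
    let a : R → ℕ := fun r => w (Fin.last j) r
    let Y : Finset N := univ.filter (fun v => psi (size cls (cls v)) (e v) (P (cls v)) <
      psi (size cls (cls v)) (e v) (P (cls v) + a (cls v)))
    have hpos : ∀ v, 0 < size cls (cls v) := fun v => lt_of_le_of_lt (Nat.zero_le _) (he v)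
    have hstep : ∀ v, psi (size cls (cls v)) (e v) (P (cls v) + a (cls v)) =
        psi (size cls (cls v)) (e v) (P (cls v)) + (if v ∈ Y then 1 else 0) := by
      intro v
      have h1 := psi_mono (size cls (cls v)) (e v) (P (cls v)) (a (cls v))
      have h2 := psi_le (size cls (cls v)) (e v) (P (cls v)) (a (cls v)) (hpos v) (hw _ _)
      by_cases hv : v ∈ Y
      · rw [if_pos hv]
        simp only [Y, Finset.mem_filter, Finset.mem_univ, true_and] at hv
        omega
      · rw [if_neg hv]
        simp only [Y, Finset.mem_filter, Finset.mem_univ, true_and, not_lt] at hv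
        omega
    refine ⟨Fin.snoc X Y, ?_, ?_⟩
    · intro i r
      refine Fin.lastCases ?_ (fun i => ?_) i
      · rw [Fin.snoc_last]
        unfold cnt
        rcases Nat.eq_zero_or_pos (size cls r) with h0 | h0
        · have h1 := hw (Fin.last j) r
          have h2 := cnt_le_size cls Y r
          unfold cnt at h2
          omega
        · have e1 : ((Y.filter (fun v => cls v = r)).card : ℕ) =
              ∑ v ∈ univ.filter (fun v => cls v = r), (if v ∈ Y then 1 else 0) := by
            rw [Finset.sum_ite, Finset.sum_const_zero, add_zero, Finset.sum_const, smul_eq_mul,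
              mul_one]
            congr 1
            ext v
            simp only [Finset.mem_filter, Finset.mem_univ, true_and]
            tauto
          have e2 : ∑ v ∈ univ.filter (fun v => cls v = r), psi (size cls r) (e v) (P r + a r) =
              ∑ v ∈ univ.filter (fun v => cls v = r), psi (size cls r) (e v) (P r) +
              ∑ v ∈ univ.filter (fun v => cls v = r), (if v ∈ Y then 1 else 0) := by
            rw [← Finset.sum_add_distrib]
            apply Finset.sum_congr rfl
            intro v hv
            simp only [Finset.mem_filter, Finset.mem_univ, true_and] at hv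
            have := hstep v
            rw [hv] at this
            exact this
          rw [sum_class cls e he hinj r (fun k => psi (size cls r) k (P r + a r)),
            sum_class cls e he hinj r (fun k => psi (size cls r) k (P r)), sum_psi _ _ h0,
            sum_psi _ _ h0] at e2
          rw [e1]
          have : a r = w (Fin.last j) r := rfl
          omega
      · rw [Fin.snoc_castSucc]
        exact hX1 i r
    · intro v
      rw [Fin.sum_univ_castSucc]
      have h1 := hstep v
      have h2 := hX2 v
      have h3 : (univ.filter (fun i : Fin (j + 1) => v ∈ (Fin.snoc X Y : Fin (j + 1) → Finset N) i)).card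
          = (univ.filter (fun i : Fin j => v ∈ X i)).card + (if v ∈ Y then 1 else 0) := by
        rw [Finset.card_filter, Finset.card_filter, Fin.sum_univ_castSucc]
        simp only [Fin.snoc_castSucc, Fin.snoc_last]
      rw [h3, h2]
      exact h1.symm

/-- If two lists of count vectors have the same sum, they are realised by lists of coalitions with
the same number of coalitions containing each voter. -/
theorem exists_realize (cls : N → R) (j : ℕ) (w l : Fin j → R → ℕ)
    (hw : ∀ i r, w i r ≤ size cls r) (hl : ∀ i r, l i r ≤ size cls r)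
    (hsum : ∀ r, ∑ i, w i r = ∑ i, l i r) :
    ∃ X Y : Fin j → Finset N, (∀ i r, cnt cls (X i) r = w i r) ∧
      (∀ i r, cnt cls (Y i) r = l i r) ∧
      ∀ v, (univ.filter (fun i => v ∈ X i)).card = (univ.filter (fun i => v ∈ Y i)).card := by
  obtain ⟨Ψ, hΨ⟩ := exists_assign cls
  obtain ⟨X, hX1, hX2⟩ := hΨ j w hw
  obtain ⟨Y, hY1, hY2⟩ := hΨ j l hl
  exact ⟨X, Y, hX1, hY1, fun v => by rw [hX2, hY2, hsum]⟩

/-- If every voter lies in equally many of the `X_i` and the `Y_i` then the sums of the count vectors
agree. -/
theorem sum_cnt_eq (cls : N → R) (j : ℕ) (X Y : Fin j → Finset N)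
    (h : ∀ v, (univ.filter (fun i => v ∈ X i)).card = (univ.filter (fun i => v ∈ Y i)).card)
    (r : R) : ∑ i, cnt cls (X i) r = ∑ i, cnt cls (Y i) r := by
  have key : ∀ Z : Fin j → Finset N, ∑ i, cnt cls (Z i) r =
      ∑ v ∈ univ.filter (fun v => cls v = r), (univ.filter (fun i => v ∈ Z i)).card := by
    intro Z
    unfold cnt
    simp only [Finset.card_filter]
    rw [Finset.sum_comm' (s := univ.filter (fun v => cls v = r)) (t := fun _ => univ)
      (t' := univ) (s' := fun _ => univ.filter (fun v => cls v = r)) (by simp)]
    apply Finset.sum_congr rfl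
    intro i _
    rw [← Finset.sum_filter, ← Finset.sum_filter, Finset.sum_const, Finset.sum_const]
    congr 2
    ext v
    simp only [Finset.mem_filter, Finset.mem_univ, true_and]
    tauto
  rw [key X, key Y]
  exact Finset.sum_congr rfl (fun v _ => h v)

end Pool.Agent.H38.SG
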