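import Mathlib

/-!
Two geometric lemmas: rounding to few fractional coordinates, and the four point lemma for boxes
in dimension three.
-/

open Finset

namespace Pool.Agent.H38.Round

/-- One can move within the cube, keeping a linear image in a `D`-dimensional space fixed and all
integral coordinates unchanged, until at most `D` coordinates are fractional. -/
theorem exists_round {ι V : Type*} [Fintype ι] [DecidableEq ι] [AddCommGroup V] [Module ℝ V]
    [FiniteDimensional ℝ V] (v : ι → V) (u : ι → ℝ) (hu : ∀ i, 0 ≤ u i ∧ u i ≤ 1) :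
    ∃ u' : ι → ℝ, (∀ i, 0 ≤ u' i ∧ u' i ≤ 1) ∧ ∑ i, u' i • v i = ∑ i, u i • v i ∧
      (∀ i, u i = 0 → u' i = 0) ∧ (∀ i, u i = 1 → u' i = 1) ∧
      (univ.filter (fun i => 0 < u' i ∧ u' i < 1)).card ≤ Module.finrank ℝ V := by
  induction hn : (univ.filter (fun i => 0 < u i ∧ u i < 1)).card using Nat.strong_induction_on
    generalizing u with
  | _ n ih =>
    by_cases hle : n ≤ Module.finrank ℝ V
    · exact ⟨u, hu, rfl, fun _ h => h, fun _ h => h, by rw [hn]; exact hle⟩
    · push Not at hle
      let F : Finset ι := univ.filter (fun i => 0 < u i ∧ u i < 1)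
      have hF : ∀ i, i ∈ F ↔ 0 < u i ∧ u i < 1 := by simp [F]
      have hFn : F.card = n := hn
      -- a nontrivial relation among the fractional vectors
      have hdep : ¬ LinearIndependent ℝ (fun i : F => v i) := by
        intro hli
        have := hli.fintype_card_le_finrank
        rw [Fintype.card_coe] at this
        omega
      rw [Fintype.not_linearIndependent_iff] at hdep
      obtain ⟨g, hg0, ⟨i₀, hi₀⟩, hgi⟩ := hdep
      let z : ι → ℝ := fun i => if h : i ∈ F then g ⟨i, h⟩ else 0
      have hz0 : ∑ i, z i • v i = 0 := by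
        rw [← Finset.sum_subset (Finset.subset_univ F)]
        · rw [← Finset.sum_coe_sort]
          rw [← hg0]
          apply Finset.sum_congr rfl
          intro i _
          simp [z]
        · intro i _ hi
          simp [z, hi]
      have hzF : ∀ i, i ∉ F → z i = 0 := by intro i hi; simp [z, hi]
      have hzi : z i₀ ≠ 0 := by simp [z, hi₀]; exact hgi
      -- the step length
      let G : Finset ι := univ.filter (fun i => z i ≠ 0)
      have hG : G.Nonempty := ⟨i₀, by simp [G, hzi]⟩
      let τ : ι → ℝ := fun i => if 0 < z i then (1 - u i) / z i else (- u i) / z i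
      obtain ⟨i₁, hi₁, hmin⟩ := Finset.exists_min_image G τ hG
      have hGF : ∀ i ∈ G, i ∈ F := by
        intro i hi
        by_contra hiF
        simp only [G, Finset.mem_filter, Finset.mem_univ, true_and] at hi
        exact hi (hzF i hiF)
      have hτpos : ∀ i ∈ G, 0 < τ i := by
        intro i hi
        have hiF := (hF i).mp (hGF i hi)
        simp only [G, Finset.mem_filter, Finset.mem_univ, true_and] at hi
        by_cases hz : 0 < z i
        · simp only [τ, if_pos hz]
          apply div_pos _ hz
          linarith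
        · simp only [τ, if_neg hz]
          have : z i < 0 := lt_of_le_of_ne (not_lt.mp hz) hi
          apply div_pos_of_neg_of_neg _ this
          linarith
      let t := τ i₁
      have ht : 0 < t := hτpos i₁ hi₁
      let u1 : ι → ℝ := fun i => u i + t * z i
      have hu1 : ∀ i, 0 ≤ u1 i ∧ u1 i ≤ 1 := by
        intro i
        by_cases hi : i ∈ G
        · have hm := hmin i hi
          have hiF := (hF i).mp (hGF i hi)
          by_cases hz : 0 < z i
          · have h1 : t * z i ≤ 1 - u i := by
              have h2 : t ≤ (1 - u i) / z i := by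
                have : τ i = (1 - u i) / z i := by simp only [τ, if_pos hz]
                rw [← this]; exact hm
              calc t * z i ≤ (1 - u i) / z i * z i := by
                    apply mul_le_mul_of_nonneg_right h2 hz.le
                _ = 1 - u i := div_mul_cancel₀ _ hz.ne'
            have h3 : 0 < t * z i := mul_pos ht hz
            simp only [u1]
            constructor <;> linarith
          · have hzn : z i < 0 := by
              simp only [G, Finset.mem_filter, Finset.mem_univ, true_and] at hi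
              exact lt_of_le_of_ne (not_lt.mp hz) hi
            have h1 : - u i ≤ t * z i := by
              have h2 : t ≤ (- u i) / z i := by
                have : τ i = (- u i) / z i := by simp only [τ, if_neg hz]
                rw [← this]; exact hm
              calc - u i = (- u i) / z i * z i := (div_mul_cancel₀ _ hzn.ne).symm
                _ ≤ t * z i := by
                    apply mul_le_mul_of_nonpos_right h2 hzn.le
            have h3 : t * z i < 0 := mul_neg_of_pos_of_neg ht hzn
            simp only [u1]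
            constructor <;> linarith
        · have : z i = 0 := by
            simp only [G, Finset.mem_filter, Finset.mem_univ, true_and, not_not] at hi
            exact hi
          simp only [u1, this, mul_zero, add_zero]
          exact hu i
      have hi1 : ¬ (0 < u1 i₁ ∧ u1 i₁ < 1) := by
        have hiG := hi₁
        simp only [G, Finset.mem_filter, Finset.mem_univ, true_and] at hiG
        by_cases hz : 0 < z i₁
        · have : u1 i₁ = 1 := by
            simp only [u1, t, τ, if_pos hz]
            field_simp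
            ring
          rw [this]
          intro h
          exact lt_irrefl _ h.2
        · have : u1 i₁ = 0 := by
            simp only [u1, t, τ, if_neg hz]
            field_simp
            ring
          rw [this]
          intro h
          exact lt_irrefl _ h.1
      have hnotF : ∀ i, i ∉ F → u1 i = u i := by
        intro i hi
        simp only [u1, hzF i hi, mul_zero, add_zero]
      have hcard : (univ.filter (fun i => 0 < u1 i ∧ u1 i < 1)).card < n := by
        rw [← hn]
        apply Finset.card_lt_card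
        rw [Finset.ssubset_iff_of_subset]
        · refine ⟨i₁, hGF i₁ hi₁, ?_⟩
          simpa using hi1
        · intro i hi
          by_contra hiF
          have e := hnotF i (by simpa [F] using hiF)
          simp only [Finset.mem_filter, Finset.mem_univ, true_and] at hi hiF
          rw [e] at hi
          exact hiF hi
      obtain ⟨u', h1, h2, h3, h4, h5⟩ := ih _ hcard u1 hu1 rfl
      refine ⟨u', h1, ?_, ?_, ?_, h5⟩
      · rw [h2]
        simp only [u1, add_smul, Finset.sum_add_distrib, mul_smul]
        rw [← Finset.smul_sum, hz0, smul_zero, add_zero]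
      · intro i hi
        apply h3
        rw [hnotF i _, hi]
        rw [hF, hi]
        intro h
        exact lt_irrefl _ h.1
      · intro i hi
        apply h4
        rw [hnotF i _, hi]
        rw [hF, hi]
        intro h
        exact lt_irrefl _ h.2

/-! ### The four point lemma -/

section four

variable (M : ℝ) (p θ : Fin 4 → ℝ)

/-- `y` and its complement -/
def yy : ℝ := ∑ k, θ k * p k

def yc : ℝ := ∑ k, (1 - θ k) * p k

/-- `k` is blocked for `y` -/
def Bl (y : ℝ) (k : Fin 4) : Prop := ¬ (0 ≤ y - p k ∧ y - p k ≤ M)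

end four

/-- two elements blocked by the same coordinate have small total weight -/
lemma fact1 (M : ℝ) (p θ : Fin 4 → ℝ) (hp : ∀ k, 0 ≤ p k ∧ p k ≤ M)
    (hθ : ∀ k, 0 < θ k ∧ θ k < 1) (hs : ∑ k, θ k = 2) (a b : Fin 4) (hab : a ≠ b)
    (ha : Bl M p (yy p θ) a) (hb : Bl M p (yy p θ) b) : θ a + θ b < 1 := by
  have hM : 0 ≤ M := (hp 0).1.trans (hp 0).2
  -- general bounds
  have hlow : θ a * p a + θ b * p b ≤ yy p θ := by
    unfold yy
    have h1 : ∑ k ∈ ({a, b} : Finset (Fin 4)), θ k * p k ≤ ∑ k, θ k * p k := by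
      apply Finset.sum_le_sum_of_subset_of_nonneg (Finset.subset_univ _)
      intro k _ _
      exact mul_nonneg (hθ k).1.le (hp k).1
    rwa [Finset.sum_pair hab] at h1
  have hhigh : θ a * (M - p a) + θ b * (M - p b) ≤ 2 * M - yy p θ := by
    have h1 : ∑ k ∈ ({a, b} : Finset (Fin 4)), θ k * (M - p k) ≤ ∑ k, θ k * (M - p k) := by
      apply Finset.sum_le_sum_of_subset_of_nonneg (Finset.subset_univ _)
      intro k _ _
      exact mul_nonneg (hθ k).1.le (by linarith [(hp k).2])
    rw [Finset.sum_pair hab] at h1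
    have h2 : ∑ k, θ k * (M - p k) = 2 * M - yy p θ := by
      unfold yy
      simp only [mul_sub, Finset.sum_sub_distrib]
      rw [← Finset.sum_mul, hs]
    linarith
  unfold Bl at ha hb
  rw [not_and_or, not_le, not_le] at ha hb
  have pa := hp a
  have pb := hp b
  have ta := hθ a
  have tb := hθ b
  obtain ⟨y, hy⟩ : ∃ y, y = yy p θ := ⟨_, rfl⟩
  rw [← hy] at hlow hhigh ha hb
  rcases ha with ha | ha <;> rcases hb with hb | hb
  · -- both low
    by_contra hcon
    push Not at hcon
    have h1 : θ a * y < θ a * p a := by nlinarith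
    have h2 : θ b * y < θ b * p b := by nlinarith
    have hy0 : 0 ≤ y := by nlinarith
    nlinarith
  · -- low and high are incompatible
    exfalso
    have : y < M := by linarith
    have : M < y := by linarith
    linarith
  · exfalso
    have : y < M := by linarith
    have : M < y := by linarith
    linarith
  · by_contra hcon
    push Not at hcon
    have h1 : θ a * (2 * M - y) < θ a * (M - p a) := by nlinarith
    have h2 : θ b * (2 * M - y) < θ b * (M - p b) := by nlinarith
    have hy0 : 0 ≤ 2 * M - y := by nlinarith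
    nlinarith

lemma yc_eq (p θ : Fin 4 → ℝ) : yc p θ = ∑ k, p k - yy p θ := by
  unfold yc yy
  rw [← Finset.sum_sub_distrib]
  exact Finset.sum_congr rfl (fun k _ => by ring)

/-- the key incompatibility, low for `y` and high for the complement -/
lemma fact2_aux (M : ℝ) (p θ : Fin 4 → ℝ) (hp : ∀ k, 0 ≤ p k ∧ p k ≤ M)
    (hθ : ∀ k, 0 < θ k ∧ θ k < 1)
    (a b c d : Fin 4) (hall : ∀ f : Fin 4 → ℝ, ∑ k, f k = f a + f b + f c + f d)
    (hc : 1 ≤ θ a + θ c) (hd : 1 ≤ θ a + θ d)
    (ha : yy p θ < p a) (hb : M < yc p θ - p b) : False := by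
  unfold yy at ha
  unfold yc at hb
  rw [hall] at ha hb
  have pa := hp a
  have pb := hp b
  have pc := hp c
  have pd := hp d
  have ta := hθ a
  have tb := hθ b
  have tc := hθ c
  have td := hθ d
  -- θ c p c + θ d p d < (1 - θ a) p a ≤ (1 - θ a) M
  have h1 : θ c * p c + θ d * p d < (1 - θ a) * p a := by nlinarith
  have h1' : (1 - θ a) * p a ≤ (1 - θ a) * M := by nlinarith
  have h2 : M < (1 - θ a) * p a + (1 - θ c) * p c + (1 - θ d) * p d := by nlinarith
  have h3 : (1 - θ a) * (p c + p d) ≤ θ c * p c + θ d * p d := by nlinarith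
  have h4 : (1 - θ c) * p c + (1 - θ d) * p d ≤ θ a * (p c + p d) := by nlinarith
  have h5 : p c + p d < M := by
    by_contra hcon
    push Not at hcon
    nlinarith
  nlinarith

lemma yy_compl (M : ℝ) (p θ : Fin 4 → ℝ) (hs : ∑ k, θ k = 2) :
    yy (fun k => M - p k) θ = 2 * M - yy p θ := by
  unfold yy
  simp only [mul_sub, Finset.sum_sub_distrib]
  rw [← Finset.sum_mul, hs]

lemma yc_compl (M : ℝ) (p θ : Fin 4 → ℝ) (hs : ∑ k, θ k = 2) :
    yc (fun k => M - p k) θ = 2 * M - yc p θ := by
  unfold yc
  have h1 : ∑ k, (1 - θ k) = 2 := by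
    rw [Finset.sum_sub_distrib, hs]; simp; norm_num
  simp only [mul_sub, Finset.sum_sub_distrib]
  rw [← Finset.sum_mul, h1]

lemma fact2 (M : ℝ) (p θ : Fin 4 → ℝ) (hp : ∀ k, 0 ≤ p k ∧ p k ≤ M)
    (hθ : ∀ k, 0 < θ k ∧ θ k < 1) (hs : ∑ k, θ k = 2)
    (a b c d : Fin 4) (hall : ∀ f : Fin 4 → ℝ, ∑ k, f k = f a + f b + f c + f d)
    (hc : 1 ≤ θ a + θ c) (hd : 1 ≤ θ a + θ d)
    (ha : Bl M p (yy p θ) a) (hb : Bl M p (yc p θ) b) : False := by
  unfold Bl at ha hb
  rw [not_and_or, not_le, not_le] at ha hb
  have pa := hp a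
  have pb := hp b
  have pc := hp c
  have pd := hp d
  have hsum : yy p θ + yc p θ = p a + p b + p c + p d := by
    rw [yc_eq, hall p]; ring
  rcases ha with ha | ha <;> rcases hb with hb | hb
  · linarith
  · exact fact2_aux M p θ hp hθ a b c d hall hc hd (by linarith) hb
  · have hp' : ∀ k, 0 ≤ M - p k ∧ M - p k ≤ M := fun k => ⟨by linarith [(hp k).2], by linarith [(hp k).1]⟩
    apply fact2_aux M (fun k => M - p k) θ hp' hθ a b c d hall hc hd
    · rw [yy_compl M p θ hs]; linarith
    · rw [yc_compl M p θ hs]; linarith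
  · linarith

/-- Among four weights in `(0,1)` of sum `2`, there is one such that the other three have all
pairwise sums at least `1`, or all pairwise sums at most `1`. -/
lemma exists_special (θ : Fin 4 → ℝ) (hs : ∑ k, θ k = 2) :
    ∃ e : Fin 4, (∀ x c, x ≠ e → c ≠ e → x ≠ c → 1 ≤ θ x + θ c) ∨
      (∀ x c, x ≠ e → c ≠ e → x ≠ c → θ x + θ c ≤ 1) := by
  obtain ⟨e, -, he⟩ := Finset.exists_min_image (univ : Finset (Fin 4)) θ ⟨0, mem_univ _⟩
  obtain ⟨d, -, hd⟩ := Finset.exists_max_image (univ : Finset (Fin 4)) θ ⟨0, mem_univ _⟩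
  have he' : ∀ k, θ e ≤ θ k := fun k => he k (mem_univ k)
  have hd' : ∀ k, θ k ≤ θ d := fun k => hd k (mem_univ k)
  rw [Fin.sum_univ_four] at hs
  rcases le_or_gt (θ e + θ d) 1 with h | h
  · refine ⟨e, Or.inl ?_⟩
    intro x c hx hc hxc
    have h0 := he' 0
    have h1 := he' 1
    have h2 := he' 2
    have h3 := he' 3
    have g0 := hd' 0
    have g1 := hd' 1
    have g2 := hd' 2
    have g3 := hd' 3
    fin_cases e <;> fin_cases x <;> fin_cases c <;> simp at hx hc hxc h0 h1 h2 h3 h ⊢ <;> linarith
  · refine ⟨d, Or.inr ?_⟩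
    intro x c hx hc hxc
    have h0 := he' 0
    have h1 := he' 1
    have h2 := he' 2
    have h3 := he' 3
    have g0 := hd' 0
    have g1 := hd' 1
    have g2 := hd' 2
    have g3 := hd' 3
    fin_cases d <;> fin_cases x <;> fin_cases c <;> simp at hx hc hxc g0 g1 g2 g3 h ⊢ <;> linarith

lemma sum_perm (a b c d : Fin 4) (hab : a ≠ b) (hac : a ≠ c) (had : a ≠ d) (hbc : b ≠ c)
    (hbd : b ≠ d) (hcd : c ≠ d) (f : Fin 4 → ℝ) : ∑ k, f k = f a + f b + f c + f d := by
  have h : (univ : Finset (Fin 4)) = {a, b, c, d} := by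
    symm
    rw [← Finset.card_eq_iff_eq_univ, Fintype.card_fin]
    rw [Finset.card_insert_of_notMem (by simp [hab, hac, had]),
      Finset.card_insert_of_notMem (by simp [hbc, hbd]),
      Finset.card_insert_of_notMem (by simp [hcd]), Finset.card_singleton]
  rw [h, Finset.sum_insert (by simp [hab, hac, had]), Finset.sum_insert (by simp [hbc, hbd]),
    Finset.sum_insert (by simp [hcd]), Finset.sum_singleton]
  ring

lemma two_others : ∀ x e : Fin 4, x ≠ e →
    ∃ c d : Fin 4, x ≠ c ∧ x ≠ d ∧ e ≠ c ∧ e ≠ d ∧ c ≠ d := by decide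

lemma four_aux {R : Type*} [Fintype R] [DecidableEq R] (hR : Fintype.card R ≤ 3) (M : R → ℝ)
    (p : Fin 4 → R → ℝ) (θ : Fin 4 → ℝ) (hp : ∀ k r, 0 ≤ p k r ∧ p k r ≤ M r)
    (hθ : ∀ k, 0 < θ k ∧ θ k < 1) (hs : ∑ k, θ k = 2) (e : Fin 4)
    (he : ∀ x c, x ≠ e → c ≠ e → x ≠ c → 1 ≤ θ x + θ c)
    (h1 : ∀ k, ∃ r, Bl (M r) (fun k => p k r) (yy (fun k => p k r) θ) k)
    (h2 : ∀ k, ∃ r, Bl (M r) (fun k => p k r) (yc (fun k => p k r) θ) k) : False := by
  choose ρ hρ using h1
  have hinj : Set.InjOn ρ ((univ : Finset (Fin 4)).erase e : Finset (Fin 4)) := by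
    intro x hx c hc hxc
    by_contra hne
    simp only [Finset.coe_erase, Finset.coe_univ, Set.mem_sdiff, Set.mem_univ, true_and,
      Set.mem_singleton_iff] at hx hc
    have hb := hρ c
    rw [← hxc] at hb
    have := fact1 (M (ρ x)) (fun k => p k (ρ x)) θ (fun k => hp k _) hθ hs x c hne (hρ x) hb
    have := he x c hx hc hne
    linarith
  have hcard : (((univ : Finset (Fin 4)).erase e).image ρ).card = 3 := by
    rw [Finset.card_image_of_injOn hinj, Finset.card_erase_of_mem (mem_univ _), Finset.card_univ,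
      Fintype.card_fin]
  obtain ⟨r, hr⟩ := h2 e
  have hmem : r ∈ ((univ : Finset (Fin 4)).erase e).image ρ := by
    have : ((univ : Finset (Fin 4)).erase e).image ρ = univ := by
      apply Finset.eq_univ_of_card
      have := Finset.card_le_univ (((univ : Finset (Fin 4)).erase e).image ρ)
      omega
    rw [this]
    exact mem_univ _
  rw [Finset.mem_image] at hmem
  obtain ⟨x, hx, rfl⟩ := hmem
  have hxe : x ≠ e := Finset.ne_of_mem_erase hx
  -- the two other elements
  obtain ⟨c, d, hxc, hxd, hec, hed, hcd⟩ : ∃ c d : Fin 4, x ≠ c ∧ x ≠ d ∧ e ≠ c ∧ e ≠ d ∧ c ≠ d := by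
    exact two_others x e hxe
  exact fact2 (M (ρ x)) (fun k => p k (ρ x)) θ (fun k => hp k _) hθ hs x e c d
    (sum_perm x e c d hxe hxc hxd hec hed hcd) (he x c hxe hec.symm hxc) (he x d hxe hed.symm hxd)
    (hρ x) hr

/-- **Four point lemma.** Let `p_1, ..., p_4` be points of a box with at most three coordinates,
`θ_k ∈ (0,1)` with sum `2`, `y = ∑ θ_k p_k` and `y' = ∑ (1 - θ_k) p_k`. Then some `y - p_k` or some
`y' - p_k` lies in the box. -/
theorem four_point {R : Type*} [Fintype R] [DecidableEq R] (hR : Fintype.card R ≤ 3) (M : R → ℝ)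
    (p : Fin 4 → R → ℝ) (θ : Fin 4 → ℝ) (hp : ∀ k r, 0 ≤ p k r ∧ p k r ≤ M r)
    (hθ : ∀ k, 0 < θ k ∧ θ k < 1) (hs : ∑ k, θ k = 2) :
    (∃ k, ∀ r, 0 ≤ (∑ m, θ m * p m r) - p k r ∧ (∑ m, θ m * p m r) - p k r ≤ M r) ∨
    (∃ k, ∀ r, 0 ≤ (∑ m, (1 - θ m) * p m r) - p k r ∧
      (∑ m, (1 - θ m) * p m r) - p k r ≤ M r) := by
  by_contra hcon
  rw [not_or] at hcon
  obtain ⟨h1, h2⟩ := hcon
  push Not at h1 h2
  have h1' : ∀ k, ∃ r, Bl (M r) (fun k => p k r) (yy (fun k => p k r) θ) k := by
    intro k
    obtain ⟨r, hr⟩ := h1 k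
    refine ⟨r, ?_⟩
    rintro ⟨h3, h4⟩
    have := hr h3
    unfold yy at h4
    linarith
  have h2' : ∀ k, ∃ r, Bl (M r) (fun k => p k r) (yc (fun k => p k r) θ) k := by
    intro k
    obtain ⟨r, hr⟩ := h2 k
    refine ⟨r, ?_⟩
    rintro ⟨h3, h4⟩
    have := hr h3
    unfold yc at h4
    linarith
  obtain ⟨e, he | he⟩ := exists_special θ hs
  · exact four_aux hR M p θ hp hθ hs e he h1' h2'
  · -- replace `θ` by `1 - θ`
    have hs' : ∑ k, (1 - θ k) = 2 := by
      rw [Finset.sum_sub_distrib, hs]; simp; norm_num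
    have e1 : ∀ r, yy (fun k => p k r) (fun k => 1 - θ k) = yc (fun k => p k r) θ := fun r => rfl
    have e2 : ∀ r, yc (fun k => p k r) (fun k => 1 - θ k) = yy (fun k => p k r) θ := by
      intro r
      unfold yc yy
      exact Finset.sum_congr rfl (fun k _ => by ring)
    apply four_aux hR M p (fun k => 1 - θ k) hp (fun k => ⟨by linarith [(hθ k).2], by
      linarith [(hθ k).1]⟩) hs' e
    · intro x c hx hc hxc
      have := he x c hx hc hxc
      linarith
    · intro k
      obtain ⟨r, hr⟩ := h2' k
      exact ⟨r, by rw [e1]; exact hr⟩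
    · intro k
      obtain ⟨r, hr⟩ := h1' k
      exact ⟨r, by rw [e2]; exact hr⟩

end Pool.Agent.H38.Round
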