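import Mathlib
import Pool.Agent.H38.SGRound

/-!
Long trades in a box with at most three coordinates can be shortened.
-/

open Finset

namespace Pool.Agent.H38.Round

section

variable {R : Type*} [Fintype R] [DecidableEq R] {N : ℕ}

/-- the conclusion: a balanced proper subtrade, or an intermediate point in the box -/
def Short (M : R → ℝ) (w l : Fin N → R → ℝ) : Prop :=
  (∃ A B : Finset (Fin N), A.card = B.card ∧ 1 ≤ A.card ∧ A.card < N ∧
    ∀ r, ∑ i ∈ A, w i r = ∑ i ∈ B, l i r) ∨
  (∃ A B : Finset (Fin N), B.card = A.card + 1 ∧ 1 ≤ A.card ∧ A.card + 2 ≤ N ∧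
    ∀ r, 0 ≤ ∑ i ∈ B, l i r - ∑ i ∈ A, w i r ∧ ∑ i ∈ B, l i r - ∑ i ∈ A, w i r ≤ M r)

lemma short_of_wform (M : R → ℝ) (w l : Fin N → R → ℝ) (hsum : ∀ r, ∑ i, w i r = ∑ i, l i r)
    (A B : Finset (Fin N)) (hAB : A.card = B.card + 1) (hA : 2 ≤ A.card) (hA' : A.card + 1 ≤ N)
    (hx : ∀ r, 0 ≤ ∑ i ∈ A, w i r - ∑ i ∈ B, l i r ∧
      ∑ i ∈ A, w i r - ∑ i ∈ B, l i r ≤ M r) : Short M w l := by
  right
  have cA : Aᶜ.card = N - A.card := by rw [Finset.card_compl, Fintype.card_fin]
  have cB : Bᶜ.card = N - B.card := by rw [Finset.card_compl, Fintype.card_fin]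
  refine ⟨Aᶜ, Bᶜ, by omega, by omega, by omega, ?_⟩
  intro r
  have h1 : ∑ i ∈ A, w i r + ∑ i ∈ Aᶜ, w i r = ∑ i, w i r := Finset.sum_add_sum_compl A _
  have h2 : ∑ i ∈ B, l i r + ∑ i ∈ Bᶜ, l i r = ∑ i, l i r := Finset.sum_add_sum_compl B _
  have h3 := hsum r
  obtain ⟨h4, h5⟩ := hx r
  constructor <;> linarith

/-- splitting of a weighted sum -/
lemma sum_split (u : Fin N → ℝ) (hu : ∀ i, 0 ≤ u i ∧ u i ≤ 1) (f : Fin N → ℝ) :
    ∑ i, u i * f i = ∑ i ∈ univ.filter (fun i => u i = 1), f i +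
      ∑ i ∈ univ.filter (fun i => 0 < u i ∧ u i < 1), u i * f i := by
  rw [Finset.sum_filter, Finset.sum_filter, ← Finset.sum_add_distrib]
  apply Finset.sum_congr rfl
  intro i _
  obtain ⟨h0, h1⟩ := hu i
  rcases h0.eq_or_lt with h | h
  · rw [← h]; simp
  · rcases h1.eq_or_lt with h' | h'
    · rw [h']; simp
    · rw [if_neg h'.ne, if_pos ⟨h, h'⟩]; ring

end

section main

variable {R : Type*} [Fintype R] [DecidableEq R] {N : ℕ}

/-- The combination step. -/
theorem short_of_round (hR : Fintype.card R ≤ 3) (M : R → ℝ) (w l : Fin N → R → ℝ)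
    (hw : ∀ i r, 0 ≤ w i r ∧ w i r ≤ M r) (hl : ∀ i r, 0 ≤ l i r ∧ l i r ≤ M r)
    (hsum : ∀ r, ∑ i, w i r = ∑ i, l i r)
    (uw ul : Fin N → ℝ) (huw : ∀ i, 0 ≤ uw i ∧ uw i ≤ 1) (hul : ∀ i, 0 ≤ ul i ∧ ul i ≤ 1)
    (hbal : ∑ i, uw i = ∑ i, ul i) (hker : ∀ r, ∑ i, uw i * w i r = ∑ i, ul i * l i r)
    (hF : (univ.filter (fun i => 0 < uw i ∧ uw i < 1)).card +
      (univ.filter (fun i => 0 < ul i ∧ ul i < 1)).card ≤ 4)
    (hA3 : 3 ≤ (univ.filter (fun i => uw i = 1)).card)
    (hB3 : 3 ≤ (univ.filter (fun i => ul i = 1)).card)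
    (hA0 : (univ.filter (fun i => uw i = 1)).card +
      (univ.filter (fun i => 0 < uw i ∧ uw i < 1)).card + 3 ≤ N)
    (hB0 : (univ.filter (fun i => ul i = 1)).card +
      (univ.filter (fun i => 0 < ul i ∧ ul i < 1)).card + 3 ≤ N) : Short M w l := by
  classical
  obtain ⟨A1, hA1⟩ : ∃ s, s = univ.filter (fun i => uw i = 1) := ⟨_, rfl⟩
  obtain ⟨B1, hB1⟩ : ∃ s, s = univ.filter (fun i => ul i = 1) := ⟨_, rfl⟩
  obtain ⟨Af, hAf⟩ : ∃ s, s = univ.filter (fun i => 0 < uw i ∧ uw i < 1) := ⟨_, rfl⟩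
  obtain ⟨Bf, hBf⟩ : ∃ s, s = univ.filter (fun i => 0 < ul i ∧ ul i < 1) := ⟨_, rfl⟩
  rw [← hA1] at hA3 hA0
  rw [← hB1] at hB3 hB0
  rw [← hAf] at hF hA0
  rw [← hBf] at hF hB0
  have hdA : Disjoint A1 Af := by
    rw [hA1, hAf, Finset.disjoint_filter]
    rintro i _ h ⟨_, h'⟩
    linarith
  have hdB : Disjoint B1 Bf := by
    rw [hB1, hBf, Finset.disjoint_filter]
    rintro i _ h ⟨_, h'⟩
    linarith
  -- splitting formulas
  have sA : ∀ f : Fin N → ℝ, ∑ i, uw i * f i = ∑ i ∈ A1, f i + ∑ i ∈ Af, uw i * f i := by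
    intro f; rw [hA1, hAf]; exact sum_split uw huw f
  have sB : ∀ f : Fin N → ℝ, ∑ i, ul i * f i = ∑ i ∈ B1, f i + ∑ i ∈ Bf, ul i * f i := by
    intro f; rw [hB1, hBf]; exact sum_split ul hul f
  -- the fractional elements
  let P : (Fin N ⊕ Fin N) → R → ℝ := Sum.elim w l
  let θ : (Fin N ⊕ Fin N) → ℝ := Sum.elim uw (fun j => 1 - ul j)
  let F : Finset (Fin N ⊕ Fin N) := Af.disjSum Bf
  have hFc : F.card = Af.card + Bf.card := Finset.card_disjSum _ _
  have hθ : ∀ k ∈ F, 0 < θ k ∧ θ k < 1 := by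
    intro k hk
    rcases k with i | j
    · have : i ∈ Af := by simpa [F] using hk
      rw [hAf, Finset.mem_filter] at this
      exact this.2
    · have : j ∈ Bf := by simpa [F] using hk
      rw [hBf, Finset.mem_filter] at this
      simp only [θ, Sum.elim_inr]
      constructor <;> linarith [this.2.1, this.2.2]
  have hP : ∀ k r, 0 ≤ P k r ∧ P k r ≤ M r := by
    rintro (i | j) r
    · exact hw i r
    · exact hl j r
  -- total weight
  have hφ : ∑ k ∈ F, θ k = (B1.card : ℝ) + Bf.card - A1.card := by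
    have h1 := sA (fun _ => 1)
    have h2 := sB (fun _ => 1)
    simp only [mul_one, Finset.sum_const, nsmul_eq_mul] at h1 h2
    simp only [F, θ, Finset.sum_disjSum, Sum.elim_inl, Sum.elim_inr, Finset.sum_sub_distrib,
      Finset.sum_const, nsmul_eq_mul, mul_one]
    linarith
  have hy : ∀ r, ∑ k ∈ F, θ k * P k r = ∑ i ∈ B1 ∪ Bf, l i r - ∑ i ∈ A1, w i r := by
    intro r
    have h1 := sA (fun i => w i r)
    have h2 := sB (fun i => l i r)
    have h3 := hker r
    rw [Finset.sum_union hdB]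
    simp only [F, θ, P, Finset.sum_disjSum, Sum.elim_inl, Sum.elim_inr, sub_mul, one_mul,
      Finset.sum_sub_distrib]
    linarith
  have hy' : ∀ r, ∑ k ∈ F, (1 - θ k) * P k r = ∑ i ∈ A1 ∪ Af, w i r - ∑ i ∈ B1, l i r := by
    intro r
    have h1 := hy r
    have h2 : ∑ k ∈ F, (1 - θ k) * P k r = ∑ k ∈ F, P k r - ∑ k ∈ F, θ k * P k r := by
      rw [← Finset.sum_sub_distrib]
      exact Finset.sum_congr rfl (fun k _ => by ring)
    rw [h2, h1, Finset.sum_union hdB, Finset.sum_union hdA]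
    simp only [F, P, Finset.sum_disjSum, Sum.elim_inl, Sum.elim_inr]
    ring
  have cU : (B1 ∪ Bf).card = B1.card + Bf.card := Finset.card_union_of_disjoint hdB
  have cV : (A1 ∪ Af).card = A1.card + Af.card := Finset.card_union_of_disjoint hdA
  -- case F empty
  rcases F.eq_empty_or_nonempty with hF0 | hFne
  · left
    have hAf0 : Af.card = 0 := by
      have : F.card = 0 := by rw [hF0]; rfl
      omega
    have hBf0 : Bf.card = 0 := by
      have : F.card = 0 := by rw [hF0]; rfl
      omega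
    have hAfe : Af = ∅ := Finset.card_eq_zero.mp hAf0
    have hBfe : Bf = ∅ := Finset.card_eq_zero.mp hBf0
    refine ⟨A1, B1, ?_, by omega, by omega, ?_⟩
    · rw [hF0, Finset.sum_empty, hBf0] at hφ
      have : (A1.card : ℝ) = B1.card := by push_cast at hφ; linarith
      exact_mod_cast this
    · intro r
      have := hy r
      rw [hF0, Finset.sum_empty, hBfe, Finset.union_empty] at this
      linarith
  -- bounds for the weight
  have hφpos : 0 < ∑ k ∈ F, θ k := Finset.sum_pos (fun k hk => (hθ k hk).1) hFne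
  have hφlt : ∑ k ∈ F, θ k < F.card := by
    have : ∑ k ∈ F, θ k < ∑ k ∈ F, (1 : ℝ) := Finset.sum_lt_sum_of_nonempty hFne
      (fun k hk => (hθ k hk).2)
    simpa using this
  rw [hφ] at hφpos hφlt
  have n1 : A1.card < B1.card + Bf.card := by
    have : (A1.card : ℝ) < B1.card + Bf.card := by linarith
    exact_mod_cast this
  have n2 : B1.card < A1.card + Af.card := by
    rw [hFc] at hφlt
    push_cast at hφlt
    have : (B1.card : ℝ) < A1.card + Af.card := by linarith
    exact_mod_cast this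
  -- upper bound for convex combinations
  have conv : ∀ c : (Fin N ⊕ Fin N) → ℝ, (∀ k ∈ F, 0 ≤ c k) → ∑ k ∈ F, c k = 1 → ∀ r,
      0 ≤ ∑ k ∈ F, c k * P k r ∧ ∑ k ∈ F, c k * P k r ≤ M r := by
    intro c hc hc1 r
    constructor
    · exact Finset.sum_nonneg (fun k hk => mul_nonneg (hc k hk) (hP k r).1)
    · calc ∑ k ∈ F, c k * P k r ≤ ∑ k ∈ F, c k * M r :=
          Finset.sum_le_sum (fun k hk => mul_le_mul_of_nonneg_left (hP k r).2 (hc k hk))
        _ = M r := by rw [← Finset.sum_mul, hc1, one_mul]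
  by_cases hc1 : B1.card + Bf.card = A1.card + 1
  · -- weight one
    right
    refine ⟨A1, B1 ∪ Bf, by omega, by omega, by omega, ?_⟩
    intro r
    have h1 : ∑ k ∈ F, θ k = 1 := by
      rw [hφ]
      have : (B1.card : ℝ) + Bf.card = A1.card + 1 := by exact_mod_cast hc1
      linarith
    have := conv θ (fun k hk => (hθ k hk).1.le) h1 r
    rw [hy r] at this
    exact this
  by_cases hc2 : A1.card + Af.card = B1.card + 1
  · -- complementary weight one
    apply short_of_wform M w l hsum (A1 ∪ Af) B1 (by omega) (by omega) (by omega)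
    intro r
    have h1 : ∑ k ∈ F, (1 - θ k) = 1 := by
      rw [Finset.sum_sub_distrib, hφ]
      simp only [Finset.sum_const, nsmul_eq_mul, mul_one, hFc]
      have : (A1.card : ℝ) + Af.card = B1.card + 1 := by exact_mod_cast hc2
      push_cast
      linarith
    have := conv (fun k => 1 - θ k) (fun k hk => by
      have := (hθ k hk).2
      linarith) h1 r
    rw [hy' r] at this
    exact this
  -- four fractional elements of total weight two
  have hF4 : F.card = 4 := by omega
  have hU2 : B1.card + Bf.card = A1.card + 2 := by omega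
  have hV2 : A1.card + Af.card = B1.card + 2 := by omega
  have hφ2 : ∑ k ∈ F, θ k = 2 := by
    rw [hφ]
    have : (B1.card : ℝ) + Bf.card = A1.card + 2 := by exact_mod_cast hU2
    linarith
  let e : Fin 4 ≃ F := (F.equivFinOfCardEq hF4).symm
  have esum : ∀ f : (Fin N ⊕ Fin N) → ℝ, ∑ k : Fin 4, f (e k) = ∑ k ∈ F, f k := by
    intro f
    rw [Equiv.sum_comp e (fun x : F => f x), Finset.sum_coe_sort F f]
  have hfp := four_point hR M (fun k r => P (e k) r) (fun k => θ (e k)) (fun k r => hP _ r)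
    (fun k => hθ _ (e k).2) (by rw [esum θ]; exact hφ2)
  rcases hfp with ⟨k, hk⟩ | ⟨k, hk⟩
  · have hk' : ∀ r, 0 ≤ (∑ i ∈ B1 ∪ Bf, l i r - ∑ i ∈ A1, w i r) - P (e k) r ∧
        (∑ i ∈ B1 ∪ Bf, l i r - ∑ i ∈ A1, w i r) - P (e k) r ≤ M r := by
      intro r
      have h := hk r
      rw [esum (fun x => θ x * P x r), hy r] at h
      exact h
    have hkF := (e k).2
    obtain ⟨x, hx⟩ : ∃ x : (Fin N ⊕ Fin N), x = (e k : (Fin N ⊕ Fin N)) := ⟨_, rfl⟩
    rw [← hx] at hk' hkF
    right
    rcases x with i | j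
    · -- subtract a `w`
      have hi : i ∈ Af := by simpa [F] using hkF
      have hi1 : i ∉ A1 := fun h => (Finset.disjoint_left.mp hdA) h hi
      refine ⟨insert i A1, B1 ∪ Bf, ?_, ?_, ?_, ?_⟩
      · rw [Finset.card_insert_of_notMem hi1]; omega
      · rw [Finset.card_insert_of_notMem hi1]; omega
      · rw [Finset.card_insert_of_notMem hi1]; omega
      · intro r
        rw [Finset.sum_insert hi1]
        have := hk' r
        simp only [P, Sum.elim_inl] at this
        constructor <;> linarith [this.1, this.2]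
    · have hj : j ∈ B1 ∪ Bf := by
        have : j ∈ Bf := by simpa [F] using hkF
        exact Finset.mem_union_right _ this
      refine ⟨A1, (B1 ∪ Bf).erase j, ?_, by omega, by omega, ?_⟩
      · rw [Finset.card_erase_of_mem hj]; omega
      · intro r
        have h2 := Finset.sum_erase_add (B1 ∪ Bf) (fun i => l i r) hj
        have := hk' r
        simp only [P, Sum.elim_inr] at this
        constructor <;> linarith [this.1, this.2]
  · have hk' : ∀ r, 0 ≤ (∑ i ∈ A1 ∪ Af, w i r - ∑ i ∈ B1, l i r) - P (e k) r ∧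
        (∑ i ∈ A1 ∪ Af, w i r - ∑ i ∈ B1, l i r) - P (e k) r ≤ M r := by
      intro r
      have h := hk r
      rw [esum (fun x => (1 - θ x) * P x r), hy' r] at h
      exact h
    have hkF := (e k).2
    obtain ⟨x, hx⟩ : ∃ x : (Fin N ⊕ Fin N), x = (e k : (Fin N ⊕ Fin N)) := ⟨_, rfl⟩
    rw [← hx] at hk' hkF
    rcases x with i | j
    · have hi : i ∈ A1 ∪ Af := by
        have : i ∈ Af := by simpa [F] using hkF
        exact Finset.mem_union_right _ this
      apply short_of_wform M w l hsum ((A1 ∪ Af).erase i) B1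
      · rw [Finset.card_erase_of_mem hi]; omega
      · rw [Finset.card_erase_of_mem hi]; omega
      · rw [Finset.card_erase_of_mem hi]; omega
      · intro r
        have h2 := Finset.sum_erase_add (A1 ∪ Af) (fun i => w i r) hi
        have := hk' r
        simp only [P, Sum.elim_inl] at this
        constructor <;> linarith [this.1, this.2]
    · have hj : j ∈ Bf := by simpa [F] using hkF
      have hj1 : j ∉ B1 := fun h => (Finset.disjoint_left.mp hdB) h hj
      apply short_of_wform M w l hsum (A1 ∪ Af) (insert j B1)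
      · rw [Finset.card_insert_of_notMem hj1]; omega
      · omega
      · omega
      · intro r
        rw [Finset.sum_insert hj1]
        have := hk' r
        simp only [P, Sum.elim_inr] at this
        constructor <;> linarith [this.1, this.2]

/-- Trades of size at least `16` in a box with at most three coordinates can be shortened. -/
theorem short_of_long (hR : Fintype.card R ≤ 3) (M : R → ℝ) (hN : 16 ≤ N) (w l : Fin N → R → ℝ)
    (hw : ∀ i r, 0 ≤ w i r ∧ w i r ≤ M r) (hl : ∀ i r, 0 ≤ l i r ∧ l i r ≤ M r)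
    (hsum : ∀ r, ∑ i, w i r = ∑ i, l i r) : Short M w l := by
  classical
  let sg : (Fin N ⊕ Fin N) → ℝ := Sum.elim (fun _ => -1) (fun _ => 1)
  let P : (Fin N ⊕ Fin N) → R → ℝ := Sum.elim w l
  let v1 : (Fin N ⊕ Fin N) → ℝ × ℝ × (R → ℝ) := fun k =>
    (sg k, Sum.elim (fun _ => (1 : ℝ)) (fun _ => 0) k, fun r => sg k * P k r)
  let v2 : (Fin N ⊕ Fin N) → ℝ × (R → ℝ) := fun k => (sg k, fun r => sg k * P k r)
  obtain ⟨u1, hu1, hu1s, -, -, hu1c⟩ := exists_round v1 (fun _ => (1 / 2 : ℝ)) (fun _ => by norm_num)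
  have hd1 : Module.finrank ℝ (ℝ × ℝ × (R → ℝ)) ≤ 5 := by
    simp only [Module.finrank_prod, Module.finrank_self, Module.finrank_pi]
    omega
  have hd2 : Module.finrank ℝ (ℝ × (R → ℝ)) ≤ 4 := by
    simp only [Module.finrank_prod, Module.finrank_self, Module.finrank_pi]
    omega
  -- consequences for `u1`
  have e1 : ∑ i, u1 (Sum.inl i) = (N : ℝ) / 2 := by
    have := congrArg (fun x : ℝ × ℝ × (R → ℝ) => x.2.1) hu1s
    simp only [v1, Prod.snd_sum, Prod.fst_sum, Prod.smul_snd, Prod.smul_fst] at this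
    simp only [Fintype.sum_sum_type, Sum.elim_inl, Sum.elim_inr, smul_eq_mul, mul_one, mul_zero, Finset.sum_const_zero, add_zero,
      Finset.sum_const, Finset.card_univ, Fintype.card_fin, nsmul_eq_mul] at this
    rw [this]; ring
  have e2 : ∑ i, u1 (Sum.inr i) = (N : ℝ) / 2 := by
    have := congrArg (fun x : ℝ × ℝ × (R → ℝ) => x.1) hu1s
    simp only [v1, Prod.fst_sum, Prod.smul_fst] at this
    simp only [sg, Fintype.sum_sum_type, Sum.elim_inl, Sum.elim_inr, smul_eq_mul, mul_one, mul_neg,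
      Finset.sum_const, Finset.card_univ, Fintype.card_fin, nsmul_eq_mul, Finset.sum_neg_distrib]
      at this
    linarith
  have e3 : ∀ r, ∑ k, u1 k * (sg k * P k r) = 0 := by
    intro r
    have := congrArg (fun x : ℝ × ℝ × (R → ℝ) => x.2.2 r) hu1s
    simp only [v1, Prod.snd_sum, Prod.smul_snd, Finset.sum_apply, Pi.smul_apply, smul_eq_mul]
      at this
    rw [this, ← Finset.mul_sum, Fintype.sum_sum_type]
    simp only [sg, P, Sum.elim_inl, Sum.elim_inr, neg_mul, one_mul, Finset.sum_neg_distrib]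
    rw [hsum r]
    ring
  obtain ⟨u2, hu2, hu2s, hu20, hu21, hu2c⟩ := exists_round v2 u1 hu1
  have f1 : ∑ i, u2 (Sum.inl i) = ∑ i, u2 (Sum.inr i) := by
    have := congrArg (fun x : ℝ × (R → ℝ) => x.1) hu2s
    simp only [v2, Prod.fst_sum, Prod.smul_fst] at this
    simp only [sg, Fintype.sum_sum_type, Sum.elim_inl, Sum.elim_inr, smul_eq_mul, mul_one, mul_neg, Finset.sum_neg_distrib] at this
    rw [e1, e2] at this
    linarith
  have f2 : ∀ r, ∑ i, u2 (Sum.inl i) * w i r = ∑ i, u2 (Sum.inr i) * l i r := by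
    intro r
    have := congrArg (fun x : ℝ × (R → ℝ) => x.2 r) hu2s
    simp only [v2, Prod.snd_sum, Prod.smul_snd, Finset.sum_apply, Pi.smul_apply, smul_eq_mul]
      at this
    rw [e3 r, Fintype.sum_sum_type] at this
    simp only [sg, P, Sum.elim_inl, Sum.elim_inr, neg_mul, one_mul, mul_neg,
      Finset.sum_neg_distrib] at this
    linarith
  -- counting
  have hfrac : ∀ u : (Fin N ⊕ Fin N) → ℝ, (univ.filter (fun k => 0 < u k ∧ u k < 1)).card =
      (univ.filter (fun i => 0 < u (Sum.inl i) ∧ u (Sum.inl i) < 1)).card +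
      (univ.filter (fun i => 0 < u (Sum.inr i) ∧ u (Sum.inr i) < 1)).card := by
    intro u
    rw [Finset.card_filter, Finset.card_filter, Finset.card_filter, Fintype.sum_sum_type]
  have hcount : ∀ a : Fin N → ℝ, (∀ i, 0 ≤ a i ∧ a i ≤ 1) → ∑ i, a i = (N : ℝ) / 2 →
      (univ.filter (fun i => 0 < a i ∧ a i < 1)).card ≤ 5 →
      3 ≤ (univ.filter (fun i => a i = 1)).card ∧ 3 ≤ (univ.filter (fun i => a i = 0)).card := by
    intro a ha hs hc
    have hN' : (16 : ℝ) ≤ N := by exact_mod_cast hN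
    have hc' : ((univ.filter (fun i => 0 < a i ∧ a i < 1)).card : ℝ) ≤ 5 := by exact_mod_cast hc
    have h1 := sum_split a ha (fun _ => 1)
    have h2 := sum_split (fun i => 1 - a i) (fun i => ⟨by linarith [(ha i).2], by
      linarith [(ha i).1]⟩) (fun _ => 1)
    simp only [mul_one, Finset.sum_const, nsmul_eq_mul] at h1 h2
    have h3 : ∑ i ∈ univ.filter (fun i => 0 < a i ∧ a i < 1), a i ≤
        (univ.filter (fun i => 0 < a i ∧ a i < 1)).card := by
      calc _ ≤ ∑ i ∈ univ.filter (fun i => 0 < a i ∧ a i < 1), (1 : ℝ) :=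
            Finset.sum_le_sum (fun i _ => (ha i).2)
        _ = _ := by simp
    have h4 : ∑ i ∈ univ.filter (fun i => 0 < 1 - a i ∧ 1 - a i < 1), (1 - a i) ≤
        (univ.filter (fun i => 0 < a i ∧ a i < 1)).card := by
      have e : univ.filter (fun i => 0 < 1 - a i ∧ 1 - a i < 1) =
          univ.filter (fun i => 0 < a i ∧ a i < 1) := by
        ext i
        simp only [Finset.mem_filter, Finset.mem_univ, true_and]
        constructor <;> rintro ⟨h, h'⟩ <;> constructor <;> linarith
      rw [e]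
      calc _ ≤ ∑ i ∈ univ.filter (fun i => 0 < a i ∧ a i < 1), (1 : ℝ) :=
            Finset.sum_le_sum (fun i _ => by linarith [(ha i).1])
        _ = _ := by simp
    have e : univ.filter (fun i => 1 - a i = 1) = univ.filter (fun i => a i = 0) := by
      ext i
      simp only [Finset.mem_filter, Finset.mem_univ, true_and]
      constructor <;> intro h <;> linarith
    rw [e] at h2
    have h5 : ∑ i, (1 - a i) = (N : ℝ) - N / 2 := by
      rw [Finset.sum_sub_distrib, hs]
      simp
    constructor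
    · have : (3 : ℝ) ≤ (univ.filter (fun i => a i = 1)).card := by linarith
      exact_mod_cast this
    · have : (3 : ℝ) ≤ (univ.filter (fun i => a i = 0)).card := by linarith
      exact_mod_cast this
  have hf1 := hfrac u1
  have hf2 := hfrac u2
  obtain ⟨a1, a0⟩ := hcount (fun i => u1 (Sum.inl i)) (fun i => hu1 _) e1 (by omega)
  obtain ⟨b1, b0⟩ := hcount (fun i => u1 (Sum.inr i)) (fun i => hu1 _) e2 (by omega)
  -- transfer to `u2`
  have tr1 : ∀ s : Fin N → (Fin N ⊕ Fin N), (univ.filter (fun i => u1 (s i) = 1)).card ≤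
      (univ.filter (fun i => u2 (s i) = 1)).card := by
    intro s
    apply Finset.card_le_card
    intro i hi
    simp only [Finset.mem_filter, Finset.mem_univ, true_and] at hi ⊢
    exact hu21 _ hi
  have tr0 : ∀ s : Fin N → (Fin N ⊕ Fin N), (univ.filter (fun i => u1 (s i) = 0)).card ≤
      (univ.filter (fun i => u2 (s i) = 0)).card := by
    intro s
    apply Finset.card_le_card
    intro i hi
    simp only [Finset.mem_filter, Finset.mem_univ, true_and] at hi ⊢
    exact hu20 _ hi
  have tot : ∀ a : Fin N → ℝ, (∀ i, 0 ≤ a i ∧ a i ≤ 1) →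
      (univ.filter (fun i => a i = 1)).card + (univ.filter (fun i => 0 < a i ∧ a i < 1)).card +
      (univ.filter (fun i => a i = 0)).card = N := by
    intro a ha
    rw [Finset.card_filter, Finset.card_filter, Finset.card_filter, ← Finset.sum_add_distrib,
      ← Finset.sum_add_distrib]
    have : ∀ i, (((if a i = 1 then 1 else 0) + if 0 < a i ∧ a i < 1 then 1 else 0) +
        if a i = 0 then 1 else 0 : ℕ) = 1 := by
      intro i
      obtain ⟨h0, h1⟩ := ha i
      rcases h0.eq_or_lt with h | h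
      · rw [← h]; simp
      · rcases h1.eq_or_lt with h' | h'
        · rw [h']; simp
        · rw [if_neg h'.ne, if_pos ⟨h, h'⟩, if_neg h.ne']
    rw [Finset.sum_congr rfl (fun i _ => this i)]
    simp
  have t1 := tr1 Sum.inl
  have t2 := tr1 Sum.inr
  have t3 := tr0 Sum.inl
  have t4 := tr0 Sum.inr
  have t5 := tot (fun i => u2 (Sum.inl i)) (fun i => hu2 _)
  have t6 := tot (fun i => u2 (Sum.inr i)) (fun i => hu2 _)
  apply short_of_round hR M w l hw hl hsum (fun i => u2 (Sum.inl i)) (fun i => u2 (Sum.inr i))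
    (fun i => hu2 _) (fun i => hu2 _) f1 f2
  · omega
  · omega
  · omega
  · omega
  · omega

end main

end Pool.Agent.H38.Round
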