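import Mathlib
import Pool.Agent.H38.SGDefs
import Pool.Agent.H38.SGAssign
import Pool.Agent.H38.SGShort

/-!
Games with at most three types of voters: `15`-trade robust implies trade robust.
-/

open Finset

namespace Pool.Agent.H38.SG

namespace SimpleGame

variable {N : Type} [Fintype N] [DecidableEq N] (G : SimpleGame N)

/-- a trade of size `j` -/
def HasTrade (j : ℕ) : Prop := ∃ X Y : Fin j → Finset N,
    (∀ i, X i ∈ G.win) ∧ (∀ i, Y i ∉ G.win) ∧
    ∀ v : N, (Finset.univ.filter (fun i => v ∈ X i)).card =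
      (Finset.univ.filter (fun i => v ∈ Y i)).card

lemma tradeRobust_iff (k : ℕ) : G.TradeRobust k ↔ ∀ j, 1 ≤ j → j ≤ k → ¬ G.HasTrade j := by
  unfold TradeRobust HasTrade
  constructor
  · intro h j h1 h2 h3
    exact h ⟨j, h1, h2, h3⟩
  · rintro h ⟨j, h1, h2, h3⟩
    exact h j h1 h2 h3

/-- the class map -/
def cls (v : N) : Quotient G.typeSetoid := Quotient.mk _ v

lemma cls_eq {v w : N} (h : G.cls v = G.cls w) : G.Geq v w ∧ G.Geq w v :=
  Quotient.exact h

end SimpleGame

section

variable {N R : Type} [Fintype N] [DecidableEq N] [DecidableEq R]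

lemma cnt_inter_sdiff (cls : N → R) (S T : Finset N) (r : R) :
    cnt cls S r = cnt cls (S ∩ T) r + cnt cls (S \ T) r := by
  unfold cnt
  rw [← Finset.card_union_of_disjoint]
  · congr 1
    ext v
    simp only [Finset.mem_filter, Finset.mem_union, Finset.mem_inter, Finset.mem_sdiff]
    tauto
  · rw [Finset.disjoint_left]
    intro v h1 h2
    simp only [Finset.mem_filter, Finset.mem_inter, Finset.mem_sdiff] at h1 h2
    exact h2.1.2 h1.1.2

lemma cnt_insert (cls : N → R) (S : Finset N) (v : N) (hv : v ∉ S) (r : R) :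
    cnt cls (insert v S) r = cnt cls S r + if cls v = r then 1 else 0 := by
  unfold cnt
  rw [Finset.filter_insert]
  split_ifs with h
  · rw [Finset.card_insert_of_notMem (by simp [hv])]
  · rfl

/-- winning only depends on the class counts, if members of the same class can be exchanged -/
theorem win_of_cnt (G : SimpleGame N) (cls : N → R)
    (hcls : ∀ v w, cls v = cls w → G.Geq v w) (n : ℕ) :
    ∀ S T : Finset N, (S \ T).card = n → (∀ r, cnt cls S r = cnt cls T r) →
      S ∈ G.win → T ∈ G.win := by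
  induction n with
  | zero =>
    intro S T hn hc hS
    rw [Finset.card_eq_zero, Finset.sdiff_eq_empty_iff_subset] at hn
    exact G.mono S T hS hn
  | succ n ih =>
    intro S T hn hc hS
    obtain ⟨v, hv⟩ : (S \ T).Nonempty := by
      rw [← Finset.card_pos]; omega
    rw [Finset.mem_sdiff] at hv
    have h1 := hc (cls v)
    rw [cnt_inter_sdiff cls S T, cnt_inter_sdiff cls T S, Finset.inter_comm T S] at h1
    have h2 : 0 < cnt cls (S \ T) (cls v) := by
      unfold cnt
      rw [Finset.card_pos]
      exact ⟨v, by simp [hv]⟩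
    have h3 : 0 < cnt cls (T \ S) (cls v) := by omega
    unfold cnt at h3
    rw [Finset.card_pos] at h3
    obtain ⟨w, hw⟩ := h3
    rw [Finset.mem_filter, Finset.mem_sdiff] at hw
    obtain ⟨⟨hwT, hwS⟩, hwv⟩ := hw
    have hne : v ≠ w := fun h => hwS (h ▸ hv.1)
    have h4 : insert w (S.erase v) ∈ G.win := by
      apply hcls w v hwv
      · intro h; exact hwS (Finset.mem_of_mem_erase h)
      · exact Finset.notMem_erase v S
      · rw [Finset.insert_erase hv.1]; exact hS
    refine ih (insert w (S.erase v)) T ?_ ?_ h4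
    · have e : insert w (S.erase v) \ T = (S \ T).erase v := by
        ext x
        simp only [Finset.mem_sdiff, Finset.mem_insert, Finset.mem_erase]
        constructor
        · rintro ⟨h | ⟨h, h'⟩, h''⟩
          · exact absurd (h ▸ hwT) h''
          · exact ⟨h, h', h''⟩
        · rintro ⟨h, h', h''⟩
          exact ⟨Or.inr ⟨h, h'⟩, h''⟩
      rw [e, Finset.card_erase_of_mem (Finset.mem_sdiff.mpr hv), hn]
      rfl
    · intro r
      rw [← hc r, cnt_insert cls _ w (fun h => hwS (Finset.mem_of_mem_erase h)), hwv]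
      conv_rhs => rw [← Finset.insert_erase hv.1, cnt_insert cls _ v (Finset.notMem_erase v S)]

/-- a trade at the level of count vectors gives a trade -/
theorem trade_of_families (G : SimpleGame N) (cls : N → R)
    (hcls : ∀ v w, cls v = cls w → G.Geq v w) {ι κ : Type} [Fintype ι] [Fintype κ] (n : ℕ)
    (hι : Fintype.card ι = n) (hκ : Fintype.card κ = n) (w : ι → R → ℕ) (l : κ → R → ℕ)
    (hw : ∀ i, ∃ S ∈ G.win, ∀ r, cnt cls S r = w i r)
    (hl : ∀ i, ∃ S, S ∉ G.win ∧ ∀ r, cnt cls S r = l i r)
    (hsum : ∀ r, ∑ i, w i r = ∑ i, l i r) : G.HasTrade n := by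
  classical
  let e := (Fintype.equivFinOfCardEq hι).symm
  let f := (Fintype.equivFinOfCardEq hκ).symm
  obtain ⟨X, Y, hX, hY, hXY⟩ := exists_realize cls n (fun i => w (e i)) (fun i => l (f i))
    (by
      intro i r
      obtain ⟨S, _, hS⟩ := hw (e i)
      rw [← hS r]
      exact cnt_le_size cls S r)
    (by
      intro i r
      obtain ⟨S, _, hS⟩ := hl (f i)
      rw [← hS r]
      exact cnt_le_size cls S r)
    (by
      intro r
      rw [Equiv.sum_comp e (fun i => w i r), Equiv.sum_comp f (fun i => l i r)]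
      exact hsum r)
  refine ⟨X, Y, ?_, ?_, hXY⟩
  · intro i
    obtain ⟨S, hS, hS'⟩ := hw (e i)
    exact win_of_cnt G cls hcls _ S (X i) rfl (fun r => by rw [hS' r, hX i r]) hS
  · intro i hi
    obtain ⟨S, hS, hS'⟩ := hl (f i)
    exact hS (win_of_cnt G cls hcls _ (Y i) S rfl (fun r => by rw [hS' r, hY i r]) hi)

/-- a count vector is realised -/
lemma exists_cnt (cls : N → R) (x : R → ℕ) (hx : ∀ r, x r ≤ size cls r) :
    ∃ S : Finset N, ∀ r, cnt cls S r = x r := by
  obtain ⟨X, Y, hX, hY, hXY⟩ := exists_realize cls 1 (fun _ => x) (fun _ => x)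
    (fun _ => hx) (fun _ => hx) (fun _ => rfl)
  exact ⟨X 0, hX 0⟩

/-- Long trades can be shortened if there are at most three classes. -/
theorem trade_shorten [Fintype R] (hR : Fintype.card R ≤ 3) (G : SimpleGame N) (cls : N → R)
    (hcls : ∀ v w, cls v = cls w → G.Geq v w) (n : ℕ) (hn : 16 ≤ n) (h : G.HasTrade n) :
    ∃ m, 1 ≤ m ∧ m < n ∧ G.HasTrade m := by
  classical
  obtain ⟨X, Y, hX, hY, hXY⟩ := h
  have hs := sum_cnt_eq cls n X Y hXY
  have hcast : ∀ r, ∑ i, (cnt cls (X i) r : ℝ) = ∑ i, (cnt cls (Y i) r : ℝ) := by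
    intro r
    have := hs r
    exact_mod_cast this
  have hsh := Round.short_of_long hR (fun r => (size cls r : ℝ)) hn
    (fun i r => (cnt cls (X i) r : ℝ)) (fun i r => (cnt cls (Y i) r : ℝ))
    (fun i r => ⟨Nat.cast_nonneg _, by exact_mod_cast cnt_le_size cls (X i) r⟩)
    (fun i r => ⟨Nat.cast_nonneg _, by exact_mod_cast cnt_le_size cls (Y i) r⟩) hcast
  rcases hsh with ⟨A, B, hAB, hA1, hA2, hsum⟩ | ⟨A, B, hAB, hA1, hA2, hbox⟩
  · refine ⟨A.card, hA1, hA2, ?_⟩
    apply trade_of_families G cls hcls (ι := A) (κ := B) A.card (Fintype.card_coe A)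
      (by rw [Fintype.card_coe, hAB]) (fun i r => cnt cls (X i) r) (fun i r => cnt cls (Y i) r)
    · exact fun i => ⟨X i, hX i, fun r => rfl⟩
    · exact fun i => ⟨Y i, hY i, fun r => rfl⟩
    · intro r
      rw [Finset.sum_coe_sort A (fun i => cnt cls (X i) r),
        Finset.sum_coe_sort B (fun i => cnt cls (Y i) r)]
      have : ∑ i ∈ A, (cnt cls (X i) r : ℝ) = ∑ i ∈ B, (cnt cls (Y i) r : ℝ) := hsum r
      exact_mod_cast this
  · -- the intermediate point
    have hbox' : ∀ r, ∑ i ∈ A, cnt cls (X i) r ≤ ∑ i ∈ B, cnt cls (Y i) r ∧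
        ∑ i ∈ B, cnt cls (Y i) r ≤ ∑ i ∈ A, cnt cls (X i) r + size cls r := by
      intro r
      obtain ⟨h1, h2⟩ := hbox r
      have h1' : ∑ i ∈ A, (cnt cls (X i) r : ℝ) ≤ ∑ i ∈ B, (cnt cls (Y i) r : ℝ) := by linarith
      have h2' : ∑ i ∈ B, (cnt cls (Y i) r : ℝ) ≤
          ∑ i ∈ A, (cnt cls (X i) r : ℝ) + (size cls r : ℝ) := by linarith
      exact ⟨by exact_mod_cast h1', by exact_mod_cast h2'⟩
    let x : R → ℕ := fun r => ∑ i ∈ B, cnt cls (Y i) r - ∑ i ∈ A, cnt cls (X i) r
    have hx : ∀ r, x r ≤ size cls r := by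
      intro r
      have := hbox' r
      simp only [x]
      omega
    have hxe : ∀ r, x r + ∑ i ∈ A, cnt cls (X i) r = ∑ i ∈ B, cnt cls (Y i) r := by
      intro r
      have := hbox' r
      simp only [x]
      omega
    obtain ⟨Z, hZ⟩ := exists_cnt cls x hx
    by_cases hZw : Z ∈ G.win
    · refine ⟨A.card + 1, by omega, by omega, ?_⟩
      apply trade_of_families G cls hcls (ι := Option A) (κ := B) (A.card + 1)
        (by rw [Fintype.card_option, Fintype.card_coe])
        (by rw [Fintype.card_coe, hAB])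
        (fun i r => Option.elim i (x r) (fun i => cnt cls (X i) r)) (fun i r => cnt cls (Y i) r)
      · intro i
        rcases i with _ | i
        · exact ⟨Z, hZw, hZ⟩
        · exact ⟨X i, hX i, fun r => rfl⟩
      · exact fun i => ⟨Y i, hY i, fun r => rfl⟩
      · intro r
        rw [Fintype.sum_option]
        simp only [Option.elim_none, Option.elim_some]
        rw [Finset.sum_coe_sort A (fun i => cnt cls (X i) r),
          Finset.sum_coe_sort B (fun i => cnt cls (Y i) r)]
        exact hxe r
    · refine ⟨n - A.card, by omega, by omega, ?_⟩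
      apply trade_of_families G cls hcls (ι := (Aᶜ : Finset (Fin n)))
        (κ := Option (Bᶜ : Finset (Fin n))) (n - A.card)
        (by rw [Fintype.card_coe, Finset.card_compl, Fintype.card_fin])
        (by
          rw [Fintype.card_option, Fintype.card_coe, Finset.card_compl, Fintype.card_fin]
          omega)
        (fun i r => cnt cls (X i) r) (fun i r => Option.elim i (x r) (fun i => cnt cls (Y i) r))
      · exact fun i => ⟨X i, hX i, fun r => rfl⟩
      · intro i
        rcases i with _ | i
        · exact ⟨Z, hZw, hZ⟩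
        · exact ⟨Y i, hY i, fun r => rfl⟩
      · intro r
        rw [Fintype.sum_option]
        simp only [Option.elim_none, Option.elim_some]
        rw [Finset.sum_coe_sort (Aᶜ) (fun i => cnt cls (X i) r),
          Finset.sum_coe_sort (Bᶜ) (fun i => cnt cls (Y i) r)]
        have h1 := Finset.sum_add_sum_compl A (fun i => cnt cls (X i) r)
        have h2 := Finset.sum_add_sum_compl B (fun i => cnt cls (Y i) r)
        have h3 := hs r
        have h4 := hxe r
        omega

/-- Games with at most three types: `15`-trade robust implies trade robust. -/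
theorem robust_of_three (G : SimpleGame N) (h3 : G.numTypes ≤ 3) (h : G.TradeRobust 15) (k : ℕ) :
    G.TradeRobust k := by
  classical
  have : Finite (Quotient G.typeSetoid) := inferInstance
  let _ : Fintype (Quotient G.typeSetoid) := Fintype.ofFinite _
  have hR : Fintype.card (Quotient G.typeSetoid) ≤ 3 := by
    rw [← Nat.card_eq_fintype_card]; exact h3
  rw [SimpleGame.tradeRobust_iff] at h ⊢
  intro j
  induction j using Nat.strong_induction_on with
  | _ j ih =>
    intro hj1 hjk hj
    by_cases hj15 : j ≤ 15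
    · exact h j hj1 hj15 hj
    · obtain ⟨m, hm1, hm2, hm3⟩ := trade_shorten hR G G.cls (fun v w hvw => (G.cls_eq hvw).1) j
        (by omega) hj
      exact ih m hm2 hm1 (by omega) hm3

/-- `t ≤ 3` is bounded. -/
theorem not_unbounded_of_le_three (t : ℕ) (ht : t ≤ 3) : ¬ Unbounded t := by
  rintro ⟨N, hF, hD, G, hG⟩
  obtain ⟨-, h1, h2, h3⟩ := hG 15 (by norm_num)
  exact h3 (robust_of_three (G 15) (by omega) h2 16)

end

end Pool.Agent.H38.SG
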