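import Mathlib
import Pool.Agent.H38.SGDefs
import Pool.Agent.H38.SGThree

/-!
Adding a vetoer or a passer to a simple game.
-/

open Finset

namespace Pool.Agent.H38.SG

/-- computing the number of types from a labelling of the voters -/
lemma numTypes_eq {N : Type} [Fintype N] [DecidableEq N] (G : SimpleGame N) {β : Type}
    (f : N → β) (hf : Function.Surjective f)
    (h : ∀ a b, (G.Geq a b ∧ G.Geq b a) ↔ f a = f b) : G.numTypes = Nat.card β := by
  have e : G.typeSetoid = Setoid.ker f := by
    ext a b
    rw [Setoid.ker_def]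
    exact h a b
  unfold SimpleGame.numTypes
  rw [e]
  exact Nat.card_congr (Setoid.quotientKerEquivOfSurjective f hf)

namespace SimpleGame

variable {N : Type} [Fintype N] [DecidableEq N] (G : SimpleGame N)

/-- no voter is contained in every winning coalition -/
def NoVetoer : Prop := ∀ i : N, ∃ S ∈ G.win, i ∉ S

/-- no voter is a winning coalition on its own -/
def NoPasser : Prop := ∀ i : N, {i} ∉ G.win

/-- add a vetoer -/
def veto : SimpleGame (Option N) where
  win := {S | none ∈ S ∧ eraseNone S ∈ G.win}
  empty_notMem := by simp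
  univ_mem := by
    refine ⟨mem_univ _, ?_⟩
    have : eraseNone (univ : Finset (Option N)) = univ := by ext; simp
    rw [this]
    exact G.univ_mem
  mono := by
    rintro S T ⟨h1, h2⟩ hST
    exact ⟨hST h1, G.mono _ _ h2 (eraseNone.monotone hST)⟩

/-- add a passer -/
def pass : SimpleGame (Option N) where
  win := {S | none ∈ S ∨ eraseNone S ∈ G.win}
  empty_notMem := by
    rintro (h | h)
    · simp at h
    · rw [eraseNone_empty] at h
      exact G.empty_notMem h
  univ_mem := Or.inl (mem_univ _)
  mono := by
    rintro S T (h | h) hST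
    · exact Or.inl (hST h)
    · exact Or.inr (G.mono _ _ h (eraseNone.monotone hST))

lemma mem_veto (S : Finset (Option N)) :
    S ∈ G.veto.win ↔ none ∈ S ∧ eraseNone S ∈ G.win := Iff.rfl

lemma mem_pass (S : Finset (Option N)) :
    S ∈ G.pass.win ↔ none ∈ S ∨ eraseNone S ∈ G.win := Iff.rfl

lemma eraseNone_insert_some (i : N) (S : Finset (Option N)) :
    eraseNone (insert (some i) S) = insert i (eraseNone S) := by
  ext x; simp

lemma eraseNone_insert_none (S : Finset (Option N)) :
    eraseNone (insert none S) = eraseNone S := by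
  ext x; simp

/-! ### the veto game -/

lemma veto_some_some (i j : N) : G.veto.Geq (some i) (some j) ↔ G.Geq i j := by
  constructor
  · intro h S hi hj hS
    have := h (insertNone S) (by simpa using hi) (by simpa using hj) (by
      rw [mem_veto, eraseNone_insert_some, eraseNone_insertNone]
      exact ⟨by simp, hS⟩)
    rw [mem_veto, eraseNone_insert_some, eraseNone_insertNone] at this
    exact this.2
  · intro h S hi hj hS
    rw [mem_veto, eraseNone_insert_some] at hS ⊢
    refine ⟨?_, h _ (by simpa using hi) (by simpa using hj) hS.2⟩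
    have := hS.1
    simpa using this

lemma veto_none_some (j : N) : G.veto.Geq none (some j) := by
  intro S hi hj hS
  rw [mem_veto] at hS
  have := hS.1
  simp at this
  exact absurd this hi

lemma veto_some_none (hG : G.NoVetoer) (i : N) : ¬ G.veto.Geq (some i) none := by
  intro h
  obtain ⟨S, hS, hi⟩ := hG i
  have := h (S.map Function.Embedding.some) (by simpa using hi) (by simp) (by
    rw [mem_veto, eraseNone_insert_none, eraseNone_map_some]
    exact ⟨by simp, hS⟩)
  rw [mem_veto] at this
  simp at this

lemma veto_complete (h : G.Complete) : G.veto.Complete := by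
  rintro (_ | i) (_ | j)
  · exact Or.inl (Geq.refl _ _)
  · exact Or.inl (G.veto_none_some j)
  · exact Or.inr (G.veto_none_some i)
  · rw [veto_some_some, veto_some_some]
    exact h i j

lemma veto_numTypes (h : G.NoVetoer) : G.veto.numTypes = G.numTypes + 1 := by
  rw [numTypes_eq G.veto (Option.map G.cls) ?_ ?_]
  · rw [Finite.card_option]; rfl
  · rintro (_ | q)
    · exact ⟨none, rfl⟩
    · obtain ⟨v, rfl⟩ := Quotient.exists_rep q
      exact ⟨some v, rfl⟩
  · rintro (_ | i) (_ | j)
    · exact ⟨fun _ => rfl, fun _ => ⟨Geq.refl _ _, Geq.refl _ _⟩⟩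
    · refine ⟨fun h' => absurd h'.2 (G.veto_some_none h j), fun h' => ?_⟩
      simp at h'
    · refine ⟨fun h' => absurd h'.1 (G.veto_some_none h i), fun h' => ?_⟩
      simp at h'
    · rw [veto_some_some, veto_some_some, Option.map_some, Option.map_some, Option.some_inj]
      exact ⟨fun h' => Quotient.sound h', fun h' => G.cls_eq h'⟩

lemma veto_noPasser : G.veto.NoPasser := by
  rintro i ⟨h1, h2⟩
  rw [Finset.mem_singleton] at h1
  subst h1
  have : eraseNone ({none} : Finset (Option N)) = ∅ := by ext; simp
  rw [this] at h2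
  exact G.empty_notMem h2

lemma veto_hasTrade (j : ℕ) : G.veto.HasTrade j ↔ G.HasTrade j := by
  constructor
  · rintro ⟨X, Y, hX, hY, hXY⟩
    have h0 : ∀ i, none ∈ Y i := by
      have h1 := hXY none
      have h2 : univ.filter (fun i => none ∈ X i) = univ := by
        ext i; simp [(hX i).1]
      rw [h2] at h1
      have h3 := Finset.eq_univ_of_card _ h1.symm
      intro i
      have : i ∈ univ.filter (fun i => none ∈ Y i) := by rw [h3]; exact mem_univ i
      exact (Finset.mem_filter.mp this).2
    refine ⟨fun i => eraseNone (X i), fun i => eraseNone (Y i), fun i => (hX i).2,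
      fun i hi => hY i ⟨h0 i, hi⟩, fun v => ?_⟩
    simp only [mem_eraseNone]
    exact hXY (some v)
  · rintro ⟨X, Y, hX, hY, hXY⟩
    refine ⟨fun i => insertNone (X i), fun i => insertNone (Y i), fun i => ?_, fun i => ?_, ?_⟩
    · rw [mem_veto, eraseNone_insertNone]
      exact ⟨none_mem_insertNone, hX i⟩
    · rw [mem_veto, eraseNone_insertNone]
      exact fun h => hY i h.2
    · rintro (_ | v)
      · simp
      · simp only [some_mem_insertNone]
        exact hXY v

/-! ### the pass game -/

lemma pass_some_some (i j : N) : G.pass.Geq (some i) (some j) ↔ G.Geq i j := by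
  constructor
  · intro h S hi hj hS
    have := h (S.map Function.Embedding.some) (by simpa using hi) (by simpa using hj) (by
      rw [mem_pass, eraseNone_insert_some, eraseNone_map_some]
      exact Or.inr hS)
    rw [mem_pass, eraseNone_insert_some, eraseNone_map_some] at this
    rcases this with h' | h'
    · simp at h'
    · exact h'
  · intro h S hi hj hS
    rw [mem_pass, eraseNone_insert_some] at hS ⊢
    rcases hS with h' | h'
    · left
      simpa using h'
    · exact Or.inr (h _ (by simpa using hi) (by simpa using hj) h')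

lemma pass_none_some (j : N) : G.pass.Geq none (some j) := by
  intro S hi hj hS
  exact Or.inl (mem_insert_self _ _)

lemma pass_some_none (hG : G.NoPasser) (i : N) : ¬ G.pass.Geq (some i) none := by
  intro h
  have := h ∅ (by simp) (by simp) (Or.inl (mem_insert_self _ _))
  rw [mem_pass, eraseNone_insert_some, eraseNone_empty] at this
  rcases this with h' | h'
  · simp at h'
  · exact hG i (by simpa using h')

lemma pass_complete (h : G.Complete) : G.pass.Complete := by
  rintro (_ | i) (_ | j)
  · exact Or.inl (Geq.refl _ _)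
  · exact Or.inl (G.pass_none_some j)
  · exact Or.inr (G.pass_none_some i)
  · rw [pass_some_some, pass_some_some]
    exact h i j

lemma pass_numTypes (h : G.NoPasser) : G.pass.numTypes = G.numTypes + 1 := by
  rw [numTypes_eq G.pass (Option.map G.cls) ?_ ?_]
  · rw [Finite.card_option]; rfl
  · rintro (_ | q)
    · exact ⟨none, rfl⟩
    · obtain ⟨v, rfl⟩ := Quotient.exists_rep q
      exact ⟨some v, rfl⟩
  · rintro (_ | i) (_ | j)
    · exact ⟨fun _ => rfl, fun _ => ⟨Geq.refl _ _, Geq.refl _ _⟩⟩
    · refine ⟨fun h' => absurd h'.2 (G.pass_some_none h j), fun h' => ?_⟩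
      simp at h'
    · refine ⟨fun h' => absurd h'.1 (G.pass_some_none h i), fun h' => ?_⟩
      simp at h'
    · rw [pass_some_some, pass_some_some, Option.map_some, Option.map_some, Option.some_inj]
      exact ⟨fun h' => Quotient.sound h', fun h' => G.cls_eq h'⟩

lemma pass_noVetoer : G.pass.NoVetoer := by
  rintro (_ | i)
  · refine ⟨(univ : Finset N).map Function.Embedding.some, Or.inr ?_, by simp⟩
    rw [eraseNone_map_some]
    exact G.univ_mem
  · exact ⟨{none}, Or.inl (mem_singleton_self _), by simp⟩

lemma pass_hasTrade (j : ℕ) : G.pass.HasTrade j ↔ G.HasTrade j := by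
  constructor
  · rintro ⟨X, Y, hX, hY, hXY⟩
    have h0 : ∀ i, none ∉ X i := by
      have h1 := hXY none
      have h2 : univ.filter (fun i => none ∈ Y i) = ∅ := by
        rw [Finset.filter_eq_empty_iff]
        intro i _ hi
        exact hY i (Or.inl hi)
      rw [h2, Finset.card_empty, Finset.card_eq_zero, Finset.filter_eq_empty_iff] at h1
      intro i
      exact h1 (mem_univ i)
    refine ⟨fun i => eraseNone (X i), fun i => eraseNone (Y i),
      fun i => (hX i).resolve_left (h0 i), fun i hi => hY i (Or.inr hi), fun v => ?_⟩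
    simp only [mem_eraseNone]
    exact hXY (some v)
  · rintro ⟨X, Y, hX, hY, hXY⟩
    refine ⟨fun i => (X i).map Function.Embedding.some, fun i => (Y i).map Function.Embedding.some,
      fun i => ?_, fun i => ?_, ?_⟩
    · rw [mem_pass, eraseNone_map_some]
      exact Or.inr (hX i)
    · rw [mem_pass, eraseNone_map_some]
      rintro (h | h)
      · simp at h
      · exact hY i h
    · rintro (_ | v)
      · simp
      · have e : ∀ S : Finset N, some v ∈ S.map Function.Embedding.some ↔ v ∈ S := by
          intro S; simp
        simp only [e]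
        exact hXY v

end SimpleGame

/-- the statement of the induction -/
def Good (t k : ℕ) : Prop :=
  ∃ (N : Type) (_ : Fintype N) (_ : DecidableEq N) (G : SimpleGame N),
    G.Complete ∧ G.numTypes = t ∧ G.TradeRobust k ∧ ¬ G.TradeRobust (k + 1) ∧
      (G.NoVetoer ∨ G.NoPasser)

lemma good_succ (t k : ℕ) (h : Good t k) : Good (t + 1) k := by
  obtain ⟨N, hF, hD, G, h1, h2, h3, h4, h5 | h5⟩ := h
  · refine ⟨Option N, inferInstance, inferInstance, G.veto, G.veto_complete h1, ?_, ?_, ?_,
      Or.inr G.veto_noPasser⟩
    · rw [G.veto_numTypes h5, h2]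
    · rw [SimpleGame.tradeRobust_iff] at h3 ⊢
      intro j hj hj'
      rw [G.veto_hasTrade]
      exact h3 j hj hj'
    · intro h6
      apply h4
      rw [SimpleGame.tradeRobust_iff] at h6 ⊢
      intro j hj hj'
      rw [← G.veto_hasTrade]
      exact h6 j hj hj'
  · refine ⟨Option N, inferInstance, inferInstance, G.pass, G.pass_complete h1, ?_, ?_, ?_,
      Or.inl G.pass_noVetoer⟩
    · rw [G.pass_numTypes h5, h2]
    · rw [SimpleGame.tradeRobust_iff] at h3 ⊢
      intro j hj hj'
      rw [G.pass_hasTrade]
      exact h3 j hj hj'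
    · intro h6
      apply h4
      rw [SimpleGame.tradeRobust_iff] at h6 ⊢
      intro j hj hj'
      rw [← G.pass_hasTrade]
      exact h6 j hj hj'

lemma good_of_le (t k : ℕ) (ht : 4 ≤ t) (h : Good 4 k) : Good t k := by
  induction t, ht using Nat.le_induction with
  | base => exact h
  | succ t _ ih => exact good_succ t k ih

/-- a trivial game -/
def trivialGame : SimpleGame Unit where
  win := {S | S = univ}
  empty_notMem := by decide
  univ_mem := rfl
  mono := by
    rintro S T rfl h
    exact Finset.univ_subset_iff.mp h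

lemma unbounded_of_good (t : ℕ) (h : ∀ k, 2 ≤ k → Good t k) : Unbounded t := by
  have h' : ∀ k : ℕ, ∃ (N : Type) (_ : Fintype N) (_ : DecidableEq N) (G : SimpleGame N),
      2 ≤ k → G.Complete ∧ G.numTypes = t ∧ G.TradeRobust k ∧ ¬ G.TradeRobust (k + 1) := by
    intro k
    by_cases hk : 2 ≤ k
    · obtain ⟨N, hF, hD, G, h1, h2, h3, h4, -⟩ := h k hk
      exact ⟨N, hF, hD, G, fun _ => ⟨h1, h2, h3, h4⟩⟩
    · exact ⟨Unit, inferInstance, inferInstance, trivialGame, fun h => absurd h hk⟩
  choose N hF hD G hG using h'
  exact ⟨N, hF, hD, G, hG⟩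

end Pool.Agent.H38.SG
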