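import Mathlib
import Pool.Agent.H38.SGDefs
import Pool.Agent.H38.SGAssign
import Pool.Agent.H38.SGThree
import Pool.Agent.H38.SGOps

/-!
Flat games: weighted games in which the coalitions whose weight is exactly the quota are winning or
losing according to a list.
-/

open Finset

namespace Pool.Agent.H38.SG

section flat

variable {N R : Type} [Fintype N] [DecidableEq N] [Fintype R] [DecidableEq R]

/-- the weight of a vector -/
def wt (c x : R → ℕ) : ℕ := ∑ r, c r * x r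

lemma wt_cnt (cls : N → R) (c : R → ℕ) (S : Finset N) :
    wt c (cnt cls S) = ∑ v ∈ S, c (cls v) := by
  unfold wt cnt
  rw [← Finset.sum_fiberwise S cls (fun v => c (cls v))]
  apply Finset.sum_congr rfl
  intro r _
  rw [Finset.sum_congr rfl (g := fun _ => c r)]
  · rw [Finset.sum_const, smul_eq_mul, mul_comm]
  · intro v hv
    rw [(Finset.mem_filter.mp hv).2]

lemma cnt_univ (cls : N → R) : cnt cls univ = size cls := rfl

/-- The flat game: a coalition wins if its weight is larger than the quota, or it is equal to the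
quota and its vector of class counts is in the list `T`. -/
def flatGame (cls : N → R) (c : R → ℕ) (Q : ℕ) (T : Set (R → ℕ)) (hQ : 0 < Q)
    (hn : Q < wt c (size cls)) (hc : ∀ r, 0 < c r) (hT : ∀ x ∈ T, wt c x = Q) : SimpleGame N where
  win := {S | Q < wt c (cnt cls S) ∨ cnt cls S ∈ T}
  empty_notMem := by
    have h0 : wt c (cnt cls (∅ : Finset N)) = 0 := by rw [wt_cnt]; rfl
    rintro (h | h)
    · omega
    · have := hT _ h
      omega
  univ_mem := Or.inl hn
  mono := by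
    intro S S' hS hSS
    have h1 : Q ≤ wt c (cnt cls S) := by
      rcases hS with h | h
      · exact h.le
      · exact (hT _ h).ge
    rcases eq_or_ne S S' with rfl | hne
    · exact hS
    · left
      refine lt_of_le_of_lt h1 ?_
      rw [wt_cnt, wt_cnt]
      obtain ⟨v, hv, hv'⟩ := Finset.exists_of_ssubset (hSS.ssubset_of_ne hne)
      exact Finset.sum_lt_sum_of_subset hSS hv hv' (hc _) (fun _ _ _ => Nat.zero_le _)

variable (cls : N → R) (c : R → ℕ) (Q : ℕ) (T : Set (R → ℕ)) (hQ : 0 < Q)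
    (hn : Q < wt c (size cls)) (hc : ∀ r, 0 < c r) (hT : ∀ x ∈ T, wt c x = Q)

lemma mem_flat (S : Finset N) : S ∈ (flatGame cls c Q T hQ hn hc hT).win ↔
    (Q < wt c (cnt cls S) ∨ cnt cls S ∈ T) := Iff.rfl

lemma flat_weight {S : Finset N} (h : S ∈ (flatGame cls c Q T hQ hn hc hT).win) :
    Q ≤ wt c (cnt cls S) := by
  rcases h with h | h
  · exact h.le
  · exact (hT _ h).ge

lemma flat_weight' {S : Finset N} (h : S ∉ (flatGame cls c Q T hQ hn hc hT).win) :
    wt c (cnt cls S) ≤ Q := by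
  rw [mem_flat, not_or, not_lt] at h
  exact h.1

lemma flat_geq {i j : N} (h : c (cls j) < c (cls i) ∨ cls i = cls j) :
    (flatGame cls c Q T hQ hn hc hT).Geq i j := by
  intro S hi hj hS
  rcases h with h | h
  · left
    have h1 := flat_weight cls c Q T hQ hn hc hT hS
    rw [wt_cnt, Finset.sum_insert hj] at h1
    rw [wt_cnt, Finset.sum_insert hi]
    omega
  · have e : cnt cls (insert i S) = cnt cls (insert j S) := by
      funext r
      rw [cnt_insert cls S i hi, cnt_insert cls S j hj, h]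
    rw [mem_flat, e]
    exact hS

lemma flat_complete (hinj : Function.Injective c) :
    (flatGame cls c Q T hQ hn hc hT).Complete := by
  intro i j
  rcases lt_trichotomy (c (cls j)) (c (cls i)) with h | h | h
  · exact Or.inl (flat_geq cls c Q T hQ hn hc hT (Or.inl h))
  · exact Or.inl (flat_geq cls c Q T hQ hn hc hT (Or.inr (hinj h).symm))
  · exact Or.inr (flat_geq cls c Q T hQ hn hc hT (Or.inl h))

lemma flat_not_geq (hTn : ∀ x ∈ T, ∀ r, x r ≤ size cls r)
    (hsep : ∀ r r', c r' < c r → ∃ x ∈ T, 1 ≤ x r ∧ x r' < size cls r') {i j : N}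
    (h : c (cls j) < c (cls i)) : ¬ (flatGame cls c Q T hQ hn hc hT).Geq j i := by
  intro hji
  obtain ⟨x, hxT, hx1, hx2⟩ := hsep _ _ h
  obtain ⟨S, hS⟩ := exists_cnt cls x (hTn x hxT)
  have hSx : cnt cls S = x := funext hS
  -- a member of `S` in the class of `i`
  obtain ⟨i', hi'S, hi'⟩ : ∃ i' ∈ S, cls i' = cls i := by
    have h1 : 0 < cnt cls S (cls i) := by rw [hS]; exact hx1
    unfold cnt at h1
    rw [Finset.card_pos] at h1
    obtain ⟨i', h2⟩ := h1
    rw [Finset.mem_filter] at h2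
    exact ⟨i', h2.1, h2.2⟩
  -- a non-member of `S` in the class of `j`
  obtain ⟨j', hj'S, hj'⟩ : ∃ j', j' ∉ S ∧ cls j' = cls j := by
    by_contra hcon
    push Not at hcon
    have h1 : size cls (cls j) ≤ cnt cls S (cls j) := by
      apply Finset.card_le_card
      intro v hv
      rw [Finset.mem_filter] at hv ⊢
      refine ⟨?_, hv.2⟩
      by_contra hvS
      exact hcon v hvS hv.2
    rw [hS] at h1
    omega
  have g1 : (flatGame cls c Q T hQ hn hc hT).Geq j' i' :=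
    SimpleGame.Geq.trans _ (flat_geq cls c Q T hQ hn hc hT (Or.inr hj'))
      (SimpleGame.Geq.trans _ hji (flat_geq cls c Q T hQ hn hc hT (Or.inr hi'.symm)))
  have hwS : S ∈ (flatGame cls c Q T hQ hn hc hT).win := Or.inr (by rw [hSx]; exact hxT)
  have hj'2 : j' ∉ S.erase i' := fun h' => hj'S (Finset.mem_of_mem_erase h')
  have h3 := g1 (S.erase i') hj'2 (Finset.notMem_erase _ _)
    (by rw [Finset.insert_erase hi'S]; exact hwS)
  have h4 := flat_weight cls c Q T hQ hn hc hT h3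
  rw [wt_cnt, Finset.sum_insert hj'2] at h4
  have h5 : wt c (cnt cls S) = Q := by rw [hSx]; exact hT x hxT
  rw [wt_cnt, ← Finset.add_sum_erase S (fun v => c (cls v)) hi'S] at h5
  rw [hi'] at h5
  rw [hj'] at h4
  omega

lemma flat_numTypes (hinj : Function.Injective c) (hsurj : Function.Surjective cls)
    (hTn : ∀ x ∈ T, ∀ r, x r ≤ size cls r)
    (hsep : ∀ r r', c r' < c r → ∃ x ∈ T, 1 ≤ x r ∧ x r' < size cls r') :
    (flatGame cls c Q T hQ hn hc hT).numTypes = Nat.card R := by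
  apply numTypes_eq _ cls hsurj
  intro i j
  constructor
  · rintro ⟨h1, h2⟩
    by_contra hne
    rcases lt_trichotomy (c (cls j)) (c (cls i)) with h | h | h
    · exact flat_not_geq cls c Q T hQ hn hc hT hTn hsep h h2
    · exact hne (hinj h).symm
    · exact flat_not_geq cls c Q T hQ hn hc hT hTn hsep h h1
  · intro h
    exact ⟨flat_geq cls c Q T hQ hn hc hT (Or.inr h),
      flat_geq cls c Q T hQ hn hc hT (Or.inr h.symm)⟩

lemma flat_noPasser (hcQ : ∀ r, c r < Q) : (flatGame cls c Q T hQ hn hc hT).NoPasser := by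
  intro i hi
  have h1 := flat_weight cls c Q T hQ hn hc hT hi
  rw [wt_cnt, Finset.sum_singleton] at h1
  have := hcQ (cls i)
  omega

lemma flat_ties {j : ℕ} {X Y : Fin j → Finset N}
    (hX : ∀ i, X i ∈ (flatGame cls c Q T hQ hn hc hT).win)
    (hY : ∀ i, Y i ∉ (flatGame cls c Q T hQ hn hc hT).win)
    (hXY : ∀ v : N, (univ.filter (fun i => v ∈ X i)).card =
      (univ.filter (fun i => v ∈ Y i)).card) :
    (∀ i, cnt cls (X i) ∈ T) ∧ (∀ i, cnt cls (Y i) ∉ T ∧ wt c (cnt cls (Y i)) = Q) := by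
  have hs := sum_cnt_eq cls j X Y hXY
  have hw : ∑ i, wt c (cnt cls (X i)) = ∑ i, wt c (cnt cls (Y i)) := by
    unfold wt
    rw [Finset.sum_comm, Finset.sum_comm (s := (univ : Finset (Fin j)))]
    apply Finset.sum_congr rfl
    intro r _
    rw [← Finset.mul_sum, ← Finset.mul_sum, hs r]
  have hXQ : ∀ i, Q ≤ wt c (cnt cls (X i)) :=
    fun i => flat_weight cls c Q T hQ hn hc hT (hX i)
  have hYQ : ∀ i, wt c (cnt cls (Y i)) ≤ Q :=
    fun i => flat_weight' cls c Q T hQ hn hc hT (hY i)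
  have h1 : ∑ _i : Fin j, Q ≤ ∑ i, wt c (cnt cls (X i)) := Finset.sum_le_sum (fun i _ => hXQ i)
  have h2 : ∑ i, wt c (cnt cls (Y i)) ≤ ∑ _i : Fin j, Q := Finset.sum_le_sum (fun i _ => hYQ i)
  have h3 : ∀ i, wt c (cnt cls (X i)) = Q := by
    intro i
    have := (Finset.sum_eq_sum_iff_of_le (fun i (_ : i ∈ univ) => hXQ i)).mp (by omega) i
      (mem_univ i)
    exact this.symm
  have h4 : ∀ i, wt c (cnt cls (Y i)) = Q := by
    intro i
    exact (Finset.sum_eq_sum_iff_of_le (fun i (_ : i ∈ univ) => hYQ i)).mp (by omega) i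
      (mem_univ i)
  refine ⟨fun i => ?_, fun i => ⟨fun h => hY i (Or.inr h), h4 i⟩⟩
  rcases hX i with h | h
  · have := h3 i
    omega
  · exact h

lemma flat_robust (k : ℕ) (ρ : R) (α : ℕ) (hα : Nat.Coprime α (k + 1))
    (hTρ : ∀ x ∈ T, x ρ = α)
    (hL : ∀ x : R → ℕ, (∀ r, x r ≤ size cls r) → wt c x = Q → x ∉ T → x ρ = 0 ∨ x ρ = k + 1) :
    (flatGame cls c Q T hQ hn hc hT).TradeRobust k := by
  rw [SimpleGame.tradeRobust_iff]
  rintro j hj1 hjk ⟨X, Y, hX, hY, hXY⟩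
  have hs := sum_cnt_eq cls j X Y hXY ρ
  obtain ⟨h1, h2⟩ := flat_ties cls c Q T hQ hn hc hT hX hY hXY
  have h3 : ∑ i, cnt cls (X i) ρ = j * α := by
    rw [Finset.sum_congr rfl (fun i _ => hTρ _ (h1 i))]
    simp
  have h4 : (k + 1) ∣ ∑ i, cnt cls (Y i) ρ := by
    apply Finset.dvd_sum
    intro i _
    rcases hL (cnt cls (Y i)) (fun r => cnt_le_size cls _ r) (h2 i).2 (h2 i).1 with h | h
    · rw [h]; exact dvd_zero _
    · rw [h]
  rw [← hs, h3] at h4
  have h5 : (k + 1) ∣ j := (Nat.Coprime.dvd_of_dvd_mul_right hα.symm h4)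
  have := Nat.le_of_dvd (by omega) h5
  omega

lemma flat_trade {ι κ : Type} [Fintype ι] [Fintype κ] (n : ℕ)
    (hι : Fintype.card ι = n) (hκ : Fintype.card κ = n) (w : ι → R → ℕ) (l : κ → R → ℕ)
    (hTn : ∀ x ∈ T, ∀ r, x r ≤ size cls r)
    (hw : ∀ i, w i ∈ T) (hl : ∀ i, l i ∉ T ∧ wt c (l i) = Q ∧ ∀ r, l i r ≤ size cls r)
    (hsum : ∀ r, ∑ i, w i r = ∑ i, l i r) :
    (flatGame cls c Q T hQ hn hc hT).HasTrade n := by
  apply trade_of_families _ cls
    (fun v w h => flat_geq cls c Q T hQ hn hc hT (Or.inr h)) n hι hκ w l _ _ hsum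
  · intro i
    obtain ⟨S, hS⟩ := exists_cnt cls (w i) (hTn _ (hw i))
    refine ⟨S, Or.inr ?_, hS⟩
    rw [funext hS]
    exact hw i
  · intro i
    obtain ⟨S, hS⟩ := exists_cnt cls (l i) (hl i).2.2
    refine ⟨S, ?_, hS⟩
    rw [mem_flat, funext hS, (hl i).2.1, not_or]
    exact ⟨lt_irrefl _, (hl i).1⟩

end flat

lemma size_sigma (n : Fin 4 → ℕ) (r : Fin 4) :
    size (fun v : (Σ r : Fin 4, Fin (n r)) => v.1) r = n r := by
  unfold size
  have : univ.filter (fun v : (Σ r : Fin 4, Fin (n r)) => v.1 = r) =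
      (univ : Finset (Fin (n r))).map ⟨Sigma.mk r, sigma_mk_injective⟩ := by
    ext ⟨s, x⟩
    simp only [Finset.mem_filter, Finset.mem_univ, true_and, Finset.mem_map,
      Function.Embedding.coeFn_mk]
    constructor
    · rintro rfl
      exact ⟨x, rfl⟩
    · rintro ⟨y, hy⟩
      cases hy
      rfl
  rw [this, Finset.card_map, Finset.card_univ, Fintype.card_fin]

/-- Criterion for four classes. -/
theorem good_four (k : ℕ) (n c : Fin 4 → ℕ) (Q : ℕ) (T : Set (Fin 4 → ℕ)) (hc : ∀ r, 0 < c r)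
    (hinj : Function.Injective c) (hn0 : ∀ r, 0 < n r) (hcQ : ∀ r, c r < Q) (hn : Q < wt c n)
    (hT : ∀ x ∈ T, wt c x = Q) (hTn : ∀ x ∈ T, ∀ r, x r ≤ n r)
    (hsep : ∀ r r', c r' < c r → ∃ x ∈ T, 1 ≤ x r ∧ x r' < n r')
    (ρ : Fin 4) (α : ℕ) (hα : Nat.Coprime α (k + 1)) (hTρ : ∀ x ∈ T, x ρ = α)
    (hL : ∀ x : Fin 4 → ℕ, (∀ r, x r ≤ n r) → wt c x = Q → x ∉ T → x ρ = 0 ∨ x ρ = k + 1)
    {ι κ : Type} [Fintype ι] [Fintype κ]
    (hι : Fintype.card ι = k + 1) (hκ : Fintype.card κ = k + 1) (w : ι → Fin 4 → ℕ)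
    (l : κ → Fin 4 → ℕ) (hw : ∀ i, w i ∈ T)
    (hl : ∀ i, l i ∉ T ∧ wt c (l i) = Q ∧ ∀ r, l i r ≤ n r)
    (hsum : ∀ r, ∑ i, w i r = ∑ i, l i r) : Good 4 k := by
  have hQ : 0 < Q := lt_of_le_of_lt (Nat.zero_le _) (hcQ 0)
  have hsz : size (fun v : (Σ r : Fin 4, Fin (n r)) => v.1) = n := funext (size_sigma n)
  refine ⟨(Σ r : Fin 4, Fin (n r)), inferInstance, inferInstance,
    flatGame (fun v : (Σ r : Fin 4, Fin (n r)) => v.1) c Q T hQ (by rw [hsz]; exact hn) hc hT,
    flat_complete _ c Q T hQ _ hc hT hinj, ?_, ?_, ?_, Or.inr (flat_noPasser _ c Q T hQ _ hc hT hcQ)⟩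
  · rw [flat_numTypes _ c Q T hQ _ hc hT hinj]
    · simp
    · intro r
      exact ⟨⟨r, ⟨0, hn0 r⟩⟩, rfl⟩
    · rw [hsz]; exact hTn
    · rw [hsz]; exact hsep
  · apply flat_robust _ c Q T hQ _ hc hT k ρ α hα hTρ
    rw [hsz]; exact hL
  · rw [SimpleGame.tradeRobust_iff]
    intro h
    refine h (k + 1) (by omega) le_rfl ?_
    apply flat_trade _ c Q T hQ _ hc hT (k + 1) hι hκ w l _ hw _ hsum
    · rw [hsz]; exact hTn
    · rw [hsz]; exact hl

end Pool.Agent.H38.SG
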