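import Mathlib
import Pool.Agent.H38.SGFlat

/-!
The base games with four types of voters.
-/

open Finset

namespace Pool.Agent.H38.SG

lemma wt_four (c x : Fin 4 → ℕ) : wt c x = c 0 * x 0 + c 1 * x 1 + c 2 * x 2 + c 3 * x 3 := by
  unfold wt
  rw [Fin.sum_univ_four]

/-- `k = 2` -/
theorem good_four_two : Good 4 2 := by
  apply good_four 2 ![1, 2, 3, 3] ![7, 5, 3, 1] 10 {![0, 1, 1, 2], ![1, 0, 1, 0]}
    (by decide) (by decide) (by decide) (by decide) (by decide)
    (by
      rintro x (rfl | rfl)
      · decide
      · decide)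
    (by
      rintro x (rfl | rfl)
      · decide
      · decide)
    (by
      intro r r' h
      have : (1 ≤ (![0, 1, 1, 2] : Fin 4 → ℕ) r ∧ (![0, 1, 1, 2] : Fin 4 → ℕ) r' <
          (![1, 2, 3, 3] : Fin 4 → ℕ) r') ∨
          (1 ≤ (![1, 0, 1, 0] : Fin 4 → ℕ) r ∧ (![1, 0, 1, 0] : Fin 4 → ℕ) r' <
          (![1, 2, 3, 3] : Fin 4 → ℕ) r') := by
        revert r r'
        decide
      rcases this with h | h
      · exact ⟨_, Or.inl rfl, h⟩
      · exact ⟨_, Or.inr rfl, h⟩)
    2 1 (by decide)
    (by
      rintro x (rfl | rfl)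
      · rfl
      · rfl)
    (by
      intro x hx hwt hxT
      rw [wt_four] at hwt
      have h0 := hx 0
      have h1 := hx 1
      have h2 := hx 2
      have h3 := hx 3
      simp at hwt h0 h1 h2 h3
      by_contra hcon
      push Not at hcon
      apply hxT
      have key : (x 0 = 0 ∧ x 1 = 1 ∧ x 2 = 1 ∧ x 3 = 2) ∨
          (x 0 = 1 ∧ x 1 = 0 ∧ x 2 = 1 ∧ x 3 = 0) := by
        have h01 : x 0 = 0 ∨ x 0 = 1 := by omega
        have h21 : x 2 = 1 ∨ x 2 = 2 := by omega
        have h11 : x 1 = 0 ∨ x 1 = 1 ∨ x 1 = 2 := by omega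
        rcases h01 with h01 | h01 <;> rcases h21 with h21 | h21 <;>
          rcases h11 with h11 | h11 | h11 <;> omega
      rcases key with ⟨a, b, c, d⟩ | ⟨a, b, c, d⟩
      · left
        funext r
        fin_cases r <;> simp [a, b, c, d]
      · right
        funext r
        fin_cases r <;> simp [a, b, c, d])
    (ι := Fin 3) (κ := Fin 3) (by decide) (by decide)
    ![![0, 1, 1, 2], ![0, 1, 1, 2], ![1, 0, 1, 0]]
    ![![0, 0, 3, 1], ![0, 2, 0, 0], ![1, 0, 0, 3]]
  · intro i
    fin_cases i
    · exact Or.inl rfl
    · exact Or.inl rfl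
    · exact Or.inr rfl
  · intro i
    refine ⟨?_, ?_, ?_⟩
    · rintro (h | h)
      · have := congrFun h 2
        revert this
        revert i
        decide
      · have := congrFun h 2
        revert this
        revert i
        decide
    · revert i
      decide
    · revert i
      decide
  · decide

/-- The lattice points of the box on the hyperplane. -/
lemma ties_aux (m x0 x1 x2 x3 : ℤ) (hm : 2 ≤ m) (h0 : 0 ≤ x0) (h0' : x0 ≤ m + 1)
    (h1 : 0 ≤ x1) (h1' : x1 ≤ 2 * m + 1) (h2 : 0 ≤ x2) (h2' : x2 ≤ m + 2) (h3 : 0 ≤ x3)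
    (h3' : x3 ≤ m + 1)
    (h : m * (m + 1) * x0 + (m ^ 2 + 3 * m + 1) * x1 + m * (2 * m + 1) * x2 +
      (m + 1) * (2 * m + 1) * x3 = m * (m + 1) * 1 + (m ^ 2 + 3 * m + 1) * m +
      m * (2 * m + 1) * (m + 1) + (m + 1) * (2 * m + 1) * (m + 1)) :
    (x0 = 1 ∧ x1 = m ∧ x2 = m + 1 ∧ x3 = m + 1) ∨
    (x0 = m + 1 ∧ x1 = 2 * m + 1 ∧ x2 = m + 1 ∧ x3 = 0) ∨ x2 = 0 ∨ x2 = m + 2 := by
  obtain ⟨y0, rfl⟩ : ∃ y, x0 = 1 + y := ⟨x0 - 1, by ring⟩
  obtain ⟨y1, rfl⟩ : ∃ y, x1 = m + y := ⟨x1 - m, by ring⟩
  obtain ⟨y2, rfl⟩ : ∃ y, x2 = m + 1 + y := ⟨x2 - (m + 1), by ring⟩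
  obtain ⟨y3, rfl⟩ : ∃ y, x3 = m + 1 + y := ⟨x3 - (m + 1), by ring⟩
  have hy : m * (m + 1) * y0 + (m ^ 2 + 3 * m + 1) * y1 + m * (2 * m + 1) * y2 +
      (m + 1) * (2 * m + 1) * y3 = 0 := by linear_combination h
  obtain ⟨k, hk⟩ : ∃ k, k = (2 * m + 1) * (y0 + y1) + 4 * (y1 + m * y2 + (m + 1) * y3) := ⟨_, rfl⟩
  have hk2 : y0 + y1 = (2 * m + 1) * k := by
    rw [hk]
    linear_combination (-4) * hy
  have hk3 : -1 < k := by
    by_contra hcon
    push Not at hcon
    nlinarith
  have hk4 : k < 2 := by
    by_contra hcon
    push Not at hcon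
    nlinarith
  have hred : (2 * m + 1) * (m * (m + 1) * k + y1 + m * y2 + (m + 1) * y3) = 0 := by
    linear_combination hy - m * (m + 1) * hk2
  have hred' : m * (m + 1) * k + y1 + m * y2 + (m + 1) * y3 = 0 := by
    rcases mul_eq_zero.mp hred with h' | h'
    · omega
    · exact h'
  have hk01 : k = 0 ∨ k = 1 := by omega
  rcases hk01 with rfl | rfl
  · obtain ⟨s, hs⟩ : ∃ s, s = y2 + y3 := ⟨_, rfl⟩
    have e1 : y0 = y3 + m * s := by
      rw [hs]
      linear_combination hk2 - hred'
    have hs0 : -1 < s := by
      by_contra hcon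
      push Not at hcon
      nlinarith
    have hs01 : s = 0 ∨ s = 1 := by omega
    rcases hs01 with rfl | rfl
    · have : y3 = 0 ∨ y3 = -1 := by omega
      rcases this with rfl | rfl
      · left
        have : y2 = 0 := by omega
        subst this
        simp at e1
        subst e1
        simp at hk2
        subst hk2
        simp
      · right; right; right
        omega
    · right; right; right
      omega
  · have e0 : y0 = m := by omega
    have e1 : y1 = m + 1 := by omega
    subst e0 e1
    obtain ⟨u, hu⟩ : ∃ u, u = y2 + y3 + (y0 + 1) := ⟨_, rfl⟩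
    have e2 : y2 = (y0 + 1) * u := by
      rw [hu]
      linear_combination -hred'
    have hu1 : -2 < u := by
      by_contra hcon
      push Not at hcon
      nlinarith
    have hu2 : u < 1 := by
      by_contra hcon
      push Not at hcon
      nlinarith
    have hu01 : u = -1 ∨ u = 0 := by omega
    rcases hu01 with rfl | rfl
    · right; right; left
      rw [e2]; ring
    · right; left
      simp at e2
      subst e2
      omega

lemma inj_four (a b c d : ℕ) (h01 : a ≠ b) (h02 : a ≠ c) (h03 : a ≠ d) (h12 : b ≠ c)
    (h13 : b ≠ d) (h23 : c ≠ d) : Function.Injective ![a, b, c, d] := by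
  intro r s h
  fin_cases r <;> fin_cases s <;> simp_all

lemma ne_four (f g : Fin 4 → ℕ) (r : Fin 4) (h : f r ≠ g r) : f ≠ g :=
  fun h' => h (congrFun h' r)

/-- `k = m + 1` for `m ≥ 2` -/
theorem good_four_general (m : ℕ) (hm : 2 ≤ m) : Good 4 (m + 1) := by
  apply good_four (m + 1) ![m + 1, 2 * m + 1, m + 2, m + 1]
    ![m * (m + 1), m ^ 2 + 3 * m + 1, m * (2 * m + 1), (m + 1) * (2 * m + 1)]
    (m * (m + 1) * 1 + (m ^ 2 + 3 * m + 1) * m +
      m * (2 * m + 1) * (m + 1) + (m + 1) * (2 * m + 1) * (m + 1))
    {![1, m, m + 1, m + 1], ![m + 1, 2 * m + 1, m + 1, 0]}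
    (by
      intro r
      fin_cases r
      · show 0 < m * (m + 1)
        positivity
      · show 0 < m ^ 2 + 3 * m + 1
        positivity
      · show 0 < m * (2 * m + 1)
        positivity
      · show 0 < (m + 1) * (2 * m + 1)
        positivity)
    (by
      have e23 : m ^ 2 + 3 * m + 1 ≠ m * (2 * m + 1) := by
        intro h
        have h1 : m = 2 ∨ 3 ≤ m := by omega
        rcases h1 with rfl | h1
        · omega
        · nlinarith
      apply inj_four
      · nlinarith
      · nlinarith
      · nlinarith
      · exact e23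
      · nlinarith
      · nlinarith)
    (by
      intro r
      fin_cases r
      · show 0 < m + 1
        positivity
      · show 0 < 2 * m + 1
        positivity
      · show 0 < m + 2
        positivity
      · show 0 < m + 1
        positivity)
    (by
      intro r
      fin_cases r
      · show m * (m + 1) < _
        nlinarith
      · show m ^ 2 + 3 * m + 1 < _
        nlinarith
      · show m * (2 * m + 1) < _
        nlinarith
      · show (m + 1) * (2 * m + 1) < _
        nlinarith)
    (by
      rw [wt_four]
      show _ < m * (m + 1) * (m + 1) + (m ^ 2 + 3 * m + 1) * (2 * m + 1) +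
        m * (2 * m + 1) * (m + 2) + (m + 1) * (2 * m + 1) * (m + 1)
      nlinarith)
    (by
      rintro x (rfl | rfl)
      · rw [wt_four]
        show m * (m + 1) * 1 + (m ^ 2 + 3 * m + 1) * m +
          m * (2 * m + 1) * (m + 1) + (m + 1) * (2 * m + 1) * (m + 1) = _
        rfl
      · rw [wt_four]
        show m * (m + 1) * (m + 1) + (m ^ 2 + 3 * m + 1) * (2 * m + 1) +
          m * (2 * m + 1) * (m + 1) + (m + 1) * (2 * m + 1) * 0 = _
        ring)
    (by
      rintro x (rfl | rfl) r
      · fin_cases r
        · show 1 ≤ m + 1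
          omega
        · show m ≤ 2 * m + 1
          omega
        · show m + 1 ≤ m + 2
          omega
        · show m + 1 ≤ m + 1
          omega
      · fin_cases r
        · show m + 1 ≤ m + 1
          omega
        · show 2 * m + 1 ≤ 2 * m + 1
          omega
        · show m + 1 ≤ m + 2
          omega
        · show 0 ≤ m + 1
          omega)
    (by
      intro r r' h
      refine ⟨_, Or.inl rfl, ?_, ?_⟩
      · fin_cases r
        · show 1 ≤ 1
          omega
        · show 1 ≤ m
          omega
        · show 1 ≤ m + 1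
          omega
        · show 1 ≤ m + 1
          omega
      · fin_cases r'
        · show 1 < m + 1
          omega
        · show m < 2 * m + 1
          omega
        · show m + 1 < m + 2
          omega
        · exfalso
          revert h
          fin_cases r
          · show ¬ ((m + 1) * (2 * m + 1) < m * (m + 1))
            nlinarith
          · show ¬ ((m + 1) * (2 * m + 1) < m ^ 2 + 3 * m + 1)
            nlinarith
          · show ¬ ((m + 1) * (2 * m + 1) < m * (2 * m + 1))
            nlinarith
          · exact lt_irrefl _)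
    2 (m + 1) (by simp)
    (by
      rintro x (rfl | rfl)
      · rfl
      · rfl)
    (by
      intro x hx hwt hxT
      rw [wt_four] at hwt
      have h0 : x 0 ≤ m + 1 := hx 0
      have h1 : x 1 ≤ 2 * m + 1 := hx 1
      have h2 : x 2 ≤ m + 2 := hx 2
      have h3 : x 3 ≤ m + 1 := hx 3
      have hwt' : m * (m + 1) * x 0 + (m ^ 2 + 3 * m + 1) * x 1 +
        m * (2 * m + 1) * x 2 + (m + 1) * (2 * m + 1) * x 3 =
        (m * (m + 1) * 1 + (m ^ 2 + 3 * m + 1) * m +
          m * (2 * m + 1) * (m + 1) + (m + 1) * (2 * m + 1) * (m + 1)) := hwt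
      have key := ties_aux (m : ℤ) (x 0 : ℤ) (x 1 : ℤ) (x 2 : ℤ) (x 3 : ℤ) (by exact_mod_cast hm)
        (by positivity) (by exact_mod_cast h0) (by positivity) (by exact_mod_cast h1)
        (by positivity) (by exact_mod_cast h2) (by positivity) (by exact_mod_cast h3)
        (by exact_mod_cast hwt')
      rcases key with ⟨a, b, c, d⟩ | ⟨a, b, c, d⟩ | key | key
      · exfalso
        apply hxT
        left
        funext r
        fin_cases r
        · show x 0 = 1
          omega
        · show x 1 = m
          omega
        · show x 2 = m + 1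
          omega
        · show x 3 = m + 1
          omega
      · exfalso
        apply hxT
        right
        funext r
        fin_cases r
        · show x 0 = m + 1
          omega
        · show x 1 = 2 * m + 1
          omega
        · show x 2 = m + 1
          omega
        · show x 3 = 0
          omega
      · left
        omega
      · right
        omega)
    (ι := Option (Fin (m + 1))) (κ := Option (Option (Fin m)))
    (by rw [Fintype.card_option, Fintype.card_fin])
    (by rw [Fintype.card_option, Fintype.card_option, Fintype.card_fin])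
    (fun i => Option.elim i ![m + 1, 2 * m + 1, m + 1, 0] (fun _ => ![1, m, m + 1, m + 1]))
    (fun i => Option.elim i ![m + 1, 0, m + 2, m + 1]
      (fun i => Option.elim i ![m + 1, 2 * m + 1, 0, m] (fun _ => ![0, m + 1, m + 2, m])))
  · rintro (_ | i)
    · exact Or.inr rfl
    · exact Or.inl rfl
  · rintro (_ | _ | i)
    · refine ⟨?_, ?_, ?_⟩
      · rintro (h | h)
        · have : m + 2 = m + 1 := congrFun h 2
          omega
        · have : m + 2 = m + 1 := congrFun h 2
          omega
      · rw [wt_four]
        show m * (m + 1) * (m + 1) + (m ^ 2 + 3 * m + 1) * 0 +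
          m * (2 * m + 1) * (m + 2) + (m + 1) * (2 * m + 1) * (m + 1) = _
        ring
      · intro r
        fin_cases r
        · show m + 1 ≤ m + 1
          omega
        · show 0 ≤ 2 * m + 1
          omega
        · show m + 2 ≤ m + 2
          omega
        · show m + 1 ≤ m + 1
          omega
    · refine ⟨?_, ?_, ?_⟩
      · rintro (h | h)
        · have : 0 = m + 1 := congrFun h 2
          omega
        · have : 0 = m + 1 := congrFun h 2
          omega
      · rw [wt_four]
        show m * (m + 1) * (m + 1) + (m ^ 2 + 3 * m + 1) * (2 * m + 1) +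
          m * (2 * m + 1) * 0 + (m + 1) * (2 * m + 1) * m = _
        ring
      · intro r
        fin_cases r
        · show m + 1 ≤ m + 1
          omega
        · show 2 * m + 1 ≤ 2 * m + 1
          omega
        · show 0 ≤ m + 2
          omega
        · show m ≤ m + 1
          omega
    · refine ⟨?_, ?_, ?_⟩
      · rintro (h | h)
        · have : m + 2 = m + 1 := congrFun h 2
          omega
        · have : m + 2 = m + 1 := congrFun h 2
          omega
      · rw [wt_four]
        show m * (m + 1) * 0 + (m ^ 2 + 3 * m + 1) * (m + 1) +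
          m * (2 * m + 1) * (m + 2) + (m + 1) * (2 * m + 1) * m = _
        ring
      · intro r
        fin_cases r
        · show 0 ≤ m + 1
          omega
        · show m + 1 ≤ 2 * m + 1
          omega
        · show m + 2 ≤ m + 2
          omega
        · show m ≤ m + 1
          omega
  · intro r
    rw [Fintype.sum_option, Fintype.sum_option, Fintype.sum_option]
    simp only [Option.elim_none, Option.elim_some, Finset.sum_const, Finset.card_univ,
      Fintype.card_fin, smul_eq_mul]
    fin_cases r
    · show m + 1 + (m + 1) * 1 = m + 1 + (m + 1 + m * 0)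
      ring
    · show 2 * m + 1 + (m + 1) * m = 0 + (2 * m + 1 + m * (m + 1))
      ring
    · show m + 1 + (m + 1) * (m + 1) = m + 2 + (0 + m * (m + 2))
      ring
    · show 0 + (m + 1) * (m + 1) = m + 1 + (m + m * m)
      ring

theorem good_four_all (k : ℕ) (hk : 2 ≤ k) : Good 4 k := by
  have : k = 2 ∨ 3 ≤ k := by omega
  rcases this with rfl | h
  · exact good_four_two
  · obtain ⟨m, rfl⟩ : ∃ m, k = m + 1 := ⟨k - 1, by omega⟩
    exact good_four_general m (by omega)

/-- **The classification.** `t` is unbounded if and only if `t ≥ 4`. -/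
theorem unbounded_iff (t : ℕ) : Unbounded t ↔ 4 ≤ t := by
  constructor
  · intro h
    by_contra hcon
    exact not_unbounded_of_le_three t (by omega) h
  · intro h
    exact unbounded_of_good t (fun k hk => good_of_le t k h (good_four_all k hk))

end Pool.Agent.H38.SG
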